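import Pool.Agent.H966.N5.Stm

/-!
TASK A of the local limit theorem (project of helper966): ratios of coefficients. Written by helper340.
-/

set_option autoImplicit false
set_option maxHeartbeats 4000000

namespace Pool.Agent.H966.N5

open Polynomial
open Pool.Agent.NH38.Fork (rf cK sv kap S_sE S_KE)
open Pool.Agent.H965.K3 (dv)
open Pool.Agent.H966.N3 (S_dE)

namespace A

lemma kp (n : ℕ) : 0 < kap n := by
  unfold kap
  exact Finset.prod_pos fun i _ => by positivity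

lemma kap_diff (n : ℕ) : kap (n+2) - kap n =
    kap n * ((4/3*(n:ℚ)+2)/(((n:ℚ)+2/3)*((n:ℚ)+5/3))) := by
  unfold kap
  rw [Finset.prod_range_succ, Finset.prod_range_succ]
  have h1 : (n:ℚ)+2/3 ≠ 0 := by positivity
  have h2 : (n:ℚ)+5/3 ≠ 0 := by positivity
  have h3 : ((n+1:ℕ):ℚ)+2/3 = (n:ℚ)+5/3 := by push_cast; ring
  have h4 : ((n+1:ℕ):ℚ)+4/3 = (n:ℚ)+7/3 := by push_cast; ring
  rw [h3, h4]
  generalize (∏ i ∈ Finset.range n, ((i:ℚ) + 4/3) / (i + 2/3)) = P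
  field_simp
  ring

lemma rfp {s : ℝ} (hs : 0 < s) (n : ℕ) : 0 < rf s n := by
  unfold rf
  exact Finset.prod_pos fun i _ => by positivity

lemma rf_shift (l : ℕ) : rf (4/3) l = (3*(l:ℝ)+1) * rf (1/3) l := by
  induction l with
  | zero => simp [rf]
  | succ l ih =>
    have e1 : rf (4/3) (l+1) = rf (4/3) l * (4/3 + l) := by
      unfold rf; rw [Finset.prod_range_succ]
    have e2 : rf (1/3) (l+1) = rf (1/3) l * (1/3 + l) := by
      unfold rf; rw [Finset.prod_range_succ]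
    rw [e1, e2, ih]
    push_cast
    ring

lemma rf_12 (l : ℕ) : rf (1/3) l ≤ rf (2/3) l := by
  unfold rf
  refine Finset.prod_le_prod (fun i _ => by positivity) (fun i _ => by linarith)

lemma rf_42 (j : ℕ) : rf (4/3) j ≤ ((j:ℝ)+1) * rf (2/3) j := by
  induction j with
  | zero => unfold rf; simp
  | succ j ih =>
    have e1 : rf (4/3) (j+1) = rf (4/3) j * (4/3 + j) := by
      unfold rf; rw [Finset.prod_range_succ]
    have e2 : rf (2/3) (j+1) = rf (2/3) j * (2/3 + j) := by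
      unfold rf; rw [Finset.prod_range_succ]
    rw [e1, e2]
    have h0 := rfp (s := 2/3) (by norm_num) j
    have hj : (0:ℝ) ≤ j := Nat.cast_nonneg j
    push_cast
    calc rf (4/3) j * (4/3 + j) ≤ (((j:ℝ)+1) * rf (2/3) j) * (4/3 + j) :=
          mul_le_mul_of_nonneg_right ih (by positivity)
      _ ≤ _ := by
        have : ((j:ℝ)+1) * (4/3 + j) ≤ (j+1+1) * (2/3 + j) := by nlinarith
        nlinarith

lemma dv_eq (n l : ℕ) : (kap (n+2) - kap n) * (dv (n+1)).coeff l =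
    (sv (n+2)).coeff l - (sv n).coeff l := by
  have h : kap (n+2) - kap n ≠ 0 := by
    rw [kap_diff]
    have := kp n
    positivity
  show _ * (C (1/(kap (n+2) - kap n)) * (sv (n+2) - sv n)).coeff l = _
  rw [coeff_C_mul, coeff_sub]
  field_simp

lemma cKp : 0 < cK := div_pos (Real.Gamma_pos_of_pos (by norm_num))
  (Real.Gamma_pos_of_pos (by norm_num))

/-- the quotient of four factors near 1 -/
lemma quot {E a b d s : ℝ} (hE0 : 0 ≤ E) (hE : E ≤ 1/4) (ha : |a| ≤ E) (hb : |b| ≤ E)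
    (hd : |d| ≤ E) (hs : |s| ≤ E) :
    |(1+a)*(1+b)*(1+d)/(1+s) - 1| ≤ 12 * E := by
  have ha' := abs_le.1 ha
  have hb' := abs_le.1 hb
  have hd' := abs_le.1 hd
  have hs' := abs_le.1 hs
  have hs0 : 0 < 1 + s := by linarith
  have e : (1+a)*(1+b)*(1+d)/(1+s) - 1 = ((1+a)*(1+b)*(1+d) - (1 + s)) / (1+s) := by
    field_simp
  rw [e, abs_div, abs_of_pos hs0, div_le_iff₀ hs0]
  have h1 : (1+a)*(1+b)*(1+d) - (1 + s) = a + b + d - s + a*b + a*d + b*d + a*b*d := by ring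
  have hab : |a*b| ≤ E * E := by rw [abs_mul]; exact mul_le_mul ha hb (abs_nonneg _) hE0
  have had : |a*d| ≤ E * E := by rw [abs_mul]; exact mul_le_mul ha hd (abs_nonneg _) hE0
  have hbd : |b*d| ≤ E * E := by rw [abs_mul]; exact mul_le_mul hb hd (abs_nonneg _) hE0
  have habd : |a*b*d| ≤ E * E * E := by
    rw [abs_mul]; exact mul_le_mul hab hd (abs_nonneg _) (by positivity)
  have hEE : E * E ≤ E * (1/4) := mul_le_mul_of_nonneg_left hE hE0
  have hEEE : E * E * E ≤ E * (1/4) := by nlinarith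
  have h2 : |(1+a)*(1+b)*(1+d) - (1 + s)| ≤ 5 * E := by
    rw [h1, abs_le]
    have := abs_le.1 hab
    have := abs_le.1 had
    have := abs_le.1 hbd
    have := abs_le.1 habd
    constructor <;> linarith
  nlinarith

/-- the Gamma quotient factor -/
lemma fac_a {n : ℝ} (hn : 1 ≤ n) :
    |n/2 * ((4/3*n+2)/((n+2/3)*(n+5/3))) * (3/2) - 1| ≤ 1 / n := by
  have h0 : 0 < n := by linarith
  have h1 : n/2 * ((4/3*n+2)/((n+2/3)*(n+5/3))) * (3/2) - 1 =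
      -((5/6*n+10/9)/((n+2/3)*(n+5/3))) := by
    field_simp
    ring
  rw [h1, abs_neg, abs_of_nonneg (by positivity), div_le_div_iff₀ (by positivity) h0]
  nlinarith

lemma fac_b {n : ℝ} {l : ℕ} (hn : 1 ≤ n) (hl : 2*(l:ℝ) ≤ n) :
    |((n+1)/n)^(2*l) - 1| ≤ 4 * (l:ℝ) / n := by
  have h0 : 0 < n := by linarith
  have h1 : (n+1)/n = 1/n + 1 := by rw [add_div, div_self h0.ne', add_comm]
  have h2 : (1:ℝ)/n + 1 ≤ Real.exp (1/n) := Real.add_one_le_exp _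
  have h3 : ((n+1)/n)^(2*l) ≤ Real.exp (2*(l:ℝ)/n) := by
    rw [h1]
    calc (1/n + 1)^(2*l) ≤ (Real.exp (1/n))^(2*l) := pow_le_pow_left₀ (by positivity) h2 _
      _ = _ := by
        rw [← Real.exp_nat_mul]
        congr 1
        push_cast
        ring
  have h4 : 1 ≤ ((n+1)/n)^(2*l) := one_le_pow₀ (by rw [h1]; linarith [one_div_pos.2 h0])
  have h5 : |Real.exp (2*(l:ℝ)/n) - 1| ≤ 2 * |2*(l:ℝ)/n| := by
    apply Real.abs_exp_sub_one_le
    rw [abs_of_nonneg (by positivity), div_le_one h0]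
    exact hl
  rw [abs_of_nonneg (by linarith)]
  rw [abs_of_nonneg (by positivity : 0 ≤ 2*(l:ℝ)/n)] at h5
  have h6 := le_abs_self (Real.exp (2*(l:ℝ)/n) - 1)
  calc _ ≤ 2 * (2*(l:ℝ)/n) := by linarith
    _ = _ := by ring

end A

open A in
theorem t_A : S_A := by
  rintro ⟨Cs, hs⟩ ⟨kd, Cd, hd⟩ ⟨CK, hK⟩
  have hcK := cKp
  obtain ⟨k1, hk1⟩ : ∃ k1 : ℕ, k1 = kd + 3 := ⟨_, rfl⟩
  obtain ⟨C1, hC1⟩ : ∃ C1 : ℝ, C1 = 4 + |Cs| + |Cd| + 3 / cK := ⟨_, rfl⟩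
  have hC10 : 0 < C1 := by rw [hC1]; positivity
  obtain ⟨n1, hn1⟩ := exists_nat_ge ((4*C1)^3)
  obtain ⟨n2, hn2⟩ := exists_nat_ge (2 * |CK| / cK)
  refine ⟨3*k1, 24 * C1, n1 + n2 + 1, fun n l hn hn0 hl => ?_⟩
  -- basic inequalities
  have hnn : (1:ℕ) ≤ n := by omega
  have hn1' : (1:ℝ) ≤ n := by exact_mod_cast hnn
  have hnpos : (0:ℝ) < n := by linarith
  have hC1n : (4*C1)^3 ≤ (n:ℝ) := hn1.trans (by exact_mod_cast (by omega : n1 ≤ n))
  have hCKn : 2 * |CK| / cK ≤ (n:ℝ) := hn2.trans (by exact_mod_cast (by omega : n2 ≤ n))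
  obtain ⟨t, ht⟩ : ∃ t : ℝ, t = (n:ℝ)^((1:ℝ)/3) := ⟨_, rfl⟩
  have ht0 : 0 < t := by rw [ht]; positivity
  have ht3 : t^3 = n := by
    rw [ht, ← Real.rpow_natCast, ← Real.rpow_mul hnpos.le]
    norm_num
  have ht2 : (n:ℝ)^((2:ℝ)/3) = t^2 := by
    rw [ht, ← Real.rpow_natCast, ← Real.rpow_mul hnpos.le]
    norm_num
  have htm : (n:ℝ)^(-(2:ℝ)/3) = 1/t^2 := by
    rw [neg_div, Real.rpow_neg hnpos.le, ht2, one_div]
  have ht1 : 1 ≤ t := by
    by_contra h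
    push Not at h
    have : t^3 < 1 := pow_lt_one₀ ht0.le h (by norm_num)
    linarith
  have hl0 : (0:ℝ) ≤ l := Nat.cast_nonneg l
  have hl1 : (1:ℝ) ≤ (l:ℝ)+1 := by linarith
  obtain ⟨u, hu⟩ : ∃ u : ℝ, u = ((l:ℝ)+1)^k1 := ⟨_, rfl⟩
  have hu1 : 1 ≤ u := by rw [hu]; exact one_le_pow₀ hl1
  have hlu : (l:ℝ)+1 ≤ u := by
    rw [hu]
    calc (l:ℝ)+1 = ((l:ℝ)+1)^1 := (pow_one _).symm
      _ ≤ _ := pow_le_pow_right₀ hl1 (by omega)
  have hut : u ≤ t := by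
    have h1 : ((l:ℝ)+1)^(3*k1) ≤ n := by exact_mod_cast hl
    have h2 : u^3 ≤ t^3 := by
      rw [ht3, hu, ← pow_mul, mul_comm k1 3]
      exact h1
    exact le_of_pow_le_pow_left₀ (by norm_num) ht0.le h2
  have hl2 : (l+1)^2 ≤ n := by
    refine le_trans (Nat.pow_le_pow_right (by omega) ?_) hl
    omega
  have h2l : 2*(l:ℝ) ≤ n := by
    have : 2*l ≤ n := by nlinarith
    exact_mod_cast this
  -- E
  obtain ⟨E, hE⟩ : ∃ E : ℝ, E = C1 * u / t^2 := ⟨_, rfl⟩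
  have hE0 : 0 ≤ E := by rw [hE]; positivity
  have h4C : 4 * C1 ≤ t := by
    have : (4*C1)^3 ≤ t^3 := by rw [ht3]; exact hC1n
    exact le_of_pow_le_pow_left₀ (by norm_num) ht0.le this
  have hE4 : E ≤ 1/4 := by
    rw [hE, div_le_div_iff₀ (by positivity) (by norm_num)]
    nlinarith
  have hnt : 1 / (n:ℝ) ≤ 1/t^2 := by
    rw [← ht3]
    apply one_div_le_one_div_of_le (by positivity)
    nlinarith [sq_nonneg t]
  have ht2p : (0:ℝ) < 1/t^2 := by positivity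
  -- kap
  obtain ⟨K, hKK⟩ : ∃ K : ℝ, K = ((kap n : ℚ) : ℝ) := ⟨_, rfl⟩
  have hK0 : 0 < K := by rw [hKK]; exact_mod_cast kp n
  have hKlow : cK * t^2 / 2 ≤ K := by
    have h1 := hK n hnn
    rw [← hKK, ht2] at h1
    have h2 := (abs_le.1 h1).1
    have h3 : CK * t^2 / n ≤ cK * t^2 / 2 := by
      rw [div_le_div_iff₀ hnpos (by norm_num)]
      have h4 : 2 * |CK| ≤ n * cK := by rwa [div_le_iff₀ hcK] at hCKn
      have h5 := le_abs_self CK
      have h6 : 0 < t^2 := by positivity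
      nlinarith
    linarith
  -- names
  obtain ⟨r1, hr1⟩ : ∃ r : ℝ, r = rf (1/3) l := ⟨_, rfl⟩
  obtain ⟨r2, hr2⟩ : ∃ r : ℝ, r = rf (2/3) l := ⟨_, rfl⟩
  obtain ⟨F, hF⟩ : ∃ r : ℝ, r = (Nat.factorial l : ℝ) := ⟨_, rfl⟩
  have hr10 : 0 < r1 := by rw [hr1]; exact rfp (by norm_num) l
  have hr20 : 0 < r2 := by rw [hr2]; exact rfp (by norm_num) l
  have hF0 : 0 < F := by rw [hF]; exact_mod_cast Nat.factorial_pos l
  have hr4 : rf (4/3) l = (3*(l:ℝ)+1) * r1 := by rw [hr1]; exact rf_shift l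
  have hr12 : r1 ≤ r2 := by rw [hr1, hr2]; exact rf_12 l
  have hr42 : (3*(l:ℝ)+1) * r1 ≤ ((l:ℝ)+1) * r2 := by rw [← hr4, hr2]; exact rf_42 l
  obtain ⟨s, hsd⟩ : ∃ s : ℝ, s = (((sv n).coeff l : ℚ) : ℝ) := ⟨_, rfl⟩
  obtain ⟨d, hdd⟩ : ∃ d : ℝ, d = (((dv (n+1)).coeff l : ℚ) : ℝ) := ⟨_, rfl⟩
  have hS := hs n l hn hl2
  have hD := hd (n+1) l hn.add_one (by omega) (by omega)
  rw [← hsd, ← hKK, hr4, ← hr2, ← hF] at hS
  rw [← hdd, ← hr1, ← hr2, ← hF] at hD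
  push_cast at hD
  obtain ⟨M, hM⟩ : ∃ M : ℝ, M = K * ((n:ℝ)/2)^(2*l) / ((3*(l:ℝ)+1) * r1 * F) := ⟨_, rfl⟩
  obtain ⟨D, hDD⟩ : ∃ D : ℝ, D = (((n:ℝ)+1)/2)^(2*l) / (r1 * F) := ⟨_, rfl⟩
  have h3l : (0:ℝ) < 3*(l:ℝ)+1 := by positivity
  have hM0 : 0 < M := by rw [hM]; positivity
  have hD0 : 0 < D := by rw [hDD]; positivity
  -- relative errors
  have es : |s / M - 1| ≤ E := by
    have e1 : s / M - 1 = (s - ((n:ℝ)/2)^(2*l) * (K / ((3*(l:ℝ)+1) * r1 * F) + 1 / (r2 * F))) / M +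
        (3*(l:ℝ)+1) * r1 / (r2 * K) := by
      rw [hM]
      have : ((n:ℝ)/2)^(2*l) ≠ 0 := by positivity
      field_simp
      ring
    have e2 : |(s - ((n:ℝ)/2)^(2*l) * (K / ((3*(l:ℝ)+1) * r1 * F) + 1 / (r2 * F))) / M| ≤
        |Cs| * u * (1/t^2) := by
      rw [abs_div, abs_of_pos hM0, div_le_iff₀ hM0]
      refine hS.trans ?_
      rw [← hM]
      apply mul_le_mul_of_nonneg_right _ hM0.le
      have g1 : ((l:ℝ)+1)^3 ≤ u := by rw [hu]; exact pow_le_pow_right₀ hl1 (by omega)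
      calc Cs * ((l:ℝ)+1)^3 / n = Cs * (((l:ℝ)+1)^3 * (1 / n)) := by ring
        _ ≤ |Cs| * (((l:ℝ)+1)^3 * (1 / n)) :=
          mul_le_mul_of_nonneg_right (le_abs_self _) (by positivity)
        _ ≤ |Cs| * (u * (1/t^2)) := by
          apply mul_le_mul_of_nonneg_left _ (abs_nonneg _)
          exact mul_le_mul g1 hnt (by positivity) (by positivity)
        _ = _ := by ring
    have e3 : |(3*(l:ℝ)+1) * r1 / (r2 * K)| ≤ 2 / cK * u * (1/t^2) := by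
      rw [abs_of_nonneg (by positivity), div_le_iff₀ (by positivity)]
      have g2 : 1 ≤ 2 / cK * (1/t^2) * K := by
        have : 2 / cK * (1/t^2) * (cK * t^2 / 2) = 1 := by field_simp
        calc (1:ℝ) = 2 / cK * (1/t^2) * (cK * t^2 / 2) := this.symm
          _ ≤ _ := mul_le_mul_of_nonneg_left hKlow (by positivity)
      calc (3*(l:ℝ)+1) * r1 ≤ ((l:ℝ)+1) * r2 := hr42
        _ ≤ u * r2 := mul_le_mul_of_nonneg_right hlu hr20.le
        _ = 1 * (u * r2) := (one_mul _).symm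
        _ ≤ (2 / cK * (1/t^2) * K) * (u * r2) := mul_le_mul_of_nonneg_right g2 (by positivity)
        _ = _ := by ring
    rw [e1]
    refine (abs_add_le _ _).trans ((add_le_add e2 e3).trans ?_)
    rw [hE, hC1]
    have g3 : 0 ≤ u * (1/t^2) := by positivity
    have g4 : 0 ≤ |Cd| := abs_nonneg _
    have g5 : 0 ≤ 1/cK := by positivity
    have g6 : |Cs| * u * (1/t^2) + 2 / cK * u * (1/t^2) = (|Cs| + 2/cK) * (u * (1/t^2)) := by ring
    have g7 : (4 + |Cs| + |Cd| + 3/cK) * u / t^2 = (4 + |Cs| + |Cd| + 3/cK) * (u * (1/t^2)) := by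
      ring
    rw [g6, g7]
    apply mul_le_mul_of_nonneg_right _ g3
    have g8 : 3 / cK = 2 / cK + 1 / cK := by ring
    linarith
  have ed : |d / D - 1| ≤ E := by
    have hn1r : (0:ℝ) < ((n:ℝ)+1)^((2:ℝ)/3) := by positivity
    have e1 : d / D - 1 = (d - (((n:ℝ)+1)/2)^(2*l) * (1 / (r1 * F) +
        3 * (l:ℝ) / (cK * ((n:ℝ)+1)^((2:ℝ)/3)) / (r2 * F))) / D +
        3 * (l:ℝ) * r1 / (cK * ((n:ℝ)+1)^((2:ℝ)/3) * r2) := by
      rw [hDD]
      have : (((n:ℝ)+1)/2)^(2*l) ≠ 0 := by positivity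
      have h8 := hn1r.ne'
      generalize ((n:ℝ)+1)^((2:ℝ)/3) = W at h8 ⊢
      field_simp
      ring
    have e2 : |(d - (((n:ℝ)+1)/2)^(2*l) * (1 / (r1 * F) +
        3 * (l:ℝ) / (cK * ((n:ℝ)+1)^((2:ℝ)/3)) / (r2 * F))) / D| ≤
        |Cd| * u * (1/t^2) := by
      rw [abs_div, abs_of_pos hD0, div_le_iff₀ hD0]
      refine hD.trans ?_
      rw [← hDD]
      apply mul_le_mul_of_nonneg_right _ hD0.le
      have g1 : ((l:ℝ)+1)^kd ≤ u := by rw [hu]; exact pow_le_pow_right₀ hl1 (by omega)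
      have g2 : 1 / ((n:ℝ)+1) ≤ 1/t^2 :=
        (one_div_le_one_div_of_le hnpos (by linarith)).trans hnt
      calc Cd * ((l:ℝ)+1)^kd / ((n:ℝ)+1) = Cd * (((l:ℝ)+1)^kd * (1 / ((n:ℝ)+1))) := by ring
        _ ≤ |Cd| * (((l:ℝ)+1)^kd * (1 / ((n:ℝ)+1))) :=
          mul_le_mul_of_nonneg_right (le_abs_self _) (by positivity)
        _ ≤ |Cd| * (u * (1/t^2)) := by
          apply mul_le_mul_of_nonneg_left _ (abs_nonneg _)
          exact mul_le_mul g1 g2 (by positivity) (by positivity)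
        _ = _ := by ring
    have e3 : |3 * (l:ℝ) * r1 / (cK * ((n:ℝ)+1)^((2:ℝ)/3) * r2)| ≤ 3 / cK * u * (1/t^2) := by
      rw [abs_of_nonneg (by positivity)]
      have g1 : t^2 ≤ ((n:ℝ)+1)^((2:ℝ)/3) := by
        rw [← ht2]
        exact Real.rpow_le_rpow hnpos.le (by linarith) (by norm_num)
      calc 3 * (l:ℝ) * r1 / (cK * ((n:ℝ)+1)^((2:ℝ)/3) * r2)
          ≤ 3 * u * r2 / (cK * t^2 * r2) := by
            apply div_le_div₀ (by positivity) _ (by positivity)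
            · apply mul_le_mul_of_nonneg_right _ hr20.le
              exact mul_le_mul_of_nonneg_left g1 hcK.le
            · exact mul_le_mul (by linarith) hr12 hr10.le (by positivity)
        _ = _ := by field_simp
    rw [e1]
    refine (abs_add_le _ _).trans ((add_le_add e2 e3).trans ?_)
    rw [hE, hC1]
    have g3 : 0 ≤ u * (1/t^2) := by positivity
    have g4 : 0 ≤ |Cs| := abs_nonneg _
    have g6 : |Cd| * u * (1/t^2) + 3 / cK * u * (1/t^2) = (|Cd| + 3/cK) * (u * (1/t^2)) := by ring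
    have g7 : (4 + |Cs| + |Cd| + 3/cK) * u / t^2 = (4 + |Cs| + |Cd| + 3/cK) * (u * (1/t^2)) := by
      ring
    rw [g6, g7]
    apply mul_le_mul_of_nonneg_right _ g3
    linarith
  have hC14 : 4 ≤ C1 := by
    rw [hC1]
    have g4 : 0 ≤ |Cs| := abs_nonneg _
    have g5 : 0 ≤ |Cd| := abs_nonneg _
    have g6 : 0 ≤ 3/cK := by positivity
    linarith
  have ea : |(n:ℝ)/2 * ((4/3*(n:ℝ)+2)/(((n:ℝ)+2/3)*((n:ℝ)+5/3))) * (3/2) - 1| ≤ E := by
    refine (fac_a hn1').trans (hnt.trans ?_)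
    rw [hE]
    apply div_le_div_of_nonneg_right _ (by positivity)
    have h1 : (1:ℝ) * 1 ≤ C1 * u := mul_le_mul (by linarith) hu1 (by norm_num) hC10.le
    linarith
  have eb : |(((n:ℝ)+1)/n)^(2*l) - 1| ≤ E := by
    refine (fac_b hn1' h2l).trans ?_
    calc 4 * (l:ℝ) / n = 4 * (l:ℝ) * (1/n) := by ring
      _ ≤ C1 * u * (1/t^2) := by
        apply mul_le_mul _ hnt (by positivity) (by positivity)
        exact mul_le_mul hC14 (by linarith) hl0 hC10.le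
      _ = E := by rw [hE]; ring
  have hs0 : 0 < s := by
    have := (abs_le.1 es).1
    have h1 : 0 < s / M := by linarith
    exact (div_pos_iff_of_pos_right hM0).1 h1
  refine ⟨by rw [← hsd]; exact hs0, ?_⟩
  -- the formula for xi
  have hxi : (n:ℝ)/2 * xi n l = 2/3*(3*(l:ℝ)+1) *
      ((1 + ((n:ℝ)/2 * ((4/3*(n:ℝ)+2)/(((n:ℝ)+2/3)*((n:ℝ)+5/3))) * (3/2) - 1)) *
      (1 + ((((n:ℝ)+1)/n)^(2*l) - 1)) * (1 + (d/D - 1)) / (1 + (s/M - 1))) := by
    have h1 : ((((sv (n+2)).coeff l : ℚ) : ℝ)) = s +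
        K * ((4/3*(n:ℝ)+2)/(((n:ℝ)+2/3)*((n:ℝ)+5/3))) * d := by
      have h2 := dv_eq n l
      rw [kap_diff] at h2
      have h3 : ((((sv (n+2)).coeff l : ℚ) : ℝ)) - s =
          K * ((4/3*(n:ℝ)+2)/(((n:ℝ)+2/3)*((n:ℝ)+5/3))) * d := by
        rw [hsd, hKK, hdd]
        have h8 := congrArg (fun q : ℚ => (q:ℝ)) h2
        simp only [Rat.cast_mul, Rat.cast_sub, Rat.cast_div, Rat.cast_add, Rat.cast_natCast,
          Rat.cast_ofNat] at h8
        exact h8.symm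
      linarith
    have h4 : xi n l = K * ((4/3*(n:ℝ)+2)/(((n:ℝ)+2/3)*((n:ℝ)+5/3))) * d / s := by
      unfold xi
      rw [h1, ← hsd]
      field_simp
      ring
    rw [h4, hM, hDD]
    have h5 : ((n:ℝ)/2)^(2*l) ≠ 0 := by positivity
    have h6 : (((n:ℝ)+1)/n)^(2*l) = (((n:ℝ)+1)/2)^(2*l) / ((n:ℝ)/2)^(2*l) := by
      rw [← div_pow]
      congr 1
      field_simp
    rw [h6]
    have h7 : (((n:ℝ)+1)/2)^(2*l) ≠ 0 := by positivity
    generalize (((n:ℝ)+1)/2)^(2*l) = Y at h7 ⊢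
    generalize ((n:ℝ)/2)^(2*l) = Z at h5 ⊢
    field_simp
    ring
  rw [hxi, htm]
  have hq := quot hE0 hE4 ea eb ed es
  have e9 : (2*(l:ℝ) + 2/3) = 2/3*(3*(l:ℝ)+1) * 1 := by ring
  rw [e9, ← mul_sub, abs_mul, abs_of_pos (by positivity : (0:ℝ) < 2/3*(3*(l:ℝ)+1))]
  calc 2/3*(3*(l:ℝ)+1) * _ ≤ 2/3*(3*(l:ℝ)+1) * (12 * E) :=
        mul_le_mul_of_nonneg_left hq (by positivity)
    _ ≤ 2 * u * (12 * E) := by
        apply mul_le_mul_of_nonneg_right _ (by positivity)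
        linarith
    _ = 24 * C1 * (u * u) * (1/t^2) := by rw [hE]; ring
    _ ≤ 24 * C1 * ((l:ℝ)+1)^(3*k1) * (1/t^2) := by
        apply mul_le_mul_of_nonneg_right _ ht2p.le
        apply mul_le_mul_of_nonneg_left _ (by positivity)
        rw [hu, ← pow_add]
        exact pow_le_pow_right₀ hl1 (by omega)

end Pool.Agent.H966.N5
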