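import Pool.Agent.H966.N5.Stm

/-!
# Tasks C1 and C2 (helper213): limits and bounds of the brackets
-/

set_option autoImplicit false

namespace Pool.Agent.H966.N5

open Filter Topology Finset

namespace C

lemma B1_eq (n ξ g : ℝ) : n / 2 * B1 ξ g = n / 2 * ξ - n / 2 * g - n / 2 * ξ * g := by
  unfold B1
  ring

lemma B2_eq (n ξ η g g' : ℝ) : n ^ 2 / 4 * B2 ξ η g g' =
    (1 - g) * (1 - g') * ((n / 2 * ξ) * (n / 2 * η)) -
      (1 - g) * (n / 2 * g') * (n / 2 * ξ + n / 2 * η) +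
      (n ^ 2 / 4 * (g - g') + (n / 2 * g) * (n / 2 * g')) := by
  unfold B2
  ring

lemma g_diff (N j : ℕ) : gN N j - gN (N + 2) j =
    (6 * (j : ℝ) + 4) * (12 * (N : ℝ) ^ 2 + 60 * N + 98 + 28 * j) /
      ((3 * (N : ℝ) + 1) * (3 * N + 7) * (((N : ℝ) + 4 + 2 * j) * (N + 6 + 2 * j))) := by
  have h1 : (3 * (N : ℝ) + 1) ≠ 0 := by positivity
  have h2 : ((N : ℝ) + 4 + 2 * j) ≠ 0 := by positivity
  have h3 : (3 * (N : ℝ) + 7) ≠ 0 := by positivity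
  have h4 : ((N : ℝ) + 6 + 2 * j) ≠ 0 := by positivity
  have e1 : gN (N + 2) j = (2 * (N : ℝ) + 7) * (6 * j + 4) / ((3 * N + 7) * (N + 6 + 2 * j)) := by
    unfold gN
    push_cast
    congr 1 <;> ring
  rw [e1]
  unfold gN
  field_simp
  ring

/-! ### limits -/

section lim

variable {N : ℕ → ℕ} (hN : Tendsto N atTop atTop)

include hN

lemma t_lim : Tendsto (fun i => ((N i : ℝ))⁻¹) atTop (𝓝 0) :=
  tendsto_inv_atTop_zero.comp (tendsto_natCast_atTop_atTop.comp hN)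

lemma N_pos : ∀ᶠ i in atTop, (0 : ℝ) < N i := by
  filter_upwards [hN.eventually_ge_atTop 1] with i hi
  exact_mod_cast hi

lemma u_lim (j : ℕ) : Tendsto (fun i => (N i : ℝ) / 2 * gN (N i) j) atTop
    (𝓝 (2 * (j : ℝ) + 4 / 3)) := by
  have hc : ContinuousAt (fun t : ℝ => (2 + 3 * t) * (6 * (j : ℝ) + 4) /
      ((3 + t) * (1 + (4 + 2 * (j : ℝ)) * t)) / 2) 0 := by
    apply ContinuousAt.div_const
    exact ContinuousAt.div (by fun_prop) (by fun_prop) (by norm_num)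
  have h := hc.tendsto.comp (t_lim hN)
  have e0 : (2 + 3 * (0 : ℝ)) * (6 * (j : ℝ) + 4) /
      ((3 + 0) * (1 + (4 + 2 * (j : ℝ)) * 0)) / 2 = 2 * (j : ℝ) + 4 / 3 := by
    norm_num
    ring
  rw [e0] at h
  refine h.congr' ?_
  filter_upwards [N_pos hN] with i hi
  have h1 : (3 * (N i : ℝ) + 1) ≠ 0 := by positivity
  have h2 : ((N i : ℝ) + 4 + 2 * j) ≠ 0 := by positivity
  have e1 : 3 + ((N i : ℝ))⁻¹ = (3 * N i + 1) / N i := by field_simp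
  have e2 : 1 + (4 + 2 * (j : ℝ)) * ((N i : ℝ))⁻¹ = (N i + 4 + 2 * j) / N i := by
    field_simp
    ring
  have e3 : 2 + 3 * ((N i : ℝ))⁻¹ = (2 * N i + 3) / N i := by field_simp
  simp only [Function.comp_apply]
  rw [e1, e2, e3]
  unfold gN
  field_simp

lemma u'_lim (j : ℕ) : Tendsto (fun i => (N i : ℝ) / 2 * gN (N i + 2) j) atTop
    (𝓝 (2 * (j : ℝ) + 4 / 3)) := by
  have hc : ContinuousAt (fun t : ℝ => (2 + 7 * t) * (6 * (j : ℝ) + 4) /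
      ((3 + 7 * t) * (1 + (6 + 2 * (j : ℝ)) * t)) / 2) 0 := by
    apply ContinuousAt.div_const
    exact ContinuousAt.div (by fun_prop) (by fun_prop) (by norm_num)
  have h := hc.tendsto.comp (t_lim hN)
  have e0 : (2 + 7 * (0 : ℝ)) * (6 * (j : ℝ) + 4) /
      ((3 + 7 * 0) * (1 + (6 + 2 * (j : ℝ)) * 0)) / 2 = 2 * (j : ℝ) + 4 / 3 := by
    norm_num
    ring
  rw [e0] at h
  refine h.congr' ?_
  filter_upwards [N_pos hN] with i hi
  have h1 : (3 * (N i : ℝ) + 7) ≠ 0 := by positivity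
  have h2 : ((N i : ℝ) + 6 + 2 * j) ≠ 0 := by positivity
  have e1 : 3 + 7 * ((N i : ℝ))⁻¹ = (3 * N i + 7) / N i := by field_simp
  have e2 : 1 + (6 + 2 * (j : ℝ)) * ((N i : ℝ))⁻¹ = (N i + 6 + 2 * j) / N i := by
    field_simp
    ring
  have e3 : 2 + 7 * ((N i : ℝ))⁻¹ = (2 * N i + 7) / N i := by field_simp
  have e4 : gN (N i + 2) j =
      (2 * (N i : ℝ) + 7) * (6 * j + 4) / ((3 * N i + 7) * (N i + 6 + 2 * j)) := by
    unfold gN
    push_cast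
    congr 1 <;> ring
  simp only [Function.comp_apply]
  rw [e1, e2, e3, e4]
  field_simp

lemma d_lim (j : ℕ) : Tendsto (fun i => (N i : ℝ) ^ 2 / 4 * (gN (N i) j - gN (N i + 2) j)) atTop
    (𝓝 (2 * (j : ℝ) + 4 / 3)) := by
  have hc : ContinuousAt (fun t : ℝ => (6 * (j : ℝ) + 4) * (12 + 60 * t + (98 + 28 * j) * t ^ 2) /
      ((3 + t) * (3 + 7 * t) * ((1 + (4 + 2 * (j : ℝ)) * t) * (1 + (6 + 2 * (j : ℝ)) * t))) / 4)
      0 := by
    apply ContinuousAt.div_const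
    exact ContinuousAt.div (by fun_prop) (by fun_prop) (by norm_num)
  have h := hc.tendsto.comp (t_lim hN)
  have e0 : (6 * (j : ℝ) + 4) * (12 + 60 * 0 + (98 + 28 * j) * 0 ^ 2) /
      ((3 + 0) * (3 + 7 * 0) * ((1 + (4 + 2 * (j : ℝ)) * 0) * (1 + (6 + 2 * (j : ℝ)) * 0))) / 4 =
      2 * (j : ℝ) + 4 / 3 := by
    norm_num
    ring
  rw [e0] at h
  refine h.congr' ?_
  filter_upwards [N_pos hN] with i hi
  have h1 : (3 * (N i : ℝ) + 1) ≠ 0 := by positivity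
  have h2 : ((N i : ℝ) + 4 + 2 * j) ≠ 0 := by positivity
  have h3 : (3 * (N i : ℝ) + 7) ≠ 0 := by positivity
  have h4 : ((N i : ℝ) + 6 + 2 * j) ≠ 0 := by positivity
  have e1 : 3 + ((N i : ℝ))⁻¹ = (3 * N i + 1) / N i := by field_simp
  have e2 : 1 + (4 + 2 * (j : ℝ)) * ((N i : ℝ))⁻¹ = (N i + 4 + 2 * j) / N i := by
    field_simp
    ring
  have e3 : 3 + 7 * ((N i : ℝ))⁻¹ = (3 * N i + 7) / N i := by field_simp
  have e4 : 1 + (6 + 2 * (j : ℝ)) * ((N i : ℝ))⁻¹ = (N i + 6 + 2 * j) / N i := by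
    field_simp
    ring
  have e5 : 12 + 60 * ((N i : ℝ))⁻¹ + (98 + 28 * j) * ((N i : ℝ))⁻¹ ^ 2 =
      (12 * (N i : ℝ) ^ 2 + 60 * N i + 98 + 28 * j) / (N i : ℝ) ^ 2 := by
    field_simp
    ring
  simp only [Function.comp_apply]
  rw [e1, e2, e3, e4, e5, g_diff]
  field_simp

lemma g_lim (j : ℕ) : Tendsto (fun i => gN (N i) j) atTop (𝓝 0) := by
  have h := (u_lim hN j).mul ((t_lim hN).const_mul 2)
  rw [mul_zero, mul_zero] at h
  refine h.congr' ?_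
  filter_upwards [N_pos hN] with i hi
  field_simp

lemma g'_lim (j : ℕ) : Tendsto (fun i => gN (N i + 2) j) atTop (𝓝 0) := by
  have h := (u'_lim hN j).mul ((t_lim hN).const_mul 2)
  rw [mul_zero, mul_zero] at h
  refine h.congr' ?_
  filter_upwards [N_pos hN] with i hi
  field_simp

lemma a_lim {a : ℕ → ℕ} {ρ : ℝ} (hρ : 0 < ρ) (la : Tendsto (fun i => (a i : ℝ) / N i) atTop (𝓝 ρ)) :
    Tendsto (fun i => (a i : ℝ)) atTop atTop := by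
  have hN' : Tendsto (fun i => (N i : ℝ)) atTop atTop := tendsto_natCast_atTop_atTop.comp hN
  have h := la.pos_mul_atTop hρ hN'
  refine h.congr' ?_
  filter_upwards [N_pos hN] with i hi
  exact div_mul_cancel₀ _ hi.ne'

lemma x_lim (hxi : S_xi) {a : ℕ → ℕ} {ρ : ℝ} (hρ : 0 < ρ) (ho : ∀ i, Odd (a i))
    (la : Tendsto (fun i => (a i : ℝ) / N i) atTop (𝓝 ρ)) (l : ℕ) :
    Tendsto (fun i => (N i : ℝ) / 2 * xi (a i) l) atTop (𝓝 ((2 * (l : ℝ) + 2 / 3) / ρ)) := by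
  obtain ⟨k, C, n0, h⟩ := hxi
  have haR := a_lim hN hρ la
  have haN : Tendsto a atTop atTop := tendsto_natCast_atTop_iff.1 haR
  have h1 : Tendsto (fun i => (a i : ℝ) / 2 * xi (a i) l) atTop (𝓝 (2 * (l : ℝ) + 2 / 3)) := by
    rw [tendsto_iff_norm_sub_tendsto_zero]
    have h2 : Tendsto (fun i => C * ((l : ℝ) + 1) ^ k * ((a i : ℝ)) ^ (-(2 : ℝ) / 3)) atTop
        (𝓝 (C * ((l : ℝ) + 1) ^ k * 0)) := by
      apply Tendsto.const_mul
      have h3 := (tendsto_rpow_neg_atTop (by norm_num : (0 : ℝ) < 2 / 3)).comp haR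
      refine h3.congr fun i => ?_
      simp only [Function.comp_apply]
      congr 1
      ring
    rw [mul_zero] at h2
    refine squeeze_zero' (Eventually.of_forall fun i => norm_nonneg _) ?_ h2
    filter_upwards [haN.eventually_ge_atTop n0, haN.eventually_ge_atTop ((l + 1) ^ k)] with i h3 h4
    exact (h (a i) l (ho i) h3 h4).2
  have h5 : Tendsto (fun i => ((a i : ℝ) / N i)⁻¹) atTop (𝓝 ρ⁻¹) := la.inv₀ hρ.ne'
  have h6 := h1.mul h5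
  rw [← div_eq_mul_inv] at h6
  refine h6.congr' ?_
  filter_upwards [haR.eventually_gt_atTop 0, N_pos hN] with i hi hi'
  field_simp

end lim

/-! ### bounds -/

lemma g_nonneg (N j : ℕ) : 0 ≤ gN N j := by
  unfold gN
  positivity

lemma g_le (N j : ℕ) : gN N j ≤ 9 := by
  unfold gN
  rw [div_le_iff₀ (by positivity)]
  have h1 : (0 : ℝ) ≤ N := Nat.cast_nonneg N
  have h2 : (0 : ℝ) ≤ j := Nat.cast_nonneg j
  have h3 : (0 : ℝ) ≤ (N : ℝ) * j := mul_nonneg h1 h2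
  have h4 : (0 : ℝ) ≤ (N : ℝ) * N := mul_nonneg h1 h1
  nlinarith

lemma u_le (N j : ℕ) : (N : ℝ) / 2 * gN N j ≤ 9 * ((j : ℝ) + 1) := by
  unfold gN
  have h1 : (0 : ℝ) ≤ N := Nat.cast_nonneg N
  have h2 : (0 : ℝ) ≤ j := Nat.cast_nonneg j
  rw [← mul_div_assoc, div_le_iff₀ (by positivity)]
  have h3 : (0 : ℝ) ≤ (N : ℝ) * j := mul_nonneg h1 h2
  have h4 : (0 : ℝ) ≤ (N : ℝ) * N := mul_nonneg h1 h1
  have h5 : (0 : ℝ) ≤ (N : ℝ) * N * j := mul_nonneg h4 h2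
  have h6 : (0 : ℝ) ≤ (N : ℝ) * j * j := mul_nonneg h3 h2
  have h7 : (0 : ℝ) ≤ (j : ℝ) * j := mul_nonneg h2 h2
  nlinarith

lemma u'_le (N j : ℕ) : (N : ℝ) / 2 * gN (N + 2) j ≤ 9 * ((j : ℝ) + 1) := by
  unfold gN
  have h1 : (0 : ℝ) ≤ N := Nat.cast_nonneg N
  have h2 : (0 : ℝ) ≤ j := Nat.cast_nonneg j
  rw [← mul_div_assoc, div_le_iff₀ (by positivity)]
  push_cast
  have h3 : (0 : ℝ) ≤ (N : ℝ) * j := mul_nonneg h1 h2
  have h4 : (0 : ℝ) ≤ (N : ℝ) * N := mul_nonneg h1 h1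
  have h5 : (0 : ℝ) ≤ (N : ℝ) * N * j := mul_nonneg h4 h2
  have h6 : (0 : ℝ) ≤ (N : ℝ) * j * j := mul_nonneg h3 h2
  have h7 : (0 : ℝ) ≤ (j : ℝ) * j := mul_nonneg h2 h2
  nlinarith

lemma d_nonneg (N j : ℕ) : 0 ≤ (N : ℝ) ^ 2 / 4 * (gN N j - gN (N + 2) j) := by
  rw [g_diff]
  positivity

lemma d_le (N j : ℕ) : (N : ℝ) ^ 2 / 4 * (gN N j - gN (N + 2) j) ≤ 21 * ((j : ℝ) + 1) ^ 2 := by
  rw [g_diff, ← mul_div_assoc, div_le_iff₀ (by positivity)]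
  have h1 : (0 : ℝ) ≤ N := Nat.cast_nonneg N
  have h2 : (0 : ℝ) ≤ j := Nat.cast_nonneg j
  have a1 : 6 * (j : ℝ) + 4 ≤ 6 * ((j : ℝ) + 1) := by linarith
  have a2 : 12 * (N : ℝ) ^ 2 + 60 * N + 98 + 28 * j ≤
      14 * ((j : ℝ) + 1) * ((3 * (N : ℝ) + 1) * (3 * N + 7)) := by
    have h3 : (0 : ℝ) ≤ (N : ℝ) * j := mul_nonneg h1 h2
    have h4 : (0 : ℝ) ≤ (N : ℝ) ^ 2 * j := mul_nonneg (sq_nonneg _) h2
    nlinarith [sq_nonneg (N : ℝ)]
  have a3 : (N : ℝ) ^ 2 ≤ ((N : ℝ) + 4 + 2 * j) * (N + 6 + 2 * j) := by nlinarith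
  have a4 : (6 * (j : ℝ) + 4) * (12 * (N : ℝ) ^ 2 + 60 * N + 98 + 28 * j) ≤
      6 * ((j : ℝ) + 1) * (14 * ((j : ℝ) + 1) * ((3 * (N : ℝ) + 1) * (3 * N + 7))) :=
    mul_le_mul a1 a2 (by positivity) (by positivity)
  have a5 := mul_le_mul a3 a4 (by positivity) (by positivity)
  nlinarith [a5]

/-- the bound for the relative difference -/
lemma x_bound {N a l : ℕ} {k n0 : ℕ} {C D ρ M : ℝ} (hρ : 0 < ρ) (hM : 1 ≤ M) (hl : (l : ℝ) + 1 ≤ M)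
    (hC : |C| + 2 ≤ D) (ha1 : 1 ≤ a) (hNa : ρ / 2 * N ≤ a)
    (h : |(a : ℝ) / 2 * xi a l - (2 * (l : ℝ) + 2 / 3)| ≤
      C * ((l : ℝ) + 1) ^ k * (a : ℝ) ^ (-(2 : ℝ) / 3)) (_ : n0 ≤ a) :
    |(N : ℝ) / 2 * xi a l| ≤ 2 / ρ * D * M ^ (k + 1) := by
  have haR : (1 : ℝ) ≤ a := by exact_mod_cast ha1
  have ha0 : (0 : ℝ) < a := by linarith
  have hl0 : (0 : ℝ) ≤ l := Nat.cast_nonneg l
  have h1 : (a : ℝ) ^ (-(2 : ℝ) / 3) ≤ 1 :=
    Real.rpow_le_one_of_one_le_of_nonpos haR (by norm_num)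
  have h1' : 0 ≤ (a : ℝ) ^ (-(2 : ℝ) / 3) := Real.rpow_nonneg ha0.le _
  have h2 : ((l : ℝ) + 1) ^ k ≤ M ^ (k + 1) :=
    (pow_le_pow_left₀ (by positivity) hl k).trans (pow_le_pow_right₀ hM (Nat.le_succ k))
  have h3 : C * ((l : ℝ) + 1) ^ k * (a : ℝ) ^ (-(2 : ℝ) / 3) ≤ |C| * M ^ (k + 1) := by
    calc C * ((l : ℝ) + 1) ^ k * (a : ℝ) ^ (-(2 : ℝ) / 3)
        ≤ |C| * ((l : ℝ) + 1) ^ k * (a : ℝ) ^ (-(2 : ℝ) / 3) :=
          mul_le_mul_of_nonneg_right (mul_le_mul_of_nonneg_right (le_abs_self C) (by positivity))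
            h1'
      _ ≤ |C| * ((l : ℝ) + 1) ^ k * 1 := mul_le_mul_of_nonneg_left h1 (by positivity)
      _ ≤ |C| * M ^ (k + 1) := by
          rw [mul_one]
          exact mul_le_mul_of_nonneg_left h2 (abs_nonneg C)
  have hMk : M ≤ M ^ (k + 1) := le_self_pow₀ hM (Nat.succ_ne_zero k)
  have h4 : |(a : ℝ) / 2 * xi a l| ≤ D * M ^ (k + 1) := by
    have h5 := h.trans h3
    rw [abs_le] at h5 ⊢
    have h6 : (|C| + 2) * M ^ (k + 1) ≤ D * M ^ (k + 1) :=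
      mul_le_mul_of_nonneg_right hC (by positivity)
    have h7 : (|C| + 2) * M ^ (k + 1) = |C| * M ^ (k + 1) + 2 * M ^ (k + 1) := by ring
    constructor <;> linarith [h5.1, h5.2]
  have h8 : (N : ℝ) ≤ 2 / ρ * a := by
    rw [div_mul_eq_mul_div, le_div_iff₀ hρ]
    linarith
  have h9 : |(N : ℝ) / 2 * xi a l| = (N : ℝ) / 2 * |xi a l| := by
    rw [abs_mul, abs_of_nonneg (by positivity : (0 : ℝ) ≤ (N : ℝ) / 2)]
  have h10 : |(a : ℝ) / 2 * xi a l| = (a : ℝ) / 2 * |xi a l| := by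
    rw [abs_mul, abs_of_nonneg (by positivity : (0 : ℝ) ≤ (a : ℝ) / 2)]
  rw [h9]
  rw [h10] at h4
  calc (N : ℝ) / 2 * |xi a l| ≤ (2 / ρ * a) / 2 * |xi a l| := by
        apply mul_le_mul_of_nonneg_right _ (abs_nonneg _)
        linarith
    _ = 2 / ρ * ((a : ℝ) / 2 * |xi a l|) := by ring
    _ ≤ 2 / ρ * (D * M ^ (k + 1)) := mul_le_mul_of_nonneg_left h4 (by positivity)
    _ = 2 / ρ * D * M ^ (k + 1) := by ring

lemma abs_one_sub {g : ℝ} (h0 : 0 ≤ g) (h1 : g ≤ 9) : |1 - g| ≤ 9 := by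
  rw [abs_le]
  constructor <;> linarith

lemma bound1 {x u g E M : ℝ} {K : ℕ} (hM : 1 ≤ M) (hE : 0 ≤ E) (hx : |x| ≤ E * M ^ (K + 1))
    (hu0 : 0 ≤ u) (hu : u ≤ 9 * M) (hg0 : 0 ≤ g) (hg : g ≤ 9) :
    |x - u - x * g| ≤ (10 * E + 9) * M ^ (2 * K + 4) := by
  have p1 : M ^ (K + 1) ≤ M ^ (2 * K + 4) := pow_le_pow_right₀ hM (by omega)
  have p2 : M ≤ M ^ (2 * K + 4) := le_self_pow₀ hM (by omega)
  have h1 : |x * g| ≤ 9 * (E * M ^ (K + 1)) := by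
    rw [abs_mul, abs_of_nonneg hg0]
    calc |x| * g ≤ (E * M ^ (K + 1)) * 9 := mul_le_mul hx hg hg0 (by positivity)
      _ = _ := by ring
  have h2 : E * M ^ (K + 1) ≤ E * M ^ (2 * K + 4) := mul_le_mul_of_nonneg_left p1 hE
  rw [abs_le] at hx h1 ⊢
  constructor <;> nlinarith [hx.1, hx.2, h1.1, h1.2]

lemma bound2 {x y u u' g g' d E M : ℝ} {K : ℕ} (hM : 1 ≤ M) (hE : 0 ≤ E)
    (hx : |x| ≤ E * M ^ (K + 1)) (hy : |y| ≤ E * M ^ (K + 1))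
    (hu0 : 0 ≤ u) (hu : u ≤ 9 * M) (hu0' : 0 ≤ u') (hu' : u' ≤ 9 * M)
    (hg0 : 0 ≤ g) (hg : g ≤ 9) (hg0' : 0 ≤ g') (hg' : g' ≤ 9)
    (hd0 : 0 ≤ d) (hd : d ≤ 21 * M ^ 2) :
    |(1 - g) * (1 - g') * (x * y) - (1 - g) * u' * (x + y) + (d + u * u')| ≤
      (81 * E ^ 2 + 162 * E + 102) * M ^ (2 * K + 4) := by
  have hM0 : 0 ≤ M := by linarith
  have p1 : M ^ (2 * K + 2) ≤ M ^ (2 * K + 4) := pow_le_pow_right₀ hM (by omega)
  have p2 : M ^ (K + 2) ≤ M ^ (2 * K + 4) := pow_le_pow_right₀ hM (by omega)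
  have p3 : M ^ 2 ≤ M ^ (2 * K + 4) := pow_le_pow_right₀ hM (by omega)
  have q1 : |(1 - g) * (1 - g') * (x * y)| ≤ 81 * E ^ 2 * M ^ (2 * K + 2) := by
    rw [abs_mul, abs_mul, abs_mul]
    calc |1 - g| * |1 - g'| * (|x| * |y|) ≤ (9 * 9) * ((E * M ^ (K + 1)) * (E * M ^ (K + 1))) :=
          mul_le_mul (mul_le_mul (abs_one_sub hg0 hg) (abs_one_sub hg0' hg') (abs_nonneg _)
            (by norm_num)) (mul_le_mul hx hy (abs_nonneg _) (by positivity)) (by positivity)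
            (by norm_num)
      _ = 81 * E ^ 2 * M ^ (2 * K + 2) := by ring
  have q2 : |(1 - g) * u' * (x + y)| ≤ 162 * E * M ^ (K + 2) := by
    rw [abs_mul, abs_mul, abs_of_nonneg hu0']
    have h1 : |x + y| ≤ 2 * (E * M ^ (K + 1)) := (abs_add_le x y).trans (by linarith)
    calc |1 - g| * u' * |x + y| ≤ (9 * (9 * M)) * (2 * (E * M ^ (K + 1))) :=
          mul_le_mul (mul_le_mul (abs_one_sub hg0 hg) hu' hu0' (by norm_num)) h1 (abs_nonneg _)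
            (by positivity)
      _ = 162 * E * M ^ (K + 2) := by ring
  have q3 : |d + u * u'| ≤ 102 * M ^ 2 := by
    rw [abs_of_nonneg (by positivity)]
    have h1 : u * u' ≤ (9 * M) * (9 * M) := mul_le_mul hu hu' hu0' (by positivity)
    nlinarith
  have r1 : 81 * E ^ 2 * M ^ (2 * K + 2) ≤ 81 * E ^ 2 * M ^ (2 * K + 4) :=
    mul_le_mul_of_nonneg_left p1 (by positivity)
  have r2 : 162 * E * M ^ (K + 2) ≤ 162 * E * M ^ (2 * K + 4) :=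
    mul_le_mul_of_nonneg_left p2 (by positivity)
  have r3 : 102 * M ^ 2 ≤ 102 * M ^ (2 * K + 4) := mul_le_mul_of_nonneg_left p3 (by norm_num)
  have s1 := (q1.trans r1)
  have s2 := (q2.trans r2)
  have s3 := (q3.trans r3)
  have e : (81 * E ^ 2 + 162 * E + 102) * M ^ (2 * K + 4) = 81 * E ^ 2 * M ^ (2 * K + 4) +
      162 * E * M ^ (2 * K + 4) + 102 * M ^ (2 * K + 4) := by ring
  rw [e]
  rw [abs_le] at s1 s2 s3 ⊢
  constructor <;> linarith [s1.1, s1.2, s2.1, s2.2, s3.1, s3.2]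

end C

open C in
theorem t_C1 : S_C1 := by
  intro hxi a b N ρ σ h l l'
  have hx := x_lim h.hNt hxi h.hρ h.ha h.la l
  have hy := x_lim h.hNt hxi h.hσ h.hb h.lb l'
  have hu := u_lim h.hNt (l + l')
  have hu' := u'_lim h.hNt (l + l')
  have hd := d_lim h.hNt (l + l')
  have hg := g_lim h.hNt (l + l')
  have hg' := g'_lim h.hNt (l + l')
  have hρ := h.hρ.ne'
  have hσ := h.hσ.ne'
  constructor
  · have h1 := (hx.sub hu).sub (hx.mul hg)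
    rw [mul_zero, sub_zero] at h1
    refine h1.congr fun i => ?_
    rw [B1_eq]
  · have h1 := (((hg.const_sub 1).mul (hg'.const_sub 1)).mul (hx.mul hy)).sub
      (((hg.const_sub 1).mul hu').mul (hx.add hy))
    have h2 := h1.add (hd.add (hu.mul hu'))
    have e : (1 - (0 : ℝ)) * (1 - 0) * ((2 * (l : ℝ) + 2 / 3) / ρ * ((2 * (l' : ℝ) + 2 / 3) / σ)) -
        (1 - 0) * (2 * ((l + l' : ℕ) : ℝ) + 4 / 3) *
          ((2 * (l : ℝ) + 2 / 3) / ρ + (2 * (l' : ℝ) + 2 / 3) / σ) +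
        ((2 * ((l + l' : ℕ) : ℝ) + 4 / 3) +
          (2 * ((l + l' : ℕ) : ℝ) + 4 / 3) * (2 * ((l + l' : ℕ) : ℝ) + 4 / 3)) =
        br2 (2 * (l : ℝ) + 2 / 3) (2 * (l' : ℝ) + 2 / 3) ρ σ := by
      unfold br2
      push_cast
      field_simp
      ring
    rw [e] at h2
    refine h2.congr fun i => ?_
    rw [B2_eq]

open C in
theorem t_C2 : S_C2 := by
  intro hxi a b N ρ σ h
  obtain ⟨k, C, n0, hC⟩ := hxi
  have haR := a_lim h.hNt h.hρ h.la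
  have hbR := a_lim h.hNt h.hσ h.lb
  have haN : Tendsto a atTop atTop := tendsto_natCast_atTop_iff.1 haR
  have hbN : Tendsto b atTop atTop := tendsto_natCast_atTop_iff.1 hbR
  have hρ := h.hρ
  have hσ := h.hσ
  obtain ⟨D, hD⟩ : ∃ D : ℝ, D = |C| + 2 := ⟨_, rfl⟩
  have hD0 : 0 < D := by
    rw [hD]
    positivity
  obtain ⟨E, hE⟩ : ∃ E : ℝ, E = 2 / ρ * D + 2 / σ * D := ⟨_, rfl⟩
  have hE0 : 0 < E := by
    rw [hE]
    positivity
  refine ⟨2 * k + 4, (10 * E + 9) + (81 * E ^ 2 + 162 * E + 102), by positivity, ?_⟩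
  filter_upwards [haN.eventually_ge_atTop n0, hbN.eventually_ge_atTop n0,
    haN.eventually_ge_atTop 1, hbN.eventually_ge_atTop 1, N_pos h.hNt,
    h.la.eventually_const_lt (by linarith : ρ / 2 < ρ),
    h.lb.eventually_const_lt (by linarith : σ / 2 < σ)] with i h1 h2 h3 h4 h5 h6 h7 l l' h8 h9
  have hNa : ρ / 2 * N i ≤ a i := ((lt_div_iff₀ h5).1 h6).le
  have hNb : σ / 2 * N i ≤ b i := ((lt_div_iff₀ h5).1 h7).le
  have hM : (1 : ℝ) ≤ (l : ℝ) + l' + 1 := by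
    have : (0 : ℝ) ≤ (l : ℝ) + l' := by positivity
    linarith
  have c1 : (l + 1) ^ k ≤ a i := by
    refine le_trans ?_ h8
    calc (l + 1) ^ k ≤ (l + l' + 1) ^ k := Nat.pow_le_pow_left (by omega) k
      _ ≤ (l + l' + 1) ^ (2 * k + 4) := Nat.pow_le_pow_right (by omega) (by omega)
  have c2 : (l' + 1) ^ k ≤ b i := by
    refine le_trans ?_ h9
    calc (l' + 1) ^ k ≤ (l + l' + 1) ^ k := Nat.pow_le_pow_left (by omega) k
      _ ≤ (l + l' + 1) ^ (2 * k + 4) := Nat.pow_le_pow_right (by omega) (by omega)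
  obtain ⟨d1, d2⟩ := hC (a i) l (h.ha i) h1 c1
  obtain ⟨d3, d4⟩ := hC (b i) l' (h.hb i) h2 c2
  have hl : (l : ℝ) + 1 ≤ (l : ℝ) + l' + 1 := by
    have : (0 : ℝ) ≤ (l' : ℝ) := Nat.cast_nonneg _
    linarith
  have hl' : (l' : ℝ) + 1 ≤ (l : ℝ) + l' + 1 := by
    have : (0 : ℝ) ≤ (l : ℝ) := Nat.cast_nonneg _
    linarith
  have f1 := x_bound (N := N i) hρ hM hl hD.ge h3 hNa d2 h1
  have f2 := x_bound (N := N i) hσ hM hl' hD.ge h4 hNb d4 h2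
  have hMp : (0 : ℝ) ≤ ((l : ℝ) + l' + 1) ^ (k + 1) := by positivity
  have g1 : |(N i : ℝ) / 2 * xi (a i) l| ≤ E * ((l : ℝ) + l' + 1) ^ (k + 1) := by
    refine f1.trans (mul_le_mul_of_nonneg_right ?_ hMp)
    rw [hE]
    have : 0 ≤ 2 / σ * D := by positivity
    linarith
  have g2 : |(N i : ℝ) / 2 * xi (b i) l'| ≤ E * ((l : ℝ) + l' + 1) ^ (k + 1) := by
    refine f2.trans (mul_le_mul_of_nonneg_right ?_ hMp)
    rw [hE]
    have : 0 ≤ 2 / ρ * D := by positivity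
    linarith
  have hj : ((l + l' : ℕ) : ℝ) + 1 = (l : ℝ) + l' + 1 := by push_cast; ring
  have u1 := u_le (N i) (l + l')
  have u2 := u'_le (N i) (l + l')
  have u3 := d_le (N i) (l + l')
  rw [hj] at u1 u2 u3
  have w1 : 0 ≤ (N i : ℝ) / 2 * gN (N i) (l + l') := mul_nonneg (by positivity) (g_nonneg _ _)
  have w2 : 0 ≤ (N i : ℝ) / 2 * gN (N i + 2) (l + l') := mul_nonneg (by positivity) (g_nonneg _ _)
  have hMq : (0 : ℝ) ≤ ((l : ℝ) + l' + 1) ^ (2 * k + 4) := by positivity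
  refine ⟨d1, d3, ?_, ?_⟩
  · rw [B1_eq]
    refine (bound1 hM hE0.le g1 w1 u1 (g_nonneg _ _) (g_le _ _)).trans
      (mul_le_mul_of_nonneg_right ?_ hMq)
    have : 0 ≤ 81 * E ^ 2 + 162 * E + 102 := by positivity
    linarith
  · rw [B2_eq]
    refine (bound2 hM hE0.le g1 g2 w1 u1 w2 u2 (g_nonneg _ _) (g_le _ _) (g_nonneg _ _) (g_le _ _)
      (d_nonneg _ _) u3).trans (mul_le_mul_of_nonneg_right ?_ hMq)
    have : 0 ≤ 10 * E + 9 := by positivity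
    linarith

end Pool.Agent.H966.N5
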