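import Pool.Agent.H966.N5.Stm
import Pool.Agent.H966.T1.A3

/-!
TASK D of N5: the limits of the single terms (helper199 for helper966, after helper209's T1-A3).
-/

set_option autoImplicit false

namespace Pool.Agent.H966.N5

open Polynomial Filter Topology Finset
open Pool.Agent.NH38.Fork
open Pool.Agent.H966.T1
open Pool.Agent.H966.T1.A3
open Pool.Agent.H966.N1 (mainF)

theorem t_D1 : S_D1 := by
  intro j x y
  have h1 : ∑ p ∈ antidiagonal j, TT p.1 p.2 x y = ∑ p ∈ antidiagonal j, TT p.2 p.1 x y :=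
    (Finset.Nat.sum_antidiagonal_swap (f := fun p : ℕ × ℕ => TT p.1 p.2 x y)).symm
  rw [h1, Finset.Nat.sum_antidiagonal_eq_sum_range_succ (fun a b => TT b a x y) j]
  unfold mainF ap1
  rw [Finset.mul_sum]
  refine Finset.sum_congr rfl fun i hi => ?_
  rw [mem_range] at hi
  unfold TT
  have h2 : j - i + i = j := by omega
  rw [h2]
  ring

namespace D

theorem half {f : ℕ → ℕ} (hf : Tendsto f atTop atTop) :
    Tendsto (fun i => (f i - 1) / 2) atTop atTop := by
  rw [tendsto_atTop]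
  intro c
  filter_upwards [hf.eventually_ge_atTop (2 * c + 1)] with i hi
  omega

theorem coef {f : ℕ → ℕ} (hfo : ∀ i, Odd (f i)) (hft : Tendsto f atTop atTop) (m : ℕ) :
    Tendsto (fun i => (((sv (f i)).coeff m / kap (f i) : ℚ) : ℝ) /
      (f i : ℝ)^(2*m)) atTop (𝓝 (1 / (4^m * rf (4/3) m * (Nat.factorial m : ℝ)))) := by
  refine ((t_svA m).comp (half hft)).congr fun i => ?_
  obtain ⟨y, hy⟩ := hfo i
  simp only [Function.comp]
  rw [show 2 * ((f i - 1) / 2) + 1 = f i by omega]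

end D

open D

theorem t_D2 : S_D2 := by
  intro a b N ρ σ hS l l'
  obtain ⟨hρ, hσ, hρσ, ha, hb, hN, habN, hNt, hla, hlb⟩ := hS
  obtain ⟨m, hm⟩ : ∃ m : ℕ → ℕ, ∀ i, m i = (N i - 4) / 2 := ⟨_, fun _ => rfl⟩
  have hNm : ∀ i, 4 ≤ N i → N i = 2 * m i + 4 := fun i h => by
    obtain ⟨z, hz⟩ := hN i
    have := hm i
    omega
  have hmt : Tendsto m atTop atTop := by
    rw [tendsto_atTop] at hNt ⊢
    intro c
    filter_upwards [hNt (2 * c + 4)] with i hi
    have := hm i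
    omega
  have hNt' : Tendsto (fun i => ((N i : ℕ) : ℝ)) atTop atTop :=
    tendsto_natCast_atTop_atTop.comp hNt
  have hmt' : Tendsto (fun i => ((m i : ℕ) : ℝ)) atTop atTop :=
    tendsto_natCast_atTop_atTop.comp hmt
  have hc : ∀ c : ℝ, Tendsto (fun i => c / (m i : ℝ)) atTop (𝓝 0) := fun c =>
    Tendsto.div_atTop tendsto_const_nhds hmt'
  have key : ∀ (f : ℕ → ℕ) (τ : ℝ), Tendsto (fun i => (f i : ℝ) / N i) atTop (𝓝 τ) →
      Tendsto (fun i => (f i : ℝ) / m i) atTop (𝓝 (2 * τ)) := by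
    intro f τ hf
    have h1 : Tendsto (fun i => (f i : ℝ) / N i * (2 * (1 + 2 / m i))) atTop
        (𝓝 (τ * (2 * (1 + 0)))) := hf.mul ((tendsto_const_nhds.add (hc 2)).const_mul 2)
    rw [show τ * (2 * (1 + 0)) = 2 * τ by ring] at h1
    refine h1.congr' ?_
    filter_upwards [hmt'.eventually_gt_atTop 0, hNt.eventually_ge_atTop 4] with i hi hi4
    have h3 : (N i : ℝ) = 2 * m i + 4 := by exact_mod_cast hNm i hi4
    rw [h3]
    have h2 : (2 * (m i : ℝ) + 4) ≠ 0 := by positivity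
    field_simp
    ring
  have toinf : ∀ (f : ℕ → ℕ) (τ : ℝ), 0 < τ → Tendsto (fun i => (f i : ℝ) / N i) atTop (𝓝 τ) →
      Tendsto f atTop atTop := by
    intro f τ hτ hf
    have h1 : Tendsto (fun i => (N i : ℝ) * ((f i : ℝ) / N i)) atTop atTop :=
      hNt'.atTop_mul_pos hτ hf
    have h2 : Tendsto (fun i => (f i : ℝ)) atTop atTop := by
      refine h1.congr' ?_
      filter_upwards [hNt'.eventually_gt_atTop 0] with i hi
      field_simp
    exact tendsto_natCast_atTop_iff.mp h2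
  have hat : Tendsto a atTop atTop := toinf a ρ hρ hla
  have hbt : Tendsto b atTop atTop := toinf b σ hσ hlb
  have hK := const_lim a b m ρ σ hρ hσ hat hbt hmt (key a ρ hla) (key b σ hlb)
  have hnj := nj_lim hNt (l + l')
  have hterm := (((coef hb hbt l').mul (hlb.pow (2*l'))).mul
    ((coef ha hat l).mul (hla.pow (2*l)))).mul (hK.mul hnj)
  have hval : (1 / (4^l' * rf (4/3) l' * (Nat.factorial l' : ℝ))) * σ^(2*l') *
      ((1 / (4^l * rf (4/3) l * (Nat.factorial l : ℝ))) * ρ^(2*l)) *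
      ((2*ρ*σ)^((2:ℝ)/3) * (3 / (2*Bt)) * (4^(l+l') * (rf (2/3) (l+l') * rf (4/3) (l+l')))) =
      TT l l' ρ σ := by
    unfold TT
    rw [pow_mul σ, pow_mul ρ, pow_add (4:ℝ)]
    have h5 : (4:ℝ)^l ≠ 0 := by positivity
    have h6 : (4:ℝ)^l' ≠ 0 := by positivity
    field_simp
  rw [hval] at hterm
  refine hterm.congr' ?_
  filter_upwards [hat.eventually_gt_atTop 0, hbt.eventually_gt_atTop 0,
    hNt'.eventually_gt_atTop 0] with i hia hib hin
  rw [← hm i]
  have h1 : (a i : ℝ) ≠ 0 := by positivity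
  have h2 : (b i : ℝ) ≠ 0 := by positivity
  have h3 : (N i : ℝ) ≠ 0 := hin.ne'
  have h4 : ((kap (a i) : ℚ) : ℝ) ≠ 0 := by exact_mod_cast (kap_pos (a i)).ne'
  have h4b : ((kap (b i) : ℚ) : ℝ) ≠ 0 := by exact_mod_cast (kap_pos (b i)).ne'
  have h5 : ((M1 (m i) : ℚ) : ℝ) ≠ 0 := by exact_mod_cast (M1_pos (m i)).ne'
  push_cast
  rw [mul_add, pow_add, div_pow, div_pow]
  field_simp

end Pool.Agent.H966.N5
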