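import Pool.Agent.H966.N5.Stm

set_option autoImplicit false

/-!
# TASK E1: dominated convergence for the first difference (helper84)
-/

namespace Pool.Agent.H966.N5

open Pool.Agent.NH38.Fork (sv)
open Pool.Agent.H966.T1 (nj FT)
open Filter Topology Finset

namespace E1

/-- the coefficients of `sv n` as real numbers -/
noncomputable def cf (n l : ℕ) : ℝ := (((sv n).coeff l : ℚ) : ℝ)

/-- the masses as real numbers -/
noncomputable def wj (N j : ℕ) : ℝ := ((nj N j : ℚ) : ℝ)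

lemma tt_eq {a b N j : ℕ} (h : j < (a+b)/2) :
    tt a b N j = ∑ p ∈ antidiagonal j, cf a p.1 * cf b p.2 * wj N j := by
  rw [tt, if_pos h, Polynomial.coeff_mul, Rat.cast_mul, Rat.cast_sum, Finset.sum_mul]
  refine Finset.sum_congr rfl fun p _ => ?_
  rw [Rat.cast_mul]
  rfl

lemma seq_shift {a b N : ℕ → ℕ} {ρ σ : ℝ} (h : Seq a b N ρ σ) :
    Seq (fun i => a i + 2) b (fun i => N i + 2) ρ σ := by
  have hNt' : Tendsto (fun i => ((N i : ℕ) : ℝ)) atTop atTop :=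
    tendsto_natCast_atTop_atTop.comp h.hNt
  have hNpos : ∀ i, (0:ℝ) < N i := fun i => by
    have : 0 < N i := by have := h.hab i; omega
    exact_mod_cast this
  have h2 : Tendsto (fun i => (2:ℝ) / N i) atTop (𝓝 0) := tendsto_const_nhds.div_atTop hNt'
  have h1 : Tendsto (fun i => (1:ℝ) + 2 / N i) atTop (𝓝 (1 + 0)) := tendsto_const_nhds.add h2
  have hne : ∀ i, (1:ℝ) + 2 / N i ≠ 0 := fun i => by
    have := hNpos i
    positivity
  refine ⟨h.hρ, h.hσ, h.hρσ, fun i => ?_, h.hb, fun i => ?_, fun i => ?_, ?_, ?_, ?_⟩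
  · exact (h.ha i).add_even even_two
  · exact (h.hN i).add even_two
  · have := h.hab i
    show a i + 2 + b i < N i + 2
    omega
  · exact tendsto_atTop_mono (fun i => Nat.le_add_right (N i) 2) h.hNt
  · have h3 := (h.la.add h2).div h1 (by norm_num)
    rw [add_zero, add_zero, div_one] at h3
    refine h3.congr fun i => ?_
    have h4 := hNpos i
    show ((a i : ℝ) / N i + 2 / N i) / (1 + 2 / N i) = ((a i + 2 : ℕ) : ℝ) / ((N i + 2 : ℕ) : ℝ)
    push_cast
    rw [← add_div, div_div, mul_add, mul_one, mul_div_cancel₀ _ h4.ne']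
  · have h3 := h.lb.div h1 (by norm_num)
    rw [add_zero, div_one] at h3
    refine h3.congr fun i => ?_
    have h4 := hNpos i
    show ((b i : ℝ) / N i) / (1 + 2 / N i) = (b i : ℝ) / ((N i + 2 : ℕ) : ℝ)
    push_cast
    rw [div_div, mul_add, mul_one, mul_div_cancel₀ _ h4.ne']

lemma aux_j {a b N j : ℕ} (hN : Even N) (hab : a + b < N) (h1 : (j+1)^2 ≤ a)
    (h2 : (j+1)^2 ≤ b) : j < (a+b)/2 ∧ j < (a + 2 + b)/2 ∧ 2*j + 4 ≤ N ∧ 4 ≤ N := by
  have h3 : j + 1 ≤ (j+1)^2 := Nat.le_self_pow (by norm_num) _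
  obtain ⟨z, hz⟩ := hN
  omega

lemma region {a b N j : ℕ} (hg : S_g) (hN : Even N) (hab : a + b < N)
    (h1 : (j+1)^2 ≤ a) (h2 : (j+1)^2 ≤ b) (hpos : ∀ p ∈ antidiagonal j, 0 < cf a p.1) :
    tt (a+2) b (N+2) j - tt a b N j = ∑ p ∈ antidiagonal j,
      (cf a p.1 * cf b p.2 * wj N j) * B1 (xi a p.1) (gN N (p.1 + p.2)) := by
  obtain ⟨e1, e2, e3, e4⟩ := aux_j hN hab h1 h2
  rw [tt_eq e1, tt_eq e2, ← Finset.sum_sub_distrib]
  refine Finset.sum_congr rfl fun p hp => ?_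
  have hp1 := hpos p hp
  have hp2 : p.1 + p.2 = j := mem_antidiagonal.mp hp
  have hw : wj (N+2) j = (1 - gN N j) * wj N j := hg N j hN e4 e3
  have hx : cf (a+2) p.1 = cf a p.1 * (1 + xi a p.1) := by
    have : xi a p.1 = cf (a+2) p.1 / cf a p.1 - 1 := rfl
    rw [this]
    field_simp
    ring
  rw [hp2, hw, hx]
  unfold B1
  ring

end E1

open E1 in
theorem t_E1 : S_E1 := by
  intro hg hG1 hG2 hD2 hBd hlim a b N ρ σ hS
  obtain ⟨k0, C, hC, hB⟩ := hBd a b N ρ σ hS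
  obtain ⟨r1, hr10, hr11, hr1⟩ := hG2 a b N ρ σ hS
  obtain ⟨r2, hr20, hr21, hr2⟩ := hG2 _ _ _ ρ σ (seq_shift hS)
  obtain ⟨k, hkk0, hkk2⟩ : ∃ k : ℕ, k0 ≤ k ∧ 2 ≤ k := ⟨max k0 2, le_max_left _ _, le_max_right _ _⟩
  obtain ⟨r, hr1r, hr2r, hrlt⟩ : ∃ r : ℝ, r1 ≤ r ∧ r2 ≤ r ∧ r < 1 :=
    ⟨max r1 r2, le_max_left _ _, le_max_right _ _, max_lt hr11 hr21⟩
  have hr0 : 0 < r := lt_of_lt_of_le hr10 hr1r
  have hNt' : Tendsto (fun i => ((N i : ℕ) : ℝ)) atTop atTop :=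
    tendsto_natCast_atTop_atTop.comp hS.hNt
  have hNpos : ∀ i, (0:ℝ) < N i := fun i => by
    have : 0 < N i := by have := hS.hab i; omega
    exact_mod_cast this
  obtain ⟨c, hc0, hcρ, hcσ⟩ : ∃ c : ℝ, 0 < c ∧ c < ρ ∧ c < σ := by
    refine ⟨min ρ σ / 2, ?_, ?_, ?_⟩
    · have := lt_min hS.hρ hS.hσ
      linarith
    · have := min_le_left ρ σ
      have := lt_min hS.hρ hS.hσ
      linarith
    · have := min_le_right ρ σ
      have := lt_min hS.hρ hS.hσ
      linarith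
  obtain ⟨D, hD⟩ : ∃ D : ℕ → ℕ → ℝ, ∀ i j, D i j =
      tt (a i + 2) (b i) (N i + 2) j - tt (a i) (b i) (N i) j := ⟨_, fun _ _ => rfl⟩
  -- the trivial bound
  have hDr : ∀ᶠ i in atTop, ∀ j, |D i j| ≤ r^j := by
    filter_upwards [hr1, hr2] with i h1 h2 j
    have h3 := (h1 j).1
    have h4 := (h1 j).2
    have h5 : 0 ≤ tt (a i + 2) (b i) (N i + 2) j := (h2 j).1
    have h6 : tt (a i + 2) (b i) (N i + 2) j ≤ r2^j := (h2 j).2
    have h7 : r1^j ≤ r^j := pow_le_pow_left₀ hr10.le hr1r j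
    have h8 : r2^j ≤ r^j := pow_le_pow_left₀ hr20.le hr2r j
    rw [hD, abs_le]
    constructor <;> linarith
  -- the region
  have hreg : ∀ᶠ i in atTop, ∀ j, (j+1)^k ≤ a i → (j+1)^k ≤ b i →
      (N i : ℝ)/2 * D i j = ∑ p ∈ antidiagonal j,
        (cf (a i) p.1 * cf (b i) p.2 * wj (N i) j) *
          ((N i : ℝ)/2 * B1 (xi (a i) p.1) (gN (N i) (p.1 + p.2))) ∧
      |(N i : ℝ)/2 * D i j| ≤ C * (((j:ℝ)+1)^k * r^j) := by
    filter_upwards [hB, hr1] with i hi hi1 j h1 h2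
    have hk0 : (j+1)^k0 ≤ (j+1)^k := Nat.pow_le_pow_right (by omega) hkk0
    have hk2 : (j+1)^2 ≤ (j+1)^k := Nat.pow_le_pow_right (by omega) hkk2
    have hp : ∀ p ∈ antidiagonal j, 0 < cf (a i) p.1 ∧ 0 < cf (b i) p.2 ∧
        |(N i : ℝ)/2 * B1 (xi (a i) p.1) (gN (N i) (p.1 + p.2))| ≤ C * ((j:ℝ)+1)^k := by
      intro p hp
      have hp2 : p.1 + p.2 = j := mem_antidiagonal.mp hp
      obtain ⟨q1, q2, q3, -⟩ := hi p.1 p.2 (by rw [hp2]; exact hk0.trans h1)
        (by rw [hp2]; exact hk0.trans h2)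
      refine ⟨q1, q2, q3.trans ?_⟩
      have e1 : (p.1:ℝ) + p.2 + 1 = (j:ℝ) + 1 := by
        rw [← hp2]
        push_cast
        ring
      rw [e1]
      have hj1 : (1:ℝ) ≤ (j:ℝ) + 1 := by
        have : (0:ℝ) ≤ j := Nat.cast_nonneg j
        linarith
      exact mul_le_mul_of_nonneg_left (pow_le_pow_right₀ hj1 hkk0) hC.le
    obtain ⟨e1, -, e3, -⟩ := aux_j (hS.hN i) (hS.hab i) (hk2.trans h1) (hk2.trans h2)
    have hw : 0 ≤ wj (N i) j := by
      have h3 := Pool.Agent.H966.T1.A3.nj_nonneg (N := N i) (j := j) (by omega)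
      unfold wj
      exact_mod_cast h3
    have heq : (N i : ℝ)/2 * D i j = ∑ p ∈ antidiagonal j,
        (cf (a i) p.1 * cf (b i) p.2 * wj (N i) j) *
          ((N i : ℝ)/2 * B1 (xi (a i) p.1) (gN (N i) (p.1 + p.2))) := by
      rw [hD, region hg (hS.hN i) (hS.hab i) (hk2.trans h1) (hk2.trans h2)
        (fun p hp' => (hp p hp').1), Finset.mul_sum]
      exact Finset.sum_congr rfl fun p _ => by ring
    refine ⟨heq, ?_⟩
    rw [heq]
    calc |∑ p ∈ antidiagonal j, (cf (a i) p.1 * cf (b i) p.2 * wj (N i) j) *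
          ((N i : ℝ)/2 * B1 (xi (a i) p.1) (gN (N i) (p.1 + p.2)))|
        ≤ ∑ p ∈ antidiagonal j, |(cf (a i) p.1 * cf (b i) p.2 * wj (N i) j) *
          ((N i : ℝ)/2 * B1 (xi (a i) p.1) (gN (N i) (p.1 + p.2)))| :=
          Finset.abs_sum_le_sum_abs _ _
      _ ≤ ∑ p ∈ antidiagonal j, (cf (a i) p.1 * cf (b i) p.2 * wj (N i) j) *
          (C * ((j:ℝ)+1)^k) := by
          refine Finset.sum_le_sum fun p hp' => ?_
          obtain ⟨q1, q2, q3⟩ := hp p hp'
          have q4 : 0 ≤ cf (a i) p.1 * cf (b i) p.2 * wj (N i) j :=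
            mul_nonneg (mul_nonneg q1.le q2.le) hw
          rw [abs_mul, abs_of_nonneg q4]
          exact mul_le_mul_of_nonneg_left q3 q4
      _ = tt (a i) (b i) (N i) j * (C * ((j:ℝ)+1)^k) := by
          rw [tt_eq e1, Finset.sum_mul]
      _ ≤ r^j * (C * ((j:ℝ)+1)^k) := by
          refine mul_le_mul_of_nonneg_right ((hi1 j).2.trans
            (pow_le_pow_left₀ hr10.le hr1r j)) (by positivity)
      _ = C * (((j:ℝ)+1)^k * r^j) := by ring
  -- the widths are large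
  have hca : ∀ᶠ i in atTop, c * N i ≤ a i ∧ c * N i ≤ b i := by
    filter_upwards [hS.la.eventually (lt_mem_nhds hcρ), hS.lb.eventually (lt_mem_nhds hcσ)]
      with i h1 h2
    rw [lt_div_iff₀ (hNpos i)] at h1 h2
    exact ⟨h1.le, h2.le⟩
  have haj : ∀ j : ℕ, ∀ᶠ i in atTop, (j+1)^k ≤ a i ∧ (j+1)^k ≤ b i := by
    intro j
    filter_upwards [hca, hNt'.eventually (eventually_ge_atTop ((((j+1)^k : ℕ) : ℝ) / c))]
      with i h1 h2
    rw [div_le_iff₀ hc0] at h2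
    have h3 : (((j+1)^k : ℕ) : ℝ) ≤ a i := by linarith [h1.1]
    have h4 : (((j+1)^k : ℕ) : ℝ) ≤ b i := by linarith [h1.2]
    exact ⟨by exact_mod_cast h3, by exact_mod_cast h4⟩
  -- the limit of the terms
  have hterm : ∀ j, Tendsto (fun i => (N i : ℝ)/2 * D i j) atTop
      (𝓝 (∑ p ∈ antidiagonal j, TT p.1 p.2 ρ σ * br1 (2*(p.1:ℝ) + 2/3) (2*(j:ℝ) + 4/3) ρ)) := by
    intro j
    have h1 : Tendsto (fun i => ∑ p ∈ antidiagonal j,
        (cf (a i) p.1 * cf (b i) p.2 * wj (N i) j) *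
          ((N i : ℝ)/2 * B1 (xi (a i) p.1) (gN (N i) (p.1 + p.2)))) atTop
        (𝓝 (∑ p ∈ antidiagonal j,
          TT p.1 p.2 ρ σ * br1 (2*(p.1:ℝ) + 2/3) (2*(j:ℝ) + 4/3) ρ)) := by
      refine tendsto_finsetSum _ fun p hp => ?_
      have hp2 : p.1 + p.2 = j := mem_antidiagonal.mp hp
      have h2 := hD2 a b N ρ σ hS p.1 p.2
      have h3 := hlim a b N ρ σ hS p.1 p.2
      rw [hp2] at h2
      have h4 : (2*((p.1+p.2 : ℕ) : ℝ) + 4/3) = (2*(j:ℝ) + 4/3) := by rw [hp2]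
      rw [h4] at h3
      refine (Tendsto.mul ?_ h3)
      refine h2.congr fun i => ?_
      rw [Rat.cast_mul, Rat.cast_mul]
      rfl
    refine h1.congr' ?_
    filter_upwards [hreg, haj j] with i h2 h3
    exact (h2 j h3.1 h3.2).1.symm
  -- dominated convergence
  have hdc : Tendsto (fun i => ∑' j, (N i : ℝ)/2 * D i j) atTop
      (𝓝 (∑' j : ℕ, ∑ p ∈ antidiagonal j,
        TT p.1 p.2 ρ σ * br1 (2*(p.1:ℝ) + 2/3) (2*(j:ℝ) + 4/3) ρ)) := by
    refine tendsto_tsum_of_dominated_convergence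
      (bound := fun j => (C + 1 / c) * (((j:ℝ)+1)^k * r^j)) ?_ hterm ?_
    · apply Summable.mul_left
      have h1 := summable_pow_mul_geometric_of_norm_lt_one k (r := r)
        (by rw [Real.norm_of_nonneg hr0.le]; exact hrlt)
      have h2 := ((summable_nat_add_iff 1).2 h1).mul_left r⁻¹
      refine h2.congr fun j => ?_
      push_cast
      rw [pow_succ r j]
      field_simp
    · filter_upwards [hreg, hDr, hca] with i h1 h2 h3 j
      rw [Real.norm_eq_abs]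
      have hj0 : (0:ℝ) ≤ j := Nat.cast_nonneg j
      have hP : 0 ≤ ((j:ℝ)+1)^k * r^j := by positivity
      have hcc : 0 ≤ 1 / c := by positivity
      by_cases hcase : (j+1)^k ≤ a i ∧ (j+1)^k ≤ b i
      · refine (h1 j hcase.1 hcase.2).2.trans ?_
        rw [add_mul]
        have := mul_nonneg hcc hP
        linarith
      · have h4 : c * N i ≤ ((j:ℝ)+1)^k := by
          rw [not_and_or, not_le, not_le] at hcase
          rcases hcase with h | h
          · have h5 : ((a i : ℕ) : ℝ) ≤ (((j+1)^k : ℕ) : ℝ) := by exact_mod_cast h.le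
            push_cast at h5
            linarith [h3.1]
          · have h5 : ((b i : ℕ) : ℝ) ≤ (((j+1)^k : ℕ) : ℝ) := by exact_mod_cast h.le
            push_cast at h5
            linarith [h3.2]
        have h5 : (N i : ℝ) / 2 ≤ 1 / c * ((j:ℝ)+1)^k := by
          have h6 : (N i : ℝ) ≤ 1 / c * ((j:ℝ)+1)^k := by
            rw [div_mul_eq_mul_div, one_mul, le_div_iff₀ hc0]
            linarith
          have := hNpos i
          linarith
        rw [abs_mul, abs_of_nonneg (by have := hNpos i; positivity)]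
        calc (N i : ℝ) / 2 * |D i j| ≤ (1 / c * ((j:ℝ)+1)^k) * r^j :=
              mul_le_mul h5 (h2 j) (abs_nonneg _) (by positivity)
          _ = 1 / c * (((j:ℝ)+1)^k * r^j) := by ring
          _ ≤ (C + 1 / c) * (((j:ℝ)+1)^k * r^j) :=
              mul_le_mul_of_nonneg_right (by linarith) hP
  have hts : ∀ i, ∑' j, (N i : ℝ)/2 * D i j = (N i : ℝ)/2 *
      (((FT (a i + 2) (b i) (N i + 2) : ℚ) : ℝ) - ((FT (a i) (b i) (N i) : ℚ) : ℝ)) := by
    intro i
    have h1 := ((hG1 (a i + 2) (b i) (N i + 2)).sub (hG1 (a i) (b i) (N i))).mul_left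
      ((N i : ℝ)/2)
    simp only [hD]
    exact h1.tsum_eq
  simp only [hts] at hdc
  exact hdc

end Pool.Agent.H966.N5
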