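import Pool.Agent.H966.N5.Stm

set_option autoImplicit false

/-!
# The local limit theorem for the two extents: dominated convergence for the second difference
(task E2, helper241)
-/

namespace Pool.Agent.H966.N5

open Pool.Agent.NH38.Fork (sv)
open Pool.Agent.H966.T1 (nj FT)
open Filter Topology Finset

namespace E2

lemma seq_shift {a b N : ℕ → ℕ} {ρ σ : ℝ} (h : Seq a b N ρ σ) {u v w : ℕ} (hu : Even u)
    (hv : Even v) (hw : Even w) (huv : u + v ≤ w) :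
    Seq (fun i => a i + u) (fun i => b i + v) (fun i => N i + w) ρ σ := by
  have hNt' : Tendsto (fun i => ((N i : ℕ) : ℝ)) atTop atTop :=
    tendsto_natCast_atTop_atTop.comp h.hNt
  have hlim : ∀ (c : ℕ → ℕ) (τ : ℝ) (x : ℕ), Tendsto (fun i => (c i : ℝ) / N i) atTop (𝓝 τ) →
      Tendsto (fun i => ((c i + x : ℕ) : ℝ) / ((N i + w : ℕ) : ℝ)) atTop (𝓝 τ) := by
    intro c τ x hc
    have h1 : Tendsto (fun i => (x : ℝ) / (N i : ℝ)) atTop (𝓝 0) := hNt'.const_div_atTop _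
    have h2 : Tendsto (fun i => (w : ℝ) / (N i : ℝ)) atTop (𝓝 0) := hNt'.const_div_atTop _
    have h3 : Tendsto (fun i => ((c i : ℝ) / N i + x / N i) / (1 + w / N i)) atTop
        (𝓝 ((τ + 0) / (1 + 0))) := (hc.add h1).div (tendsto_const_nhds.add h2) (by norm_num)
    rw [add_zero, add_zero, div_one] at h3
    refine h3.congr' ?_
    filter_upwards [hNt'.eventually_gt_atTop 0] with i hi
    have hne : (N i : ℝ) ≠ 0 := hi.ne'
    push_cast
    have e : (1 + (w : ℝ) / N i) = (N i + w) / N i := by field_simp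
    rw [e, ← add_div, div_div_div_cancel_right₀ hne]
  refine ⟨h.hρ, h.hσ, h.hρσ, fun i => (h.ha i).add_even hu, fun i => (h.hb i).add_even hv,
    fun i => (h.hN i).add hw, fun i => ?_, ?_, hlim a ρ u h.la, hlim b σ v h.lb⟩
  · have := h.hab i
    show a i + u + (b i + v) < N i + w
    omega
  · exact tendsto_atTop_mono (fun i => Nat.le_add_right _ _) h.hNt

/-- one term of the crossing probability -/
lemma tt_eq {a b N j : ℕ} (h : j < (a + b) / 2) : tt a b N j =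
    ∑ p ∈ antidiagonal j, (((sv a).coeff p.1 : ℚ) : ℝ) * (((sv b).coeff p.2 : ℚ) : ℝ) *
      ((nj N j : ℚ) : ℝ) := by
  unfold tt
  rw [if_pos h, Polynomial.coeff_mul, Finset.sum_mul]
  push_cast
  rfl

lemma xi_eq {a l : ℕ} (h : (((sv a).coeff l : ℚ) : ℝ) ≠ 0) :
    (((sv (a+2)).coeff l : ℚ) : ℝ) = (((sv a).coeff l : ℚ) : ℝ) * (1 + xi a l) := by
  unfold xi
  field_simp
  ring

/-- the second difference of one term -/
noncomputable def DD (a b N j : ℕ) : ℝ :=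
  tt (a+2) (b+2) (N+4) j - tt a (b+2) (N+2) j - tt (a+2) b (N+2) j + tt a b N j

lemma DD_eq (hg : S_g) {a b N j : ℕ} (ha : Odd a) (hb : Odd b) (hN : Even N) (hab : a + b < N)
    (ja : j + 1 ≤ a) (jb : j + 1 ≤ b)
    (hp : ∀ p ∈ antidiagonal j, (((sv a).coeff p.1 : ℚ) : ℝ) ≠ 0 ∧
      (((sv b).coeff p.2 : ℚ) : ℝ) ≠ 0) :
    DD a b N j = ∑ p ∈ antidiagonal j, ((((sv a).coeff p.1 : ℚ) : ℝ) *
      (((sv b).coeff p.2 : ℚ) : ℝ) * ((nj N j : ℚ) : ℝ)) *
        B2 (xi a p.1) (xi b p.2) (gN N j) (gN (N+2) j) := by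
  obtain ⟨x, hx⟩ := ha
  obtain ⟨y, hy⟩ := hb
  obtain ⟨z, hz⟩ := hN
  have hN4 : 2 * j + 4 ≤ N := by omega
  have h4 : 4 ≤ N := by omega
  have g1 : ((nj (N+2) j : ℚ) : ℝ) = (1 - gN N j) * ((nj N j : ℚ) : ℝ) :=
    hg N j ⟨z, hz⟩ h4 hN4
  have g2 : ((nj (N+4) j : ℚ) : ℝ) = (1 - gN (N+2) j) * ((nj (N+2) j : ℚ) : ℝ) :=
    hg (N+2) j ⟨z + 1, by omega⟩ (by omega) (by omega)
  unfold DD
  rw [tt_eq (show j < (a + 2 + (b + 2)) / 2 by omega), tt_eq (show j < (a + (b + 2)) / 2 by omega),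
    tt_eq (show j < (a + 2 + b) / 2 by omega), tt_eq (show j < (a + b) / 2 by omega),
    ← Finset.sum_sub_distrib, ← Finset.sum_sub_distrib, ← Finset.sum_add_distrib]
  refine Finset.sum_congr rfl fun p hpp => ?_
  obtain ⟨h1, h2⟩ := hp p hpp
  rw [xi_eq h1, xi_eq h2, g2, g1]
  unfold B2
  ring

end E2

open E2 in
theorem t_E2 : S_E2 := by
  intro hg hG1 hG2 hD2 hBd hBr a b N ρ σ hS
  obtain ⟨k0, C, hC, hbd⟩ := hBd a b N ρ σ hS
  obtain ⟨r1, hr10, hr11, ht1⟩ := hG2 _ _ _ _ _ hS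
  obtain ⟨r2, hr20, hr21, ht2⟩ := hG2 _ _ _ _ _
    (seq_shift hS (u := 2) (v := 2) (w := 4) (by decide) (by decide) (by decide) (by norm_num))
  obtain ⟨r3, hr30, hr31, ht3⟩ := hG2 _ _ _ _ _
    (seq_shift hS (u := 0) (v := 2) (w := 2) (by decide) (by decide) (by decide) (by norm_num))
  obtain ⟨r4, hr40, hr41, ht4⟩ := hG2 _ _ _ _ _
    (seq_shift hS (u := 2) (v := 0) (w := 2) (by decide) (by decide) (by decide) (by norm_num))
  -- constants
  obtain ⟨r, hr⟩ : ∃ r, r = max (max r1 r2) (max r3 r4) := ⟨_, rfl⟩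
  have hr0 : 0 < r := by rw [hr]; exact lt_max_of_lt_left (lt_max_of_lt_left hr10)
  have hrlt : r < 1 := by rw [hr]; exact max_lt (max_lt hr11 hr21) (max_lt hr31 hr41)
  have le1 : r1 ≤ r := by rw [hr]; exact (le_max_left _ _).trans (le_max_left _ _)
  have le2 : r2 ≤ r := by rw [hr]; exact (le_max_right _ _).trans (le_max_left _ _)
  have le3 : r3 ≤ r := by rw [hr]; exact (le_max_left _ _).trans (le_max_right _ _)
  have le4 : r4 ≤ r := by rw [hr]; exact (le_max_right _ _).trans (le_max_right _ _)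
  obtain ⟨k, hk⟩ : ∃ k, k = k0 + 1 := ⟨_, rfl⟩
  obtain ⟨c, hc⟩ : ∃ c, c = min ρ σ / 2 := ⟨_, rfl⟩
  have hmin : 0 < min ρ σ := lt_min hS.hρ hS.hσ
  have hc0 : 0 < c := by rw [hc]; positivity
  have hcρ : c < ρ := by
    have := min_le_left ρ σ
    rw [hc]; linarith
  have hcσ : c < σ := by
    have := min_le_right ρ σ
    rw [hc]; linarith
  have hNt' : Tendsto (fun i => ((N i : ℕ) : ℝ)) atTop atTop :=
    tendsto_natCast_atTop_atTop.comp hS.hNt
  have eva := hS.la.eventually_const_lt hcρ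
  have evb := hS.lb.eventually_const_lt hcσ
  have evN := hNt'.eventually_gt_atTop 0
  -- bounds for the second difference
  have hDr : ∀ᶠ i in atTop, ∀ j, |DD (a i) (b i) (N i) j| ≤ 2 * r^j := by
    filter_upwards [ht1, ht2, ht3, ht4] with i h1 h2 h3 h4 j
    obtain ⟨p1, q1⟩ := h1 j
    obtain ⟨p2, q2⟩ := h2 j
    obtain ⟨p3, q3⟩ := h3 j
    obtain ⟨p4, q4⟩ := h4 j
    have e1 := pow_le_pow_left₀ hr10.le le1 j
    have e2 := pow_le_pow_left₀ hr20.le le2 j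
    have e3 := pow_le_pow_left₀ hr30.le le3 j
    have e4 := pow_le_pow_left₀ hr40.le le4 j
    have q3' : tt (a i) (b i + 2) (N i + 2) j ≤ r3 ^ j := q3
    have q4' : tt (a i + 2) (b i) (N i + 2) j ≤ r4 ^ j := q4
    have p3' : 0 ≤ tt (a i) (b i + 2) (N i + 2) j := p3
    have p4' : 0 ≤ tt (a i + 2) (b i) (N i + 2) j := p4
    unfold DD
    rw [abs_le]
    constructor <;> linarith
  -- the region
  have hreg : ∀ᶠ i in atTop, ∀ j, (j+1)^k ≤ a i → (j+1)^k ≤ b i →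
      DD (a i) (b i) (N i) j = ∑ p ∈ antidiagonal j, ((((sv (a i)).coeff p.1 : ℚ) : ℝ) *
        (((sv (b i)).coeff p.2 : ℚ) : ℝ) * ((nj (N i) j : ℚ) : ℝ)) *
          B2 (xi (a i) p.1) (xi (b i) p.2) (gN (N i) j) (gN (N i + 2) j) ∧
      |(N i : ℝ)^2/4 * DD (a i) (b i) (N i) j| ≤ C * ((j:ℝ)+1)^k * r^j := by
    filter_upwards [hbd, ht1] with i hi h1 j hja hjb
    have hk0 : (j+1)^k0 ≤ (j+1)^k := Nat.pow_le_pow_right (by omega) (by omega)
    have hk1 : j + 1 ≤ (j+1)^k := Nat.le_self_pow (by omega) _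
    have hb : ∀ p ∈ antidiagonal j, 0 < (((sv (a i)).coeff p.1 : ℚ) : ℝ) ∧
        0 < (((sv (b i)).coeff p.2 : ℚ) : ℝ) ∧
        |(N i : ℝ)^2/4 * B2 (xi (a i) p.1) (xi (b i) p.2) (gN (N i) j) (gN (N i + 2) j)| ≤
          C * ((j:ℝ)+1)^k0 := by
      intro p hp
      have hpj : p.1 + p.2 = j := mem_antidiagonal.1 hp
      have h2 := hi p.1 p.2 (by rw [hpj]; exact hk0.trans hja) (by rw [hpj]; exact hk0.trans hjb)
      rw [hpj] at h2
      refine ⟨h2.1, h2.2.1, ?_⟩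
      have h3 := h2.2.2.2
      rwa [← Nat.cast_add, hpj] at h3
    have hD := DD_eq hg (hS.ha i) (hS.hb i) (hS.hN i) (hS.hab i) (hk1.trans hja) (hk1.trans hjb)
      fun p hp => ⟨(hb p hp).1.ne', (hb p hp).2.1.ne'⟩
    refine ⟨hD, ?_⟩
    have hjlt : j < (a i + b i) / 2 := by
      have := hk1.trans hja
      have := hk1.trans hjb
      omega
    have ht : |tt (a i) (b i) (N i) j| ≤ r^j := by
      rw [abs_of_nonneg (h1 j).1]
      exact (h1 j).2.trans (pow_le_pow_left₀ hr10.le le1 j)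
    have hj1 : (1:ℝ) ≤ (j:ℝ) + 1 := by
      have : (0:ℝ) ≤ j := Nat.cast_nonneg j
      linarith
    have hkk : ((j:ℝ)+1)^k0 ≤ ((j:ℝ)+1)^k := pow_le_pow_right₀ hj1 (by omega)
    rw [hD, Finset.mul_sum]
    refine (Finset.abs_sum_le_sum_abs _ _).trans ?_
    have hsum : ∑ p ∈ antidiagonal j, |(N i : ℝ)^2/4 * (((((sv (a i)).coeff p.1 : ℚ) : ℝ) *
        (((sv (b i)).coeff p.2 : ℚ) : ℝ) * ((nj (N i) j : ℚ) : ℝ)) *
          B2 (xi (a i) p.1) (xi (b i) p.2) (gN (N i) j) (gN (N i + 2) j))| ≤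
        ∑ p ∈ antidiagonal j, (C * ((j:ℝ)+1)^k) * ((((sv (a i)).coeff p.1 : ℚ) : ℝ) *
        (((sv (b i)).coeff p.2 : ℚ) : ℝ) * |((nj (N i) j : ℚ) : ℝ)|) := by
      refine Finset.sum_le_sum fun p hp => ?_
      obtain ⟨u1, u2, u3⟩ := hb p hp
      have e : (N i : ℝ)^2/4 * (((((sv (a i)).coeff p.1 : ℚ) : ℝ) *
        (((sv (b i)).coeff p.2 : ℚ) : ℝ) * ((nj (N i) j : ℚ) : ℝ)) *
          B2 (xi (a i) p.1) (xi (b i) p.2) (gN (N i) j) (gN (N i + 2) j)) =
          ((N i : ℝ)^2/4 * B2 (xi (a i) p.1) (xi (b i) p.2) (gN (N i) j) (gN (N i + 2) j)) *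
          ((((sv (a i)).coeff p.1 : ℚ) : ℝ) * (((sv (b i)).coeff p.2 : ℚ) : ℝ) *
            ((nj (N i) j : ℚ) : ℝ)) := by ring
      rw [e, abs_mul, abs_mul (((((sv (a i)).coeff p.1 : ℚ) : ℝ) *
        (((sv (b i)).coeff p.2 : ℚ) : ℝ))), abs_mul ((((sv (a i)).coeff p.1 : ℚ) : ℝ)),
        abs_of_pos u1, abs_of_pos u2]
      refine mul_le_mul_of_nonneg_right (u3.trans ?_) (by positivity)
      exact mul_le_mul_of_nonneg_left hkk hC.le
    refine hsum.trans ?_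
    rw [← Finset.mul_sum]
    refine mul_le_mul_of_nonneg_left ?_ (by positivity)
    refine le_trans (le_of_eq ?_) ht
    rw [tt_eq hjlt, ← Finset.sum_mul, ← Finset.sum_mul, abs_mul]
    congr 1
    rw [abs_of_nonneg]
    exact Finset.sum_nonneg fun p hp => mul_nonneg (hb p hp).1.le (hb p hp).2.1.le
  -- fixed j
  have haj : ∀ j : ℕ, ∀ᶠ i in atTop, (j+1)^k ≤ a i ∧ (j+1)^k ≤ b i := by
    intro j
    filter_upwards [eva, evb, evN, hNt'.eventually_ge_atTop ((((j+1)^k : ℕ) : ℝ) / c)]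
      with i q3 q4 q5 hi2
    rw [lt_div_iff₀ q5] at q3 q4
    rw [div_le_iff₀ hc0] at hi2
    have h1 : (((j+1)^k : ℕ) : ℝ) ≤ a i := by linarith
    have h2 : (((j+1)^k : ℕ) : ℝ) ≤ b i := by linarith
    exact ⟨by exact_mod_cast h1, by exact_mod_cast h2⟩
  have hterm : ∀ j, Tendsto (fun i => (N i : ℝ)^2/4 * DD (a i) (b i) (N i) j) atTop
      (𝓝 (∑ p ∈ antidiagonal j, TT p.1 p.2 ρ σ *
        br2 (2*(p.1:ℝ) + 2/3) (2*(p.2:ℝ) + 2/3) ρ σ)) := by
    intro j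
    have h1 : Tendsto (fun i => ∑ p ∈ antidiagonal j,
        (((sv (a i)).coeff p.1 * (sv (b i)).coeff p.2 * nj (N i) (p.1+p.2) : ℚ) : ℝ) *
          ((N i : ℝ)^2/4 * B2 (xi (a i) p.1) (xi (b i) p.2) (gN (N i) (p.1+p.2))
            (gN (N i + 2) (p.1+p.2)))) atTop
      (𝓝 (∑ p ∈ antidiagonal j, TT p.1 p.2 ρ σ *
        br2 (2*(p.1:ℝ) + 2/3) (2*(p.2:ℝ) + 2/3) ρ σ)) :=
      tendsto_finsetSum _ fun p _ => (hD2 a b N ρ σ hS p.1 p.2).mul (hBr a b N ρ σ hS p.1 p.2)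
    refine h1.congr' ?_
    filter_upwards [hreg, haj j] with i hi hij
    rw [(hi j hij.1 hij.2).1, Finset.mul_sum]
    refine Finset.sum_congr rfl fun p hp => ?_
    have hpj : p.1 + p.2 = j := mem_antidiagonal.1 hp
    rw [hpj]
    push_cast
    ring
  -- dominated convergence
  obtain ⟨K, hK⟩ : ∃ K, K = 2 * k := ⟨_, rfl⟩
  have hdc : Tendsto (fun i => ∑' j, (N i : ℝ)^2/4 * DD (a i) (b i) (N i) j) atTop
      (𝓝 (H2 ρ σ)) := by
    refine tendsto_tsum_of_dominated_convergence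
      (bound := fun j => (C + 1 / c^2) * (((j:ℝ)+1)^K * r^j)) ?_ hterm ?_
    · apply Summable.mul_left
      have h1 := summable_pow_mul_geometric_of_norm_lt_one K (r := r)
        (by rw [Real.norm_of_nonneg hr0.le]; exact hrlt)
      have h2 := ((summable_nat_add_iff 1).2 h1).mul_left r⁻¹
      refine h2.congr fun j => ?_
      push_cast
      rw [pow_succ r j]
      field_simp
    · filter_upwards [hreg, hDr, eva, evb, evN] with i hi hd q3 q4 q5 j
      rw [Real.norm_eq_abs]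
      have hrj : 0 < r^j := by positivity
      have hj1 : (1:ℝ) ≤ (j:ℝ) + 1 := by
        have : (0:ℝ) ≤ j := Nat.cast_nonneg j
        linarith
      have hkK : ((j:ℝ)+1)^k ≤ ((j:ℝ)+1)^K := pow_le_pow_right₀ hj1 (by omega)
      have hsplit : (C + 1 / c^2) * (((j:ℝ)+1)^K * r^j) =
          C * ((j:ℝ)+1)^K * r^j + 1 / c^2 * (((j:ℝ)+1)^K * r^j) := by ring
      by_cases hcase : (j+1)^k ≤ a i ∧ (j+1)^k ≤ b i
      · refine (hi j hcase.1 hcase.2).2.trans ?_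
        have h1 : 0 ≤ 1 / c^2 * (((j:ℝ)+1)^K * r^j) := by positivity
        have h2 : C * ((j:ℝ)+1)^k * r^j ≤ C * ((j:ℝ)+1)^K * r^j :=
          mul_le_mul_of_nonneg_right (mul_le_mul_of_nonneg_left hkK hC.le) hrj.le
        rw [hsplit]
        linarith
      · have h1 : c * N i ≤ ((j:ℝ)+1)^k := by
          rw [lt_div_iff₀ q5] at q3 q4
          rw [not_and_or, not_le, not_le] at hcase
          rcases hcase with h | h
          · have : ((a i : ℕ) : ℝ) ≤ (((j+1)^k : ℕ) : ℝ) := by exact_mod_cast h.le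
            push_cast at this
            linarith
          · have : ((b i : ℕ) : ℝ) ≤ (((j+1)^k : ℕ) : ℝ) := by exact_mod_cast h.le
            push_cast at this
            linarith
        have h2 : (c * N i)^2 ≤ ((j:ℝ)+1)^K := by
          rw [hK, mul_comm 2 k, pow_mul]
          exact pow_le_pow_left₀ (by positivity) h1 2
        have h3 : (N i : ℝ)^2/4 ≤ 1 / c^2 * ((j:ℝ)+1)^K / 2 := by
          have h4 : (N i : ℝ)^2 ≤ 1 / c^2 * ((j:ℝ)+1)^K := by
            rw [one_div, ← div_eq_inv_mul, le_div_iff₀ (by positivity)]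
            calc (N i : ℝ)^2 * c^2 = (c * N i)^2 := by ring
              _ ≤ _ := h2
          have h5 : 0 ≤ (N i : ℝ)^2 := by positivity
          linarith
        rw [abs_mul, abs_of_nonneg (show 0 ≤ (N i : ℝ)^2/4 by positivity)]
        have h6 : (N i : ℝ)^2/4 * |DD (a i) (b i) (N i) j| ≤
            1 / c^2 * ((j:ℝ)+1)^K / 2 * (2 * r^j) :=
          mul_le_mul h3 (hd j) (abs_nonneg _) (by positivity)
        have h7 : 0 ≤ C * ((j:ℝ)+1)^K * r^j := by positivity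
        rw [hsplit]
        have h8 : 1 / c^2 * ((j:ℝ)+1)^K / 2 * (2 * r^j) = 1 / c^2 * (((j:ℝ)+1)^K * r^j) := by ring
        linarith
  refine hdc.congr fun i => ?_
  have h1 := hG1 (a i + 2) (b i + 2) (N i + 4)
  have h2 := hG1 (a i) (b i + 2) (N i + 2)
  have h3 := hG1 (a i + 2) (b i) (N i + 2)
  have h4 := hG1 (a i) (b i) (N i)
  exact ((((h1.sub h2).sub h3).add h4).mul_left ((N i : ℝ)^2/4)).tsum_eq

end Pool.Agent.H966.N5
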