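import Pool.Agent.H966.N5.Stm

set_option autoImplicit false

/-!
The local limit theorem for the two extents of the exploration path (helper966), TASK F2: the
termwise derivative of the series in the second variable (helper79).
-/

namespace Pool.Agent.H966.N5

open Pool.Agent.NH38.Fork (rf Bt)
open Pool.Agent.NH38.Fork.R4 (rf_pos Bt_pos)
open Pool.Agent.H966.T1 (S1_F4)
open Pool.Agent.H966.N1 (mainF Gc mainF_le mainF_sum mainF_nonneg)
open Filter Topology Finset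

namespace F2

/-- `g` is the logarithmic derivative of `f` at `t` -/
def LD (f : ℝ → ℝ) (g t : ℝ) : Prop := HasDerivAt f (f t * g) t

theorem LD.mul {f f' : ℝ → ℝ} {g g' t : ℝ} (h : LD f g t) (h' : LD f' g' t) :
    LD (fun s => f s * f' s) (g + g') t := by
  have h1 := HasDerivAt.mul h h'
  refine h1.congr_deriv ?_
  ring

theorem LD.const (c t : ℝ) : LD (fun _ => c) 0 t := by
  have h1 := hasDerivAt_const t c
  refine h1.congr_deriv ?_
  ring

theorem LD.pow {f : ℝ → ℝ} {g t : ℝ} (h : LD f g t) (n : ℕ) :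
    LD (fun s => f s ^ n) (n * g) t := by
  induction n with
  | zero =>
    have h1 := hasDerivAt_const t (1 : ℝ)
    have h2 : LD (fun _ => (1 : ℝ)) 0 t := LD.const 1 t
    simpa using h2
  | succ n ih =>
    have h1 := ih.mul h
    have h2 : ((n + 1 : ℕ) : ℝ) * g = n * g + g := by
      push_cast
      ring
    rw [h2]
    simpa only [pow_succ] using h1

theorem LD.rpow {f : ℝ → ℝ} {g t : ℝ} (h : LD f g t) (hf : 0 < f t) (p : ℝ) :
    LD (fun s => f s ^ p) (p * g) t := by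
  have h1 := HasDerivAt.rpow_const (p := p) h (Or.inl hf.ne')
  refine h1.congr_deriv ?_
  rw [Real.rpow_sub_one hf.ne']
  field_simp

theorem ld_x {α γ t : ℝ} (hS : α + γ + t ≠ 0) :
    LD (fun s => α / (α + γ + s)) (-1 / (α + γ + t)) t := by
  have h1 : HasDerivAt (fun s : ℝ => α + γ + s) 1 t := (hasDerivAt_id t).const_add (α + γ)
  have h2 := (hasDerivAt_const t α).div h1 hS
  refine h2.congr_deriv ?_
  field_simp
  ring

theorem ld_y {α γ t : ℝ} (hS : α + γ + t ≠ 0) (ht : t ≠ 0) :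
    LD (fun s => s / (α + γ + s)) (1 / t - 1 / (α + γ + t)) t := by
  have h1 : HasDerivAt (fun s : ℝ => α + γ + s) 1 t := (hasDerivAt_id t).const_add (α + γ)
  have h2 := (hasDerivAt_id t).div h1 hS
  refine h2.congr_deriv ?_
  simp only [id]
  field_simp

/-- derivative of a single term -/
theorem ld_TT {α γ t : ℝ} (hα : 0 < α) (hγ : 0 < γ) (ht : 0 < t) (l l' : ℕ) :
    HasDerivAt (fun s => TT l l' (α / (α + γ + s)) (s / (α + γ + s)))
      (TT l l' (α / (α + γ + t)) (t / (α + γ + t)) *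
        ((2 * (l' : ℝ) + 2 / 3) / t - (2 * ((l : ℝ) + l') + 4 / 3) / (α + γ + t))) t := by
  have hS : 0 < α + γ + t := by positivity
  have hx := ld_x (α := α) (γ := γ) (t := t) hS.ne'
  have hy := ld_y (α := α) (γ := γ) (t := t) hS.ne' ht.ne'
  have h1 := ((((LD.const 2 t).mul hx).mul hy).rpow (by positivity) ((2 : ℝ) / 3)).mul
    (LD.const (3 / (2 * Bt)) t)
  have h2 := h1.mul (LD.const (rf (2/3) (l+l') * rf (4/3) (l+l') /
    (rf (4/3) l * (Nat.factorial l : ℝ) * (rf (4/3) l' * (Nat.factorial l' : ℝ)))) t)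
  have h3 := (h2.mul ((hx.pow 2).pow l)).mul ((hy.pow 2).pow l')
  have h4 : HasDerivAt (fun s => TT l l' (α / (α + γ + s)) (s / (α + γ + s))) _ t := h3
  refine h4.congr_deriv ?_
  unfold TT
  congr 1
  push_cast
  field_simp
  ring

/-- the terms -/
noncomputable def g (α γ : ℝ) (j : ℕ) (t : ℝ) : ℝ :=
  (∑ p ∈ antidiagonal j, TT p.1 p.2 (α / (α + γ + t)) (t / (α + γ + t)) *
    br1 (2 * (p.1 : ℝ) + 2 / 3) (2 * (j : ℝ) + 4 / 3) (α / (α + γ + t))) / (α + γ + t)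

/-- their derivatives -/
noncomputable def g' (α γ : ℝ) (j : ℕ) (t : ℝ) : ℝ :=
  (∑ p ∈ antidiagonal j, TT p.1 p.2 (α / (α + γ + t)) (t / (α + γ + t)) *
    br2 (2 * (p.1 : ℝ) + 2 / 3) (2 * (p.2 : ℝ) + 2 / 3) (α / (α + γ + t))
      (t / (α + γ + t))) / (α + γ + t) ^ 2

theorem der_g {α γ t : ℝ} (hα : 0 < α) (hγ : 0 < γ) (ht : 0 < t) (j : ℕ) :
    HasDerivAt (g α γ j) (g' α γ j t) t := by
  have hS : 0 < α + γ + t := by positivity
  have e1 : g α γ j = fun s => ∑ p ∈ antidiagonal j,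
      TT p.1 p.2 (α / (α + γ + s)) (s / (α + γ + s)) *
        ((2 * (p.1 : ℝ) + 2 / 3) * (α + γ + s) / α - (2 * (j : ℝ) + 4 / 3)) / (α + γ + s) := by
    funext s
    unfold g br1
    rw [Finset.sum_div]
    refine Finset.sum_congr rfl fun p _ => ?_
    rw [div_div_eq_mul_div]
  rw [e1]
  unfold g'
  rw [Finset.sum_div]
  refine HasDerivAt.fun_sum fun p hp => ?_
  have hp' : (j : ℝ) = (p.1 : ℝ) + p.2 := by
    rw [HasAntidiagonal.mem_antidiagonal] at hp
    exact_mod_cast hp.symm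
  have h1 : HasDerivAt (fun s : ℝ => α + γ + s) 1 t := (hasDerivAt_id t).const_add (α + γ)
  have h2 := ((h1.const_mul (2 * (p.1 : ℝ) + 2 / 3)).div_const α).sub_const
    (2 * (j : ℝ) + 4 / 3)
  have h3 := ((ld_TT hα hγ ht p.1 p.2).mul h2).div h1 hS.ne'
  refine h3.congr_deriv ?_
  unfold br2
  rw [Pi.mul_apply, hp']
  generalize TT p.1 p.2 (α / (α + γ + t)) (t / (α + γ + t)) = T
  field_simp
  ring

theorem TT_nonneg (l l' : ℕ) {x y : ℝ} (hx : 0 ≤ x) (hy : 0 ≤ y) : 0 ≤ TT l l' x y := by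
  unfold TT
  have h1 := Bt_pos
  have h2 := rf_pos (s := 2/3) (by norm_num) (l + l')
  have h3 := rf_pos (s := 4/3) (by norm_num) (l + l')
  have h4 := rf_pos (s := 4/3) (by norm_num) l
  have h5 := rf_pos (s := 4/3) (by norm_num) l'
  positivity

/-- a weighted sum over the antidiagonal -/
theorem sum_bd (hD : S_D1) (j : ℕ) {x y : ℝ} (hx : 0 ≤ x) (hy : 0 ≤ y) (b : ℕ × ℕ → ℝ) (B : ℝ)
    (hb : ∀ p ∈ antidiagonal j, |b p| ≤ B) :
    |∑ p ∈ antidiagonal j, TT p.1 p.2 x y * b p| ≤ B * mainF j x y := by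
  refine (Finset.abs_sum_le_sum_abs _ _).trans ?_
  rw [hD j x y, Finset.mul_sum]
  refine Finset.sum_le_sum fun p hp => ?_
  rw [abs_mul, abs_of_nonneg (TT_nonneg _ _ hx hy), mul_comm]
  exact mul_le_mul_of_nonneg_right (hb p hp) (TT_nonneg _ _ hx hy)

theorem inv_bd {c x : ℝ} (hc : 0 < c) (hx : c ≤ x) : 1 / x ≤ 1 / c :=
  one_div_le_one_div_of_le hc hx

theorem br1_bd {c x : ℝ} (hc : 0 < c) (hx : c ≤ x) {j l l' : ℕ} (hj : l + l' = j) :
    |br1 (2 * (l : ℝ) + 2 / 3) (2 * (j : ℝ) + 4 / 3) x| ≤ (2 / c + 2) * ((j : ℝ) + 1) ^ 2 := by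
  have hx0 : 0 < x := hc.trans_le hx
  have h1 := inv_bd hc hx
  have hj' : (l : ℝ) + l' = j := by exact_mod_cast hj
  have hl : (0 : ℝ) ≤ l := Nat.cast_nonneg l
  have hl' : (0 : ℝ) ≤ l' := Nat.cast_nonneg l'
  have hJ : (0 : ℝ) ≤ j := Nat.cast_nonneg j
  have h2 : (0 : ℝ) < 1 / x := by positivity
  have h3 : (0 : ℝ) < 1 / c := by positivity
  unfold br1
  have h4 : (2 * (l : ℝ) + 2 / 3) / x = (2 * (l : ℝ) + 2 / 3) * (1 / x) := by ring
  have h5 : 2 / c = 2 * (1 / c) := by ring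
  rw [h4, h5]
  have h6 : (2 * (l : ℝ) + 2 / 3) * (1 / x) ≤ (2 * ((j : ℝ) + 1)) * (1 / c) :=
    mul_le_mul (by linarith) h1 h2.le (by positivity)
  have h7 : (0 : ℝ) ≤ (2 * (l : ℝ) + 2 / 3) * (1 / x) := by positivity
  have h8 : ((j : ℝ) + 1) ≤ ((j : ℝ) + 1) ^ 2 := by nlinarith
  have h9 : (2 * (1 / c) + 2) * ((j : ℝ) + 1) ≤ (2 * (1 / c) + 2) * ((j : ℝ) + 1) ^ 2 :=
    mul_le_mul_of_nonneg_left h8 (by positivity)
  rw [abs_le]
  constructor <;> nlinarith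

theorem br2_bd {c x y : ℝ} (hc : 0 < c) (hx : c ≤ x) (hy : c ≤ y) {j l l' : ℕ}
    (hj : l + l' = j) :
    |br2 (2 * (l : ℝ) + 2 / 3) (2 * (l' : ℝ) + 2 / 3) x y| ≤
      (4 * (1 / c) ^ 2 + 8 * (1 / c) + 6) * ((j : ℝ) + 1) ^ 2 := by
  have hx0 : 0 < x := hc.trans_le hx
  have hy0 : 0 < y := hc.trans_le hy
  have hx1 := inv_bd hc hx
  have hy1 := inv_bd hc hy
  have hj' : (l : ℝ) + l' = j := by exact_mod_cast hj
  have hl : (0 : ℝ) ≤ l := Nat.cast_nonneg l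
  have hl' : (0 : ℝ) ≤ l' := Nat.cast_nonneg l'
  have hJ : (0 : ℝ) ≤ j := Nat.cast_nonneg j
  have hx2 : (0 : ℝ) < 1 / x := by positivity
  have hy2 : (0 : ℝ) < 1 / y := by positivity
  have hc2 : (0 : ℝ) < 1 / c := by positivity
  obtain ⟨P, hP⟩ : ∃ P, P = 2 * (l : ℝ) + 2 / 3 := ⟨_, rfl⟩
  obtain ⟨Q, hQ⟩ : ∃ Q, Q = 2 * (l' : ℝ) + 2 / 3 := ⟨_, rfl⟩
  obtain ⟨R, hR⟩ : ∃ R, R = 2 * ((j : ℝ) + 1) := ⟨_, rfl⟩
  rw [← hP, ← hQ]
  have hP0 : 0 ≤ P := by rw [hP]; positivity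
  have hQ0 : 0 ≤ Q := by rw [hQ]; positivity
  have hPQ : P + Q ≤ R := by rw [hP, hQ, hR]; linarith
  have hPR : P ≤ R := by linarith
  have hQR : Q ≤ R := by linarith
  have hR1 : 1 ≤ R := by rw [hR]; linarith
  have e1 : br2 P Q x y = P * Q * (1 / x * (1 / y)) - (P + Q) * P * (1 / x) -
      (P + Q) * Q * (1 / y) + (P + Q) * (P + Q + 1) := by
    unfold br2
    field_simp
  have b1 : P * Q * (1 / x * (1 / y)) ≤ R * R * (1 / c * (1 / c)) :=
    mul_le_mul (mul_le_mul hPR hQR hQ0 (by linarith))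
      (mul_le_mul hx1 hy1 hy2.le hc2.le) (by positivity) (by nlinarith)
  have b2 : (P + Q) * P * (1 / x) ≤ R * R * (1 / c) :=
    mul_le_mul (mul_le_mul hPQ hPR hP0 (by linarith)) hx1 hx2.le (by nlinarith)
  have b3 : (P + Q) * Q * (1 / y) ≤ R * R * (1 / c) :=
    mul_le_mul (mul_le_mul hPQ hQR hQ0 (by linarith)) hy1 hy2.le (by nlinarith)
  have b4 : (P + Q) * (P + Q + 1) ≤ R * (R + 1) :=
    mul_le_mul hPQ (by linarith) (by linarith) (by linarith)
  have c1 : 0 ≤ P * Q * (1 / x * (1 / y)) := by positivity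
  have c2 : 0 ≤ (P + Q) * P * (1 / x) := by positivity
  have c3 : 0 ≤ (P + Q) * Q * (1 / y) := by positivity
  have c4 : 0 ≤ (P + Q) * (P + Q + 1) := by positivity
  have d1 : R * R * (1 / c * (1 / c)) + R * R * (1 / c) + R * R * (1 / c) + R * (R + 1) ≤
      (4 * (1 / c) ^ 2 + 8 * (1 / c) + 6) * ((j : ℝ) + 1) ^ 2 := by
    have d2 : R * R * (1 / c * (1 / c)) + R * R * (1 / c) + R * R * (1 / c) + R * (R + 1) =
        (4 * (1 / c) ^ 2 + 8 * (1 / c) + 4) * ((j : ℝ) + 1) ^ 2 + 2 * ((j : ℝ) + 1) := by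
      rw [hR]
      ring
    rw [d2]
    nlinarith
  rw [e1, abs_le]
  constructor <;> linarith

/-- the geometric bound -/
theorem main_bd (hF : S1_F4) (j : ℕ) {x y x' y' s : ℝ} (hx : 0 ≤ x) (hy : 0 ≤ y) (hs : 0 ≤ s)
    (hs1 : s ≤ 1) (hxx : x ≤ s * x') (hyy : y ≤ s * y') (hx' : 0 < x') (hy' : 0 < y')
    (hxy : x' + y' < 1) : mainF j x y ≤ s ^ j * Gc x' y' := by
  refine (mainF_le j hx hy hs hs1 hxx hyy hx'.le hy'.le).trans ?_
  refine mul_le_mul_of_nonneg_left ?_ (pow_nonneg hs j)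
  exact le_hasSum (mainF_sum hF hx' hy' hxy) j fun i _ => mainF_nonneg i hx'.le hy'.le

theorem summ {r : ℝ} (hr : 0 < r) (hr1 : r < 1) (K : ℝ) :
    Summable fun j : ℕ => K * (((j : ℝ) + 1) ^ 2 * r ^ j) := by
  have h1 := summable_pow_mul_geometric_of_norm_lt_one (R := ℝ) 2
    (r := r) (by rw [Real.norm_of_nonneg hr.le]; exact hr1)
  have h2 := (summable_nat_add_iff 1).2 h1
  refine (h2.mul_left (K * r⁻¹)).congr fun j => ?_
  push_cast
  rw [pow_succ r j]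
  field_simp

end F2

open F2 in
theorem t_F2 : S_F2 := by
  intro hF hD α γ β hα hγ hβ
  have hS : 0 < α + γ + β := by positivity
  obtain ⟨x0, hx0⟩ : ∃ x0, x0 = α / (α + γ + β) := ⟨_, rfl⟩
  obtain ⟨y0, hy0⟩ : ∃ y0, y0 = β / (α + γ + β) := ⟨_, rfl⟩
  have hx0p : 0 < x0 := by rw [hx0]; positivity
  have hy0p : 0 < y0 := by rw [hy0]; positivity
  have hxy : x0 + y0 < 1 := by
    rw [hx0, hy0, ← add_div, div_lt_one hS]
    linarith
  obtain ⟨r, hr0, hr1, hr2⟩ : ∃ r : ℝ, 0 < r ∧ r < 1 ∧ x0 + y0 < r ^ 2 := by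
    refine ⟨(1 + (x0 + y0)) / 2, by linarith, by linarith, ?_⟩
    nlinarith [sq_nonneg (1 - (x0 + y0))]
  have hr2p : 0 < r ^ 2 := by positivity
  have hρ : 0 < x0 / r ^ 2 := by positivity
  have hσ : 0 < y0 / r ^ 2 := by positivity
  have hρσ : x0 / r ^ 2 + y0 / r ^ 2 < 1 := by
    rw [← add_div, div_lt_one hr2p]
    exact hr2
  have eρ : r * (x0 / r ^ 2) = x0 / r := by field_simp
  have eσ : r * (y0 / r ^ 2) = y0 / r := by field_simp
  have hx0r : x0 < x0 / r := by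
    rw [lt_div_iff₀ hr0]
    nlinarith
  have hy0r : y0 < y0 / r := by
    rw [lt_div_iff₀ hr0]
    nlinarith
  -- the neighbourhood
  have cS : ContinuousAt (fun t : ℝ => α + γ + t) β := by fun_prop
  have cx : ContinuousAt (fun t : ℝ => α / (α + γ + t)) β := continuousAt_const.div cS hS.ne'
  have cy : ContinuousAt (fun t : ℝ => t / (α + γ + t)) β := continuousAt_id.div cS hS.ne'
  have v1 : ∀ᶠ t in 𝓝 β, α / (α + γ + t) < x0 / r := cx.eventually_lt_const (by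
    change α / (α + γ + β) < x0 / r
    rw [← hx0]; exact hx0r)
  have v2 : ∀ᶠ t in 𝓝 β, t / (α + γ + t) < y0 / r := cy.eventually_lt_const (by
    change β / (α + γ + β) < y0 / r
    rw [← hy0]; exact hy0r)
  have v3 : ∀ᶠ t in 𝓝 β, β / 2 < t := eventually_gt_nhds (by linarith)
  have v4 : ∀ᶠ t in 𝓝 β, t < 2 * β := eventually_lt_nhds (by linarith)
  obtain ⟨ε, hε, hball⟩ := Metric.eventually_nhds_iff_ball.1 (v1.and (v2.and (v3.and v4)))
  -- the lower bound for the arguments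
  obtain ⟨m, hm⟩ : ∃ m, m = α + γ + 2 * β := ⟨_, rfl⟩
  have hm0 : 0 < m := by rw [hm]; positivity
  obtain ⟨c, hc⟩ : ∃ c, c = min α (β / 2) / m := ⟨_, rfl⟩
  have hc0 : 0 < c := by
    rw [hc]
    exact div_pos (lt_min hα (by linarith)) hm0
  have hcx : ∀ t, 0 < t → t < 2 * β → c ≤ α / (α + γ + t) := by
    intro t ht ht2
    rw [hc]
    exact div_le_div₀ hα.le (min_le_left _ _) (by positivity) (by linarith)
  have hcy : ∀ t, β / 2 < t → t < 2 * β → c ≤ t / (α + γ + t) := by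
    intro t ht ht2
    have ht0 : 0 < t := by linarith
    rw [hc]
    exact div_le_div₀ ht0.le ((min_le_right _ _).trans ht.le) (by positivity) (by linarith)
  obtain ⟨G, hG⟩ : ∃ G, G = Gc (x0 / r ^ 2) (y0 / r ^ 2) := ⟨_, rfl⟩
  have hbd : ∀ t ∈ Metric.ball β ε, 0 < t ∧ t < 2 * β ∧ β / 2 < t ∧
      ∀ j, mainF j (α / (α + γ + t)) (t / (α + γ + t)) ≤ r ^ j * G := by
    intro t ht
    obtain ⟨u1, u2, u3, u4⟩ := hball t ht
    have ht0 : 0 < t := by linarith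
    refine ⟨ht0, u4, u3, fun j => ?_⟩
    rw [hG]
    exact main_bd hF j (by positivity) (by positivity) hr0.le hr1.le (by rw [eρ]; exact u1.le)
      (by rw [eσ]; exact u2.le) hρ hσ hρσ
  have hβball : β ∈ Metric.ball β ε := Metric.mem_ball_self hε
  have key := hasDerivAt_tsum_of_isPreconnected (𝕜 := ℝ) (g := g α γ) (g' := g' α γ)
    (u := fun j : ℕ => ((4 * (1 / c) ^ 2 + 8 * (1 / c) + 6) * G / (α + γ) ^ 2) *
      (((j : ℝ) + 1) ^ 2 * r ^ j)) (t := Metric.ball β ε) (y₀ := β) (y := β)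
    (summ hr0 hr1 _) Metric.isOpen_ball (convex_ball β ε).isPreconnected
    (fun j t ht => der_g hα hγ (hbd t ht).1 j) (by
      intro j t ht
      obtain ⟨ht0, ht2, ht1, hj⟩ := hbd t ht
      have hS' : 0 < α + γ + t := by positivity
      have h1 := sum_bd hD j (x := α / (α + γ + t)) (y := t / (α + γ + t)) (by positivity)
        (by positivity) (fun p => br2 (2 * (p.1 : ℝ) + 2 / 3) (2 * (p.2 : ℝ) + 2 / 3)
          (α / (α + γ + t)) (t / (α + γ + t)))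
        ((4 * (1 / c) ^ 2 + 8 * (1 / c) + 6) * ((j : ℝ) + 1) ^ 2)
        (fun p hp => br2_bd hc0 (hcx t ht0 ht2) (hcy t ht1 ht2)
          (HasAntidiagonal.mem_antidiagonal.1 hp))
      have h2 : (4 * (1 / c) ^ 2 + 8 * (1 / c) + 6) * ((j : ℝ) + 1) ^ 2 *
          mainF j (α / (α + γ + t)) (t / (α + γ + t)) ≤
          (4 * (1 / c) ^ 2 + 8 * (1 / c) + 6) * ((j : ℝ) + 1) ^ 2 * (r ^ j * G) :=
        mul_le_mul_of_nonneg_left (hj j) (by positivity)
      have h3 := h1.trans h2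
      have h4 : 0 ≤ (4 * (1 / c) ^ 2 + 8 * (1 / c) + 6) * ((j : ℝ) + 1) ^ 2 * (r ^ j * G) :=
        (abs_nonneg _).trans h3
      rw [Real.norm_eq_abs]
      unfold F2.g'
      rw [abs_div, abs_of_pos (pow_pos hS' 2)]
      calc _ ≤ (4 * (1 / c) ^ 2 + 8 * (1 / c) + 6) * ((j : ℝ) + 1) ^ 2 * (r ^ j * G) /
            (α + γ) ^ 2 := by
            refine div_le_div₀ h4 h3 (by positivity) ?_
            exact pow_le_pow_left₀ (by positivity) (by linarith) 2
        _ = _ := by ring) hβball (by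
      obtain ⟨ht0, ht2, ht1, hj⟩ := hbd β hβball
      refine Summable.of_norm_bounded (g := fun j : ℕ => ((2 / c + 2) * G / (α + γ + β)) *
        (((j : ℝ) + 1) ^ 2 * r ^ j)) (summ hr0 hr1 _) fun j => ?_
      have h1 := sum_bd hD j (x := α / (α + γ + β)) (y := β / (α + γ + β)) (by positivity)
        (by positivity) (fun p => br1 (2 * (p.1 : ℝ) + 2 / 3) (2 * (j : ℝ) + 4 / 3)
          (α / (α + γ + β)))
        ((2 / c + 2) * ((j : ℝ) + 1) ^ 2)
        (fun p hp => br1_bd hc0 (hcx β ht0 ht2) (HasAntidiagonal.mem_antidiagonal.1 hp))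
      have h2 : (2 / c + 2) * ((j : ℝ) + 1) ^ 2 *
          mainF j (α / (α + γ + β)) (β / (α + γ + β)) ≤
          (2 / c + 2) * ((j : ℝ) + 1) ^ 2 * (r ^ j * G) :=
        mul_le_mul_of_nonneg_left (hj j) (by positivity)
      have h3 := h1.trans h2
      rw [Real.norm_eq_abs]
      unfold F2.g
      rw [abs_div, abs_of_pos hS]
      calc _ ≤ (2 / c + 2) * ((j : ℝ) + 1) ^ 2 * (r ^ j * G) / (α + γ + β) :=
            div_le_div_of_nonneg_right h3 hS.le
        _ = _ := by ring) hβball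
  have e1 : (fun t => H1 (α / (α + γ + t)) (t / (α + γ + t)) / (α + γ + t)) =
      fun t => ∑' j, F2.g α γ j t := by
    funext t
    unfold H1 F2.g
    rw [tsum_div_const]
  have e2 : H2 (α / (α + γ + β)) (β / (α + γ + β)) / (α + γ + β) ^ 2 =
      ∑' j, F2.g' α γ j β := by
    unfold H2 F2.g'
    rw [tsum_div_const]
  rw [e1, e2]
  exact key

end Pool.Agent.H966.N5
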