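import Pool.Agent.H966.N5.Stm
import Pool.Agent.H966.EX.Lim

set_option autoImplicit false

/-!
The local limit theorem for the extents: from the series to the exploration path (helper966).
-/

namespace Pool.Agent.H966.N5

open Pool.Agent.H988R2.Perc hiding X
open Pool.Agent.H966.T1 (nj FT S1_F4)
open Pool.Agent.H966.EX (ExitBank)
open MeasureTheory Filter Topology Finset

/-- the exact formula -/
theorem bank_FT {a m c : ℕ} (ha : Odd a) (hm : Even m) (hm2 : 2 ≤ m) (hc : Odd c) :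
    perc.real (ExitBank a m (c+1)) = ((FT a c (a + c + m) : ℚ) : ℝ) := by
  have h0 : perc.real (ExitBank a m (c+1)) = perc.real (Pool.Agent.H966.T1.FCross1 a m c) :=
    Pool.Agent.H966.EX.bank_val ha.pos (by omega) hc.pos
  obtain ⟨l, hl⟩ := hm
  obtain ⟨k, rfl⟩ : ∃ k, m = 2*k+2 := ⟨l - 1, by omega⟩
  have h1 := Pool.Agent.H966.T1.t_Exact a k c ha hc
  rw [← Pool.Agent.H966.T1.G.cross_eq ha] at h1
  rw [h0, h1, show a + c + 2 + 2*k = a + c + (2*k+2) by ring]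

/-- the widths: `a` odd, `m`, `b` even -/
structure Wd (α γ β : ℝ) (δ : ℕ → ℝ) (a m b : ℕ → ℕ) : Prop where
  hα : 0 < α
  hγ : 0 < γ
  hβ : 0 < β
  hδ : ∀ n, 0 < δ n
  hδ0 : Tendsto δ atTop (𝓝 0)
  oa : ∀ n, Odd (a n)
  em : ∀ n, Even (m n)
  eb : ∀ n, Even (b n)
  la : Tendsto (fun n => δ n * a n) atTop (𝓝 α)
  lm : Tendsto (fun n => δ n * m n) atTop (𝓝 γ)
  lb : Tendsto (fun n => δ n * b n) atTop (𝓝 β)

variable {α γ β : ℝ} {δ : ℕ → ℝ} {a m b : ℕ → ℕ}

theorem Wd.ev (W : Wd α γ β δ a m b) : ∀ᶠ n in atTop, 2 ≤ m n ∧ 2 ≤ b n := by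
  have ev : ∀ (c : ℝ) (k : ℕ → ℕ), 0 < c → Tendsto (fun n => δ n * k n) atTop (𝓝 c) →
      ∀ᶠ n in atTop, 2 ≤ k n := by
    intro c k hc hk
    have h2 := (Pool.Agent.NH38.Fork.GF.lim_top W.hδ W.hδ0 hc hk).eventually_ge_atTop 2
    filter_upwards [h2] with n hn
    exact_mod_cast hn
  filter_upwards [ev γ m W.hγ W.lm, ev β b W.hβ W.lb] with n e2 e3
  exact ⟨e2, e3⟩

/-- the sequences of the exact formula, from the index `n0` on -/
theorem Wd.seq (W : Wd α γ β δ a m b) : ∃ n0 : ℕ, (∀ n, 2 ≤ m (n + n0) ∧ 2 ≤ b (n + n0)) ∧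
    Seq (fun n => a (n + n0)) (fun n => b (n + n0) - 1)
      (fun n => a (n + n0) + (b (n + n0) - 1) + m (n + n0)) (α/(α+γ+β)) (β/(α+γ+β)) ∧
    Tendsto (fun n => δ (n + n0) * ((a (n + n0) + (b (n + n0) - 1) + m (n + n0) : ℕ) : ℝ)) atTop
      (𝓝 (α+γ+β)) := by
  obtain ⟨n0, hn0⟩ := eventually_atTop.1 W.ev
  have hl : ∀ n, 2 ≤ m (n + n0) ∧ 2 ≤ b (n + n0) := fun n => hn0 (n + n0) (Nat.le_add_left _ _)
  have sh : Tendsto (fun n => n + n0) atTop atTop := tendsto_add_atTop_nat n0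
  have hα := W.hα
  have hγ := W.hγ
  have hβ := W.hβ
  have hS : 0 < α + γ + β := by positivity
  have h1 := W.la.comp sh
  have h2 := W.lm.comp sh
  have h3 : Tendsto (fun n => δ (n + n0) * ((b (n + n0) - 1 : ℕ) : ℝ)) atTop (𝓝 β) := by
    have h := (W.lb.comp sh).sub (W.hδ0.comp sh)
    rw [sub_zero] at h
    refine h.congr fun n => ?_
    simp only [Function.comp_apply]
    rw [Nat.cast_sub (by have := (hl n).2; omega), Nat.cast_one]
    ring
  have hN : Tendsto (fun n => δ (n + n0) * ((a (n + n0) + (b (n + n0) - 1) + m (n + n0) : ℕ) : ℝ))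
      atTop (𝓝 (α+γ+β)) := by
    have h := (h1.add h3).add h2
    rw [show α + β + γ = α + γ + β by ring] at h
    refine h.congr fun n => ?_
    simp only [Function.comp_apply]
    push_cast
    ring
  refine ⟨n0, hl, ⟨by positivity, by positivity, ?_, fun n => W.oa _, ?_, ?_, ?_, ?_, ?_, ?_⟩, hN⟩
  · rw [← add_div, div_lt_one hS]
    linarith
  · intro n
    obtain ⟨l, hl'⟩ := W.eb (n + n0)
    have := (hl n).2
    exact ⟨l - 1, by omega⟩
  · intro n
    obtain ⟨l, hl'⟩ := W.eb (n + n0)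
    obtain ⟨l1, hl1⟩ := W.oa (n + n0)
    obtain ⟨l2, hl2⟩ := W.em (n + n0)
    have := (hl n).2
    exact ⟨l + l1 + l2, by omega⟩
  · intro n
    have := (hl n).1
    show a (n + n0) + (b (n + n0) - 1) < a (n + n0) + (b (n + n0) - 1) + m (n + n0)
    omega
  · rw [← tendsto_natCast_atTop_iff (R := ℝ)]
    exact Pool.Agent.NH38.Fork.GF.lim_top (fun n => W.hδ (n + n0)) (W.hδ0.comp sh) hS hN
  · refine (h1.div hN hS.ne').congr fun n => ?_
    simp only [Pi.div_apply, Function.comp_apply]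
    rw [mul_div_mul_left _ _ (W.hδ _).ne']
  · refine (h3.div hN hS.ne').congr fun n => ?_
    simp only [Pi.div_apply]
    rw [mul_div_mul_left _ _ (W.hδ _).ne']

/-- the joint local limit theorem -/
theorem llt2 (hL : S_Lim2)
    (hid : ∀ α γ β : ℝ, 0 < α → 0 < γ → 0 < β →
      H2 (α/(α+γ+β)) (β/(α+γ+β)) / (α+γ+β)^2 = ff α γ β) (W : Wd α γ β δ a m b) :
    Tendsto (fun n => (perc.real (ExitBank (a n + 2) (m n) (b n + 2)) -
      perc.real (ExitBank (a n) (m n) (b n + 2)) - perc.real (ExitBank (a n + 2) (m n) (b n)) +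
      perc.real (ExitBank (a n) (m n) (b n))) / (2 * δ n)^2) atTop (𝓝 (ff α γ β)) := by
  obtain ⟨n0, hl, hs, hN⟩ := W.seq
  have hS : 0 < α + γ + β := by have := W.hα; have := W.hγ; have := W.hβ; positivity
  have h1 := hL _ _ _ _ _ hs
  have h2 := h1.div (hN.pow 2) (by positivity)
  rw [hid α γ β W.hα W.hγ W.hβ] at h2
  rw [← tendsto_add_atTop_iff_nat n0]
  refine h2.congr fun n => ?_
  obtain ⟨g1, g2⟩ := hl n
  have o := W.oa (n + n0)
  have e := W.em (n + n0)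
  have o2 : Odd (a (n + n0) + 2) := by obtain ⟨l, h⟩ := o; exact ⟨l + 1, by omega⟩
  have oc : Odd (b (n + n0) - 1) := hs.hb n
  have oc2 : Odd (b (n + n0) - 1 + 2) := by obtain ⟨l, h⟩ := oc; exact ⟨l + 1, by omega⟩
  have eb : b (n + n0) - 1 + 1 = b (n + n0) := by omega
  have eb2 : b (n + n0) - 1 + 2 + 1 = b (n + n0) + 2 := by omega
  have f1 := bank_FT o e g1 oc
  have f2 := bank_FT o2 e g1 oc
  have f3 := bank_FT o e g1 oc2
  have f4 := bank_FT o2 e g1 oc2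
  rw [eb] at f1 f2
  rw [eb2] at f3 f4
  rw [f1, f2, f3, f4]
  have k2 : a (n + n0) + 2 + (b (n + n0) - 1) + m (n + n0) =
      a (n + n0) + (b (n + n0) - 1) + m (n + n0) + 2 := by ring
  have k3 : a (n + n0) + (b (n + n0) - 1 + 2) + m (n + n0) =
      a (n + n0) + (b (n + n0) - 1) + m (n + n0) + 2 := by ring
  have k4 : a (n + n0) + 2 + (b (n + n0) - 1 + 2) + m (n + n0) =
      a (n + n0) + (b (n + n0) - 1) + m (n + n0) + 4 := by ring
  rw [k2, k3, k4]
  simp only [Pi.div_apply]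
  have hd := (W.hδ (n + n0)).ne'
  have hNp : ((a (n + n0) + (b (n + n0) - 1) + m (n + n0) : ℕ) : ℝ) ≠ 0 := by
    have : 0 < a (n + n0) + (b (n + n0) - 1) + m (n + n0) := by omega
    exact_mod_cast this.ne'
  field_simp
  ring

/-- the local limit theorem for the left extent -/
theorem llt1 (hL : S_Lim1)
    (hid : ∀ α γ β : ℝ, 0 < α → 0 < γ → 0 < β →
      H1 (α/(α+γ+β)) (β/(α+γ+β)) / (α+γ+β) = hh α γ β) (W : Wd α γ β δ a m b) :
    Tendsto (fun n => (perc.real (ExitBank (a n + 2) (m n) (b n)) -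
      perc.real (ExitBank (a n) (m n) (b n))) / (2 * δ n)) atTop (𝓝 (hh α γ β)) := by
  obtain ⟨n0, hl, hs, hN⟩ := W.seq
  have hS : 0 < α + γ + β := by have := W.hα; have := W.hγ; have := W.hβ; positivity
  have h1 := hL _ _ _ _ _ hs
  have h2 := h1.div hN (by positivity)
  rw [hid α γ β W.hα W.hγ W.hβ] at h2
  rw [← tendsto_add_atTop_iff_nat n0]
  refine h2.congr fun n => ?_
  obtain ⟨g1, g2⟩ := hl n
  have o := W.oa (n + n0)
  have e := W.em (n + n0)
  have o2 : Odd (a (n + n0) + 2) := by obtain ⟨l, h⟩ := o; exact ⟨l + 1, by omega⟩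
  have oc : Odd (b (n + n0) - 1) := hs.hb n
  have eb : b (n + n0) - 1 + 1 = b (n + n0) := by omega
  have f1 := bank_FT o e g1 oc
  have f2 := bank_FT o2 e g1 oc
  rw [eb] at f1 f2
  rw [f1, f2]
  have k2 : a (n + n0) + 2 + (b (n + n0) - 1) + m (n + n0) =
      a (n + n0) + (b (n + n0) - 1) + m (n + n0) + 2 := by ring
  rw [k2]
  simp only [Pi.div_apply]
  have hd := (W.hδ (n + n0)).ne'
  have hNp : ((a (n + n0) + (b (n + n0) - 1) + m (n + n0) : ℕ) : ℝ) ≠ 0 := by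
    have : 0 < a (n + n0) + (b (n + n0) - 1) + m (n + n0) := by omega
    exact_mod_cast this.ne'
  field_simp

end Pool.Agent.H966.N5
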