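import Pool.Agent.H966.N5.Stm
import Pool.Agent.H966.N1.Re

set_option autoImplicit false

/-!
The local limit theorem for the extents: geometric bounds of the terms, the exact ratio of the
weights (helper966).
-/

namespace Pool.Agent.H966.N5

open Pool.Agent.NH38.Fork (sv t_pos)
open Pool.Agent.H966.T1 (nj FT M1)
open Pool.Agent.H966.T1.A3 (M1_pos nj_nonneg nj_le nj_eq hf)
open Filter Topology Finset

namespace G

theorem hcg (x y j : ℕ) : 0 ≤ (sv x * sv y).coeff j := by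
  rw [Polynomial.coeff_mul]
  exact Finset.sum_nonneg fun p _ => mul_nonneg (t_pos x p.1).2 (t_pos y p.2).2

theorem M1_succ (n : ℕ) : M1 (n+1) = M1 n *
    ((2*(n:ℚ) + 3) * (3*n + 10) / ((n + 4) * (6*n + 13))) := by
  unfold M1
  rw [Finset.prod_range_succ]
  ring

end G

open G

theorem t_G1 : S_G1 := by
  intro a b N
  have h1 : HasSum (tt a b N) (∑ j ∈ range ((a + b) / 2), tt a b N j) := by
    apply hasSum_sum_of_ne_finset_zero
    intro j hj
    unfold tt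
    rw [if_neg (by rwa [mem_range] at hj)]
  have h2 : ∑ j ∈ range ((a + b) / 2), tt a b N j = ((FT a b N : ℚ) : ℝ) := by
    unfold FT
    push_cast
    refine Finset.sum_congr rfl fun j hj => ?_
    unfold tt
    rw [if_pos (mem_range.mp hj)]
    push_cast
    rfl
  rwa [h2] at h1

theorem t_g : S_g := by
  intro N j hN h4 hj
  obtain ⟨M, hM⟩ := hN
  obtain ⟨n, rfl⟩ : ∃ n, N = 2*n + 4 := ⟨M - 2, by omega⟩
  have e1 : (2*n + 4 + 2 - 4)/2 = n + 1 := by omega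
  have e2 : (2*n + 4 - 4)/2 = n := by omega
  have hq : nj (2*n+4+2) j = (1 - (2*((2*n+4 : ℕ):ℚ)+3)*(6*(j:ℚ)+4)/
      ((3*((2*n+4 : ℕ):ℚ)+1)*(((2*n+4 : ℕ):ℚ)+4+2*j))) * nj (2*n+4) j := by
    have hprod : ∀ j : ℕ, 2*j + 4 ≤ 2*n + 4 →
        (∏ i ∈ range j, (4 * ((i:ℚ) + 2/3) * (i + 4/3) / ((((2*n+4+2 : ℕ):ℚ) - 3 - 2*i) *
          (((2*n+4+2 : ℕ):ℚ) + 4 + 2*i)))) =
        (∏ i ∈ range j, (4 * ((i:ℚ) + 2/3) * (i + 4/3) / ((((2*n+4 : ℕ):ℚ) - 3 - 2*i) *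
          (((2*n+4 : ℕ):ℚ) + 4 + 2*i)))) *
          ((((2*n+4 : ℕ):ℚ) - 1 - 2*j) * (((2*n+4 : ℕ):ℚ) + 4) / ((((2*n+4 : ℕ):ℚ) - 1) *
            (((2*n+4 : ℕ):ℚ) + 4 + 2*j))) := by
      intro j
      induction j with
      | zero =>
        intro _
        have h1 : (((2*n+4 : ℕ):ℚ) - 1) ≠ 0 := by
          push_cast
          have : (0:ℚ) ≤ n := Nat.cast_nonneg n
          linarith
        have h2 : (((2*n+4 : ℕ):ℚ) + 4) ≠ 0 := by positivity
        simp only [Finset.prod_range_zero, Nat.cast_zero, mul_zero, sub_zero, add_zero, one_mul]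
        rw [div_self (mul_ne_zero h1 h2)]
      | succ j ih =>
        intro hj
        have hjn : (j:ℚ) + 1 ≤ n := by
          have : j + 1 ≤ n := by omega
          exact_mod_cast this
        rw [Finset.prod_range_succ, ih (by omega), Finset.prod_range_succ]
        have hj0 : (0:ℚ) ≤ j := Nat.cast_nonneg j
        have hn0 : (0:ℚ) ≤ n := Nat.cast_nonneg n
        have g1 : ((2*(n:ℚ)+4) - 3 - 2*j) ≠ 0 := by
          have : (0:ℚ) < (2*(n:ℚ)+4) - 3 - 2*j := by linarith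
          exact this.ne'
        have g2 : ((2*(n:ℚ)+4) + 4 + 2*j) ≠ 0 := by positivity
        have g3 : ((2*(n:ℚ)+4+2) - 3 - 2*j) ≠ 0 := by
          have : (0:ℚ) < (2*(n:ℚ)+4+2) - 3 - 2*j := by linarith
          exact this.ne'
        have g4 : ((2*(n:ℚ)+4+2) + 4 + 2*j) ≠ 0 := by positivity
        have g5 : ((2*(n:ℚ)+4) - 1) ≠ 0 := by
          have : (0:ℚ) < (2*(n:ℚ)+4) - 1 := by linarith
          exact this.ne'
        have g6 : ((2*(n:ℚ)+4) + 4 + 2*(j+1)) ≠ 0 := by positivity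
        push_cast
        have e : ∀ A : ℚ, A * (((2*(n:ℚ)+4) - 1 - 2*j) * ((2*(n:ℚ)+4) + 4) / (((2*(n:ℚ)+4) - 1) *
            ((2*(n:ℚ)+4) + 4 + 2*j))) * (4 * ((j:ℚ) + 2/3) * (j + 4/3) /
              (((2*(n:ℚ)+4+2) - 3 - 2*j) * ((2*(n:ℚ)+4+2) + 4 + 2*j))) =
          A * (4 * ((j:ℚ) + 2/3) * (j + 4/3) / (((2*(n:ℚ)+4) - 3 - 2*j) * ((2*(n:ℚ)+4) + 4 + 2*j))) *
            (((2*(n:ℚ)+4) - 1 - 2*(j+1)) * ((2*(n:ℚ)+4) + 4) / (((2*(n:ℚ)+4) - 1) *
            ((2*(n:ℚ)+4) + 4 + 2*(j+1)))) := by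
          intro A
          field_simp
          ring
        exact e _
    unfold nj
    rw [e1, e2, M1_succ, hprod j hj]
    have hn0 : (0:ℚ) ≤ n := Nat.cast_nonneg n
    have hj0 : (0:ℚ) ≤ j := Nat.cast_nonneg j
    set Pr := ∏ i ∈ range j, (4 * ((i:ℚ) + 2/3) * (i + 4/3) / ((((2*n+4 : ℕ):ℚ) - 3 - 2*i) *
          (((2*n+4 : ℕ):ℚ) + 4 + 2*i)))
    push_cast
    have g1 : ((2*(n:ℚ)+4) - 1) ≠ 0 := by
      have : (0:ℚ) < (2*(n:ℚ)+4) - 1 := by linarith
      exact this.ne'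
    have g2 : ((2*(n:ℚ)+4) + 4 + 2*j) ≠ 0 := by positivity
    have g3 : ((n:ℚ) + 4) ≠ 0 := by positivity
    have g4 : (6*(n:ℚ) + 13) ≠ 0 := by positivity
    have g5 : (3*(2*(n:ℚ)+4)+1) ≠ 0 := by positivity
    field_simp
    ring
  rw [hq]
  unfold gN
  push_cast
  ring

theorem t_G2 : S_G2 := by
  intro a b N ρ σ h
  obtain ⟨hρ, hσ, hρσ, ha, hb, hN, habN, hNt, hla, hlb⟩ := h
  set N0 : ℕ → ℕ := fun i => a i + b i + 2 with hN0
  have hN0e : ∀ i, a i + b i + 2 = N0 i := fun i => rfl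
  have hNN : ∀ i, N0 i ≤ N i := fun i => by
    obtain ⟨x, hx⟩ := ha i
    obtain ⟨y, hy⟩ := hb i
    obtain ⟨z, hz⟩ := hN i
    have := habN i
    show a i + b i + 2 ≤ N i
    omega
  have hN4 : ∀ i, 4 ≤ N i := fun i => by
    have h1 := (ha i).pos
    have h2 := (hb i).pos
    have h3 := hNN i
    have h4 := hN0e i
    omega
  have hNt' : Tendsto (fun i => ((N i : ℕ) : ℝ)) atTop atTop :=
    tendsto_natCast_atTop_atTop.comp hNt
  have hNpos : ∀ i, (0:ℝ) < N i := fun i => by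
    have : 0 < N i := by have := hN4 i; omega
    exact_mod_cast this
  set r : ℝ := (1 + (ρ + σ)) / 2 with hr
  have hr1 : r < 1 := by rw [hr]; linarith
  have hr0 : 0 < r := by rw [hr]; linarith
  have ev : ∀ᶠ i in atTop, (N0 i : ℝ) - 3 ≤ r * (N i - 3) := by
    have hcN : Tendsto (fun i => 2 / (N i : ℝ)) atTop (𝓝 0) :=
      Tendsto.div_atTop tendsto_const_nhds hNt'
    have g1 : Tendsto (fun i => ((a i : ℝ) / N i + (b i : ℝ) / N i) + 2 / (N i : ℝ)) atTop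
        (𝓝 ((ρ+σ) + 0)) := (hla.add hlb).add hcN
    have g2 : (ρ+σ) + 0 < r := by rw [hr]; linarith
    filter_upwards [g1.eventually (gt_mem_nhds g2)] with i q8
    rw [← add_div, ← add_div, div_lt_iff₀ (hNpos i)] at q8
    have h3 : (a i : ℝ) + b i + 2 = N0 i := by exact_mod_cast hN0e i
    rw [h3] at q8
    nlinarith
  refine ⟨r, hr0, hr1, ?_⟩
  filter_upwards [ev] with i hi j
  by_cases hj : j < (a i + b i) / 2
  · have hj2 : 2 * j + 2 ≤ N0 i := by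
      show 2 * j + 2 ≤ a i + b i + 2
      omega
    have hj3 : 2 * j + 2 ≤ N i := hj2.trans (hNN i)
    have h3 : (0:ℝ) ≤ (((sv (a i) * sv (b i)).coeff j : ℚ) : ℝ) := by exact_mod_cast hcg _ _ _
    have h4 : (0:ℝ) ≤ ((nj (N i) j : ℚ) : ℝ) := by exact_mod_cast nj_nonneg hj3
    unfold tt
    rw [if_pos hj]
    push_cast
    refine ⟨mul_nonneg h3 h4, ?_⟩
    have h1 := nj_le hj2 (hNN i) hi hr0.le hr1.le
    have h2 : (((sv (a i) * sv (b i)).coeff j * nj (N0 i) j : ℚ) : ℝ) ≤ 1 := by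
      have h1 := Pool.Agent.H966.N1.FT_le (a i) (b i) (ha i) (hb i)
      unfold FT at h1
      have h2 := Finset.single_le_sum (f := fun j => (sv (a i) * sv (b i)).coeff j * nj (N0 i) j)
        (s := range ((a i + b i) / 2)) (fun l hl => mul_nonneg (hcg _ _ _) (nj_nonneg
          (by rw [mem_range] at hl; show 2 * l + 2 ≤ a i + b i + 2; omega))) (mem_range.mpr hj)
      have h3 : (sv (a i) * sv (b i)).coeff j * nj (N0 i) j ≤ 1 := h2.trans h1
      exact_mod_cast h3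
    push_cast at h2
    calc _ ≤ (((sv (a i) * sv (b i)).coeff j : ℚ) : ℝ) * (r^j * ((nj (N0 i) j : ℚ) : ℝ)) :=
          mul_le_mul_of_nonneg_left h1 h3
      _ = r^j * ((((sv (a i) * sv (b i)).coeff j : ℚ) : ℝ) * ((nj (N0 i) j : ℚ) : ℝ)) := by ring
      _ ≤ r^j * 1 := mul_le_mul_of_nonneg_left h2 (by positivity)
      _ = _ := by ring
  · unfold tt
    rw [if_neg hj]
    exact ⟨le_rfl, by positivity⟩

end Pool.Agent.H966.N5
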