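import Pool.Agent.H966.N5.Stm

set_option autoImplicit false

/-!
The local limit theorem for the extents: the series are the densities (helper966).
-/

namespace Pool.Agent.H966.N5

open Pool.Agent.H966.T1 (nj FT S1_F4)
open Pool.Agent.H966.N1 (Gc)
open Filter Topology

/-- the first series is the density of the left extent -/
theorem id1 (h4 : S1_F4) (hD : S_D1) (hF : S_F1) (hK : S_K1) (α γ β : ℝ) (hα : 0 < α)
    (hγ : 0 < γ) (hβ : 0 < β) :
    H1 (α/(α+γ+β)) (β/(α+γ+β)) / (α+γ+β) = hh α γ β :=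
  (hF h4 hD α γ β hα hγ hβ).unique (hK α γ β hα hγ hβ)

/-- the second series is the joint density -/
theorem id2 (h4 : S1_F4) (hD : S_D1) (hF : S_F1) (hF2 : S_F2) (hK : S_K1) (hK2 : S_K2)
    (α γ β : ℝ) (hα : 0 < α) (hγ : 0 < γ) (hβ : 0 < β) :
    H2 (α/(α+γ+β)) (β/(α+γ+β)) / (α+γ+β)^2 = ff α γ β := by
  have h1 := hF2 h4 hD α γ β hα hγ hβ
  have h2 : HasDerivAt (fun t => H1 (α/(α+γ+t)) (t/(α+γ+t)) / (α+γ+t)) (ff α γ β) β := by
    refine (hK2 α γ β hα hγ hβ).congr_of_eventuallyEq ?_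
    filter_upwards [lt_mem_nhds hβ] with t ht
    exact id1 h4 hD hF hK α γ t hα hγ ht
  exact h1.unique h2

end Pool.Agent.H966.N5
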