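import Pool.Agent.H966.N5.Stm

/-!
TASK K of project N5 (helper966): closed forms of the derivatives (helper71).
-/

set_option autoImplicit false

namespace Pool.Agent.H966.N5

open Pool.Agent.NH38.Step (cardy)
open Pool.Agent.NH38.Step.A2 (BB BB_pos cardy_deriv)
open Pool.Agent.NH38.Fork (x1 x2 rr)
open Pool.Agent.H966.N1 (Gc)
open Filter Topology

namespace K

/-- the polynomial under the root -/
noncomputable def gg (γ β t : ℝ) : ℝ := (γ * (γ + 2*β)) * ((γ + 2*t) * (γ + 2*t + 2*β))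

/-- the rational part -/
noncomputable def pp (γ β t : ℝ) : ℝ := γ^2 + 2*γ*(t + β) + 2*t*β

/-- the cross ratio -/
noncomputable def ch (γ β t : ℝ) : ℝ :=
  (pp γ β t - Real.sqrt (gg γ β t)) / (pp γ β t + Real.sqrt (gg γ β t))

theorem gg_pos {γ β t : ℝ} (hγ : 0 < γ) (hβ : 0 < β) (ht : 0 < t) : 0 < gg γ β t := by
  unfold gg; positivity

theorem pp_pos {γ β t : ℝ} (hγ : 0 < γ) (hβ : 0 < β) (ht : 0 < t) : 0 < pp γ β t := by
  unfold pp; positivity

theorem pp_sq (γ β t : ℝ) : pp γ β t ^ 2 - gg γ β t = (2*t*β)^2 := by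
  unfold pp gg; ring

/-- the cross ratio is the argument of `cardy` in `Gc` -/
theorem Gc_eq {γ β t : ℝ} (hγ : 0 < γ) (hβ : 0 < β) (ht : 0 < t) :
    Gc (t/(t+γ+β)) (β/(t+γ+β)) = cardy (ch γ β t) := by
  have hS : 0 < t + γ + β := by positivity
  have hg := gg_pos hγ hβ ht
  have hp := pp_pos hγ hβ ht
  set R : ℝ := Real.sqrt (gg γ β t) with hR
  have hR0 : 0 < R := Real.sqrt_pos.2 hg
  have hR2 : R^2 = gg γ β t := Real.sq_sqrt hg.le
  set S : ℝ := t + γ + β with hSd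
  have hrr : rr ((t/S)^2) ((β/S)^2) = R / S^2 := by
    unfold rr
    rw [Real.sqrt_eq_iff_mul_self_eq_of_pos (by positivity)]
    have e : (1 + (t/S)^2 - (β/S)^2)^2 - 4 * (t/S)^2 = gg γ β t / S^4 := by
      unfold gg
      rw [hSd]
      field_simp
      ring
    rw [e, ← hR2]
    field_simp
  have hx1 : x1 ((t/S)^2) ((β/S)^2) = ((1 + (t/S)^2 - (β/S)^2) - R/S^2)/2 := by
    unfold x1; rw [hrr]
  have hx2 : x2 ((t/S)^2) ((β/S)^2) = ((1 + (t/S)^2 - (β/S)^2) + R/S^2)/2 := by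
    unfold x2; rw [hrr]
  have hprod : ((1 + (t/S)^2 - (β/S)^2) - R/S^2)/2 * (((1 + (t/S)^2 - (β/S)^2) + R/S^2)/2) =
      (t/S)^2 := by
    have e : (1 + (t/S)^2 - (β/S)^2)^2 - (R/S^2)^2 = 4 * (t/S)^2 := by
      rw [div_pow R, hR2]
      unfold gg
      rw [hSd]
      field_simp
      ring
    linear_combination e / 4
  have hpS : 1 - (t/S)^2 - (β/S)^2 = pp γ β t / S^2 := by
    unfold pp
    rw [hSd]
    field_simp
    ring
  have e1 : x1 ((t/S)^2) ((β/S)^2) * (1 - x2 ((t/S)^2) ((β/S)^2)) = (pp γ β t - R) / (2 * S^2) := by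
    rw [hx1, hx2]
    have h1 : (pp γ β t - R) / (2 * S^2) = (pp γ β t / S^2 - R / S^2) / 2 := by
      field_simp
    rw [h1, ← hpS]
    linear_combination -hprod
  have e2 : x2 ((t/S)^2) ((β/S)^2) * (1 - x1 ((t/S)^2) ((β/S)^2)) = (pp γ β t + R) / (2 * S^2) := by
    rw [hx1, hx2]
    have h1 : (pp γ β t + R) / (2 * S^2) = (pp γ β t / S^2 + R / S^2) / 2 := by
      field_simp
    rw [h1, ← hpS]
    linear_combination -hprod
  unfold Gc ch
  rw [e1, e2, ← hR]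
  congr 1
  field_simp

theorem ch_pos {γ β t : ℝ} (hγ : 0 < γ) (hβ : 0 < β) (ht : 0 < t) :
    0 < pp γ β t - Real.sqrt (gg γ β t) := by
  have hp := pp_pos hγ hβ ht
  have h1 : Real.sqrt (gg γ β t) < pp γ β t := by
    rw [Real.sqrt_lt' hp]
    have h2 := pp_sq γ β t
    have h3 : 0 < (2*t*β)^2 := by positivity
    linarith
  linarith

/-- the derivative of the cross ratio -/
theorem ch_deriv {γ β t : ℝ} (hγ : 0 < γ) (hβ : 0 < β) (ht : 0 < t) :
    HasDerivAt (ch γ β) (8 * t * β^2 * (γ * (γ + 2*β)) / (Real.sqrt (gg γ β t) *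
      (pp γ β t + Real.sqrt (gg γ β t))^2)) t := by
  have hg := gg_pos hγ hβ ht
  have hp := pp_pos hγ hβ ht
  have hR0 : 0 < Real.sqrt (gg γ β t) := Real.sqrt_pos.2 hg
  have hR2 : Real.sqrt (gg γ β t)^2 = gg γ β t := Real.sq_sqrt hg.le
  have hpd : HasDerivAt (pp γ β) (2*γ + 2*β) t := by
    have h1 : HasDerivAt (fun s : ℝ => γ^2 + 2*γ*(s + β) + 2*s*β) (0 + 2*γ*1 + 2*1*β) t := by
      refine HasDerivAt.add (HasDerivAt.add (hasDerivAt_const t (γ^2)) ?_) ?_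
      · exact ((hasDerivAt_id t).add_const β).const_mul (2*γ)
      · exact ((hasDerivAt_id t).const_mul 2).mul_const β
    have h2 : (0 + 2*γ*1 + 2*1*β : ℝ) = 2*γ + 2*β := by ring
    rw [h2] at h1
    exact h1
  have hgd : HasDerivAt (gg γ β) ((γ * (γ + 2*β)) * (2 * (γ + 2*t + 2*β) + (γ + 2*t) * 2)) t := by
    have h0 : HasDerivAt (fun s : ℝ => γ + 2*s) 2 t := by
      have := ((hasDerivAt_id t).const_mul 2).const_add γ
      rwa [mul_one] at this
    exact (h0.mul (h0.add_const (2*β))).const_mul (γ * (γ + 2*β))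
  have hsd := hgd.sqrt hg.ne'
  have hne : pp γ β t + Real.sqrt (gg γ β t) ≠ 0 := by positivity
  have h := (hpd.sub hsd).div (hpd.add hsd) hne
  refine h.congr_deriv ?_
  have e : gg γ β t = (γ * (γ + 2*β)) * ((γ + 2*t) * (γ + 2*t + 2*β)) := rfl
  have e2 : pp γ β t = γ^2 + 2*γ*(t + β) + 2*t*β := rfl
  have key : 2 * (2*γ + 2*β) * Real.sqrt (gg γ β t)^2 -
      pp γ β t * ((γ * (γ + 2*β)) * (2 * (γ + 2*t + 2*β) + (γ + 2*t) * 2)) =
      8 * t * β^2 * (γ * (γ + 2*β)) := by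
    rw [hR2, e, e2]
    ring
  simp only [Pi.sub_apply, Pi.add_apply]
  rw [← key]
  generalize Real.sqrt (gg γ β t) = R at *
  generalize pp γ β t = P at *
  generalize (γ * (γ + 2*β)) * (2 * (γ + 2*t + 2*β) + (γ + 2*t) * 2) = Q at *
  have hR0' : R ≠ 0 := hR0.ne'
  field_simp
  ring

/-- the value of the derivative -/
theorem val {α γ β : ℝ} (hα : 0 < α) (hγ : 0 < γ) (hβ : 0 < β) :
    Pool.Agent.H757R2.CardyLimit.gd (ch γ β α) / BB * (8 * α * β^2 * (γ * (γ + 2*β)) /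
      (Real.sqrt (gg γ β α) * (pp γ β α + Real.sqrt (gg γ β α))^2)) = hh α γ β := by
  have hg := gg_pos hγ hβ hα
  have hp := pp_pos hγ hβ hα
  have hc0 := ch_pos hγ hβ hα
  have hB := BB_pos
  have hps := pp_sq γ β α
  set R : ℝ := Real.sqrt (gg γ β α) with hR
  have hR0 : 0 < R := Real.sqrt_pos.2 hg
  have hR2 : R^2 = gg γ β α := Real.sq_sqrt hg.le
  set P : ℝ := pp γ β α with hP
  have hx : ch γ β α * (1 - ch γ β α) = 2 * R * (2*α*β)^2 / (P + R)^3 := by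
    unfold ch
    rw [← hR, ← hP, ← hps, ← hR2]
    field_simp
    ring
  have hlogR : Real.log R = (Real.log γ + Real.log (γ + 2*β) + Real.log (γ + 2*α) +
      Real.log (γ + 2*α + 2*β)) / 2 := by
    rw [hR, Real.log_sqrt hg.le]
    unfold gg
    rw [Real.log_mul (by positivity) (by positivity), Real.log_mul (by positivity) (by positivity),
      Real.log_mul (by positivity) (by positivity)]
    ring
  unfold Pool.Agent.H757R2.CardyLimit.gd
  rw [hx]
  unfold hh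
  have hPR : 0 < P + R := by positivity
  have hX : 0 < 2 * R * (2*α*β)^2 / (P + R)^3 := by positivity
  apply Real.log_injOn_pos
  · change (0:ℝ) < _
    have := Real.rpow_pos_of_pos hX (-(2/3))
    positivity
  · change (0:ℝ) < _
    positivity
  have hX' := Real.rpow_pos_of_pos hX (-(2/3))
  rw [Real.log_mul (by positivity) (by positivity), Real.log_div hX'.ne' hB.ne',
    Real.log_rpow hX, Real.log_div (by positivity) (by positivity),
    Real.log_mul (by positivity) (by positivity), Real.log_mul (by norm_num) (by positivity),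
    Real.log_pow, Real.log_pow, Real.log_mul (by positivity) (by positivity),
    Real.log_mul (by norm_num) (by positivity)]
  rw [Real.log_div (by positivity) (by positivity), Real.log_mul (by positivity) (by positivity),
    Real.log_mul (by positivity) (by positivity), Real.log_mul (by norm_num) (by positivity),
    Real.log_pow, Real.log_mul (by positivity) (by positivity),
    Real.log_mul (by positivity) (by positivity), Real.log_pow]
  have h8 : Real.log (8:ℝ) = 3 * Real.log 2 := by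
    have h : (8:ℝ) = 2^3 := by norm_num
    rw [h, Real.log_pow]
    norm_num
  have a1 : 0 < γ + 2*β := by positivity
  have a2 : 0 < γ + 2*α := by positivity
  have a3 : 0 < γ + 2*α + 2*β := by positivity
  have b1 : 0 < α^(-(1:ℝ)/3) := Real.rpow_pos_of_pos hα _
  have b2 : 0 < β^((2:ℝ)/3) := Real.rpow_pos_of_pos hβ _
  have b3 : 0 < γ^((1:ℝ)/6) := Real.rpow_pos_of_pos hγ _
  have b4 : 0 < (γ + 2*β)^((1:ℝ)/6) := Real.rpow_pos_of_pos a1 _
  have b5 : 0 < (γ + 2*α)^(-(5:ℝ)/6) := Real.rpow_pos_of_pos a2 _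
  have b6 : 0 < (γ + 2*α + 2*β)^(-(5:ℝ)/6) := Real.rpow_pos_of_pos a3 _
  have b0 : 0 < 2 / BB := by positivity
  rw [Real.log_mul (by positivity) b6.ne', Real.log_mul (by positivity) b5.ne',
    Real.log_mul (by positivity) b4.ne', Real.log_mul (by positivity) b3.ne',
    Real.log_mul (by positivity) b2.ne', Real.log_mul b0.ne' b1.ne',
    Real.log_div (by norm_num) hB.ne', Real.log_rpow hα, Real.log_rpow hβ, Real.log_rpow hγ,
    Real.log_rpow a1, Real.log_rpow a2, Real.log_rpow a3, h8]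
  push_cast
  linear_combination (-(5:ℝ)/3) * hlogR

end K

open K

/-- TASK K1 -/
theorem t_K1 : S_K1 := by
  intro α γ β hα hγ hβ
  have hg := gg_pos hγ hβ hα
  have hp := pp_pos hγ hβ hα
  have hc0 := ch_pos hγ hβ hα
  have hR0 : 0 < Real.sqrt (gg γ β α) := Real.sqrt_pos.2 hg
  have hps := pp_sq γ β α
  have hR2 : Real.sqrt (gg γ β α)^2 = gg γ β α := Real.sq_sqrt hg.le
  have hd := ch_deriv hγ hβ hα
  have hχ0 : 0 < ch γ β α := div_pos hc0 (by positivity)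
  have hχ1 : ch γ β α < 1 := by
    unfold ch
    rw [div_lt_one (by positivity)]
    linarith
  have h1 := (cardy_deriv hχ0 hχ1).comp α hd
  have h2 : (fun t => Gc (t/(t+γ+β)) (β/(t+γ+β))) =ᶠ[𝓝 α] cardy ∘ ch γ β := by
    filter_upwards [lt_mem_nhds hα] with t ht
    exact Gc_eq hγ hβ ht
  refine (h1.congr_of_eventuallyEq h2).congr_deriv ?_
  exact val hα hγ hβ

/-- TASK K2 -/
theorem t_K2 : S_K2 := by
  intro α γ β hα hγ hβ
  have hB := BB_pos
  have a1 : 0 < γ + 2*β := by positivity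
  have a2 : 0 < γ + 2*α := by positivity
  have a3 : 0 < γ + 2*α + 2*β := by positivity
  set C : ℝ := 2 / BB * α^(-(1:ℝ)/3) * γ^((1:ℝ)/6) * (γ + 2*α)^(-(5:ℝ)/6) with hC
  have e : (fun t => hh α γ t) = fun t => C * (t^((2:ℝ)/3) * (γ + 2*t)^((1:ℝ)/6) *
      (γ + 2*α + 2*t)^(-(5:ℝ)/6)) := by
    funext t
    unfold hh
    rw [hC]
    ring
  rw [e]
  have h0 : HasDerivAt (fun s : ℝ => γ + 2*s) 2 β := by
    have := ((hasDerivAt_id β).const_mul 2).const_add γ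
    rwa [mul_one] at this
  have h0' : HasDerivAt (fun s : ℝ => γ + 2*α + 2*s) 2 β := by
    have := ((hasDerivAt_id β).const_mul 2).const_add (γ + 2*α)
    rwa [mul_one] at this
  have d1 : HasDerivAt (fun s : ℝ => s^((2:ℝ)/3)) (1 * ((2:ℝ)/3) * β^((2:ℝ)/3 - 1)) β :=
    (hasDerivAt_id β).rpow_const (Or.inl hβ.ne')
  have d2 : HasDerivAt (fun s : ℝ => (γ + 2*s)^((1:ℝ)/6))
      (2 * ((1:ℝ)/6) * (γ + 2*β)^((1:ℝ)/6 - 1)) β := h0.rpow_const (Or.inl a1.ne')
  have d3 : HasDerivAt (fun s : ℝ => (γ + 2*α + 2*s)^(-(5:ℝ)/6))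
      (2 * (-(5:ℝ)/6) * (γ + 2*α + 2*β)^(-(5:ℝ)/6 - 1)) β := h0'.rpow_const (Or.inl a3.ne')
  have h := ((d1.mul d2).mul d3).const_mul C
  refine h.congr_deriv ?_
  simp only [Pi.mul_apply]
  -- the powers
  have e1 : β^((2:ℝ)/3) = β^((2:ℝ)/3 - 1) * β := by
    rw [Real.rpow_sub_one hβ.ne', div_mul_cancel₀ _ hβ.ne']
  have e2 : (γ + 2*β)^((1:ℝ)/6) = (γ + 2*β)^((1:ℝ)/6 - 1) * (γ + 2*β) := by
    rw [Real.rpow_sub_one a1.ne', div_mul_cancel₀ _ a1.ne']
  have e3 : (γ + 2*α + 2*β)^(-(5:ℝ)/6) = (γ + 2*α + 2*β)^(-(5:ℝ)/6 - 1) * (γ + 2*α + 2*β) := by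
    rw [Real.rpow_sub_one a3.ne', div_mul_cancel₀ _ a3.ne']
  have f1 : β^((2:ℝ)/3 - 1) = (β^((1:ℝ)/3))⁻¹ := by
    rw [← Real.rpow_neg hβ.le]
    norm_num
  have f2 : (γ + 2*β)^((1:ℝ)/6 - 1) = ((γ + 2*β)^((5:ℝ)/6))⁻¹ := by
    rw [← Real.rpow_neg a1.le]
    norm_num
  have f3 : (γ + 2*α + 2*β)^(-(5:ℝ)/6 - 1) = ((γ + 2*α + 2*β)^((11:ℝ)/6))⁻¹ := by
    rw [← Real.rpow_neg a3.le]
    norm_num
  have f4 : α^(-(1:ℝ)/3) = (α^((1:ℝ)/3))⁻¹ := by
    rw [← Real.rpow_neg hα.le]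
    norm_num
  have f5 : (γ + 2*α)^(-(5:ℝ)/6) = ((γ + 2*α)^((5:ℝ)/6))⁻¹ := by
    rw [← Real.rpow_neg a2.le]
    norm_num
  rw [e1, e2, e3, hC, f1, f2, f3, f4, f5]
  unfold ff
  rw [Real.mul_rpow hα.le hβ.le, Real.mul_rpow a2.le a1.le]
  have b1 : 0 < α^((1:ℝ)/3) := Real.rpow_pos_of_pos hα _
  have b2 : 0 < β^((1:ℝ)/3) := Real.rpow_pos_of_pos hβ _
  have b3 : 0 < γ^((1:ℝ)/6) := Real.rpow_pos_of_pos hγ _
  have b4 : 0 < (γ + 2*β)^((5:ℝ)/6) := Real.rpow_pos_of_pos a1 _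
  have b5 : 0 < (γ + 2*α)^((5:ℝ)/6) := Real.rpow_pos_of_pos a2 _
  have b6 : 0 < (γ + 2*α + 2*β)^((11:ℝ)/6) := Real.rpow_pos_of_pos a3 _
  generalize α^((1:ℝ)/3) = y1 at *
  generalize β^((1:ℝ)/3) = y2 at *
  generalize γ^((1:ℝ)/6) = y3 at *
  generalize (γ + 2*β)^((5:ℝ)/6) = y4 at *
  generalize (γ + 2*α)^((5:ℝ)/6) = y5 at *
  generalize (γ + 2*α + 2*β)^((11:ℝ)/6) = y6 at *
  have hBne := hB.ne'
  field_simp
  ring

end Pool.Agent.H966.N5
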