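import Pool.Agent.H966.N5.Stm2

/-!
The joint density of the two extents has total mass one (package M of project N5; helper8).
-/

set_option autoImplicit false

namespace Pool.Agent.H966.N5

open MeasureTheory Filter Topology Set
open Pool.Agent.NH38.Step.A2 (BB BB_pos)
open Pool.Agent.H966.N1 (BB_eq)
open Pool.Agent.H757R2.CardyLimit (beta_int)

namespace M

/-- the density of the first coordinate -/
noncomputable def cc (γ x : ℝ) : ℝ := (2:ℝ)^((1:ℝ)/3) / BB * x^(-(1:ℝ)/3) * γ^((1:ℝ)/6) *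
  (γ + 2*x)^(-(5:ℝ)/6)

lemma ff_nonneg {α γ β : ℝ} (hα : 0 < α) (hγ : 0 < γ) (hβ : 0 < β) : 0 ≤ ff α γ β := by
  unfold ff
  have := BB_pos
  positivity

lemma cc_nonneg {γ x : ℝ} (hγ : 0 < γ) (hx : 0 < x) : 0 ≤ cc γ x := by
  unfold cc
  have := BB_pos
  positivity

/-- the limit at infinity -/
lemma hh_lim {α γ : ℝ} (hα : 0 < α) (hγ : 0 < γ) :
    Tendsto (fun t => hh α γ t) atTop (𝓝 (cc γ α)) := by
  have h0 : Tendsto (fun t : ℝ => t⁻¹) atTop (𝓝 0) := tendsto_inv_atTop_zero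
  have h1 : Tendsto (fun t : ℝ => (γ * t⁻¹ + 2)^((1:ℝ)/6) *
      ((γ + 2*α) * t⁻¹ + 2)^(-(5:ℝ)/6)) atTop (𝓝 ((2:ℝ)^((1:ℝ)/6) * (2:ℝ)^(-(5:ℝ)/6))) := by
    have e1 : Tendsto (fun t : ℝ => γ * t⁻¹ + 2) atTop (𝓝 2) := by
      have := (h0.const_mul γ).add_const 2
      simpa using this
    have e2 : Tendsto (fun t : ℝ => (γ + 2*α) * t⁻¹ + 2) atTop (𝓝 2) := by
      have := (h0.const_mul (γ + 2*α)).add_const 2
      simpa using this
    exact (e1.rpow_const (Or.inl (by norm_num))).mul (e2.rpow_const (Or.inl (by norm_num)))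
  have h2 := h1.const_mul (2 / BB * α^(-(1:ℝ)/3) * γ^((1:ℝ)/6) * (γ + 2*α)^(-(5:ℝ)/6))
  have e3 : 2 / BB * α^(-(1:ℝ)/3) * γ^((1:ℝ)/6) * (γ + 2*α)^(-(5:ℝ)/6) *
      ((2:ℝ)^((1:ℝ)/6) * (2:ℝ)^(-(5:ℝ)/6)) = cc γ α := by
    unfold cc
    have e4 : (2:ℝ)^((1:ℝ)/6) * (2:ℝ)^(-(5:ℝ)/6) = (2:ℝ)^(-(2:ℝ)/3) := by
      rw [← Real.rpow_add (by norm_num)]
      norm_num
    have e5 : (2:ℝ)^((1:ℝ)/3) = 2 * (2:ℝ)^(-(2:ℝ)/3) := by
      nth_rewrite 2 [← Real.rpow_one 2]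
      rw [← Real.rpow_add (by norm_num)]
      norm_num
    rw [e4, e5]
    ring
  rw [e3] at h2
  refine h2.congr' ?_
  filter_upwards [eventually_gt_atTop 0] with t ht
  unfold hh
  have i1 : γ + 2*t = t * (γ * t⁻¹ + 2) := by field_simp
  have i2 : γ + 2*α + 2*t = t * ((γ + 2*α) * t⁻¹ + 2) := by field_simp
  have p1 : 0 ≤ γ * t⁻¹ + 2 := by positivity
  have p2 : 0 ≤ (γ + 2*α) * t⁻¹ + 2 := by positivity
  rw [i1, i2, Real.mul_rpow ht.le p1, Real.mul_rpow ht.le p2]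
  have i3 : t^((2:ℝ)/3) * t^((1:ℝ)/6) * t^(-(5:ℝ)/6) = 1 := by
    rw [← Real.rpow_add ht, ← Real.rpow_add ht]
    norm_num
  calc 2 / BB * α^(-(1:ℝ)/3) * γ^((1:ℝ)/6) * (γ + 2*α)^(-(5:ℝ)/6) *
        ((γ * t⁻¹ + 2)^((1:ℝ)/6) * ((γ + 2*α) * t⁻¹ + 2)^(-(5:ℝ)/6))
      = (t^((2:ℝ)/3) * t^((1:ℝ)/6) * t^(-(5:ℝ)/6)) *
        (2 / BB * α^(-(1:ℝ)/3) * γ^((1:ℝ)/6) * (γ + 2*α)^(-(5:ℝ)/6) *
        ((γ * t⁻¹ + 2)^((1:ℝ)/6) * ((γ + 2*α) * t⁻¹ + 2)^(-(5:ℝ)/6))) := by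
        rw [i3, one_mul]
    _ = _ := by ring

lemma hh_zero (α γ : ℝ) : hh α γ 0 = 0 := by
  unfold hh
  rw [Real.zero_rpow (by norm_num)]
  ring

lemma hh_cont {α γ : ℝ} (hα : 0 < α) (hγ : 0 < γ) :
    ContinuousWithinAt (fun t => hh α γ t) (Ici 0) 0 := by
  unfold hh
  have h1 : ContinuousAt (fun t : ℝ => t^((2:ℝ)/3)) 0 :=
    Real.continuousAt_rpow_const _ _ (Or.inr (by norm_num))
  have h2 : ContinuousAt (fun t : ℝ => (γ + 2*t)^((1:ℝ)/6)) 0 := by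
    refine ContinuousAt.rpow_const (by fun_prop) (Or.inl ?_)
    simp [hγ.ne']
  have h3 : ContinuousAt (fun t : ℝ => (γ + 2*α + 2*t)^(-(5:ℝ)/6)) 0 := by
    refine ContinuousAt.rpow_const (by fun_prop) (Or.inl ?_)
    have : 0 < γ + 2*α := by positivity
    simp [this.ne']
  have h4 : ContinuousAt (fun t : ℝ => 2 / BB * α^(-(1:ℝ)/3) * t^((2:ℝ)/3) * γ^((1:ℝ)/6) *
      (γ + 2*t)^((1:ℝ)/6) * (γ + 2*α)^(-(5:ℝ)/6) * (γ + 2*α + 2*t)^(-(5:ℝ)/6)) 0 :=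
    (((((continuousAt_const.mul h1).mul continuousAt_const).mul h2).mul
      continuousAt_const).mul h3)
  exact h4.continuousWithinAt

lemma inner (h : S_K2) {γ x : ℝ} (hγ : 0 < γ) (hx : 0 < x) :
    IntegrableOn (fun y => ff x γ y) (Ioi 0) ∧ ∫ y in Ioi 0, ff x γ y = cc γ x := by
  have h1 : ∀ y ∈ Ioi (0:ℝ), HasDerivAt (fun t => hh x γ t) (ff x γ y) y :=
    fun y hy => h x γ y hx hγ hy
  have h2 : ∀ y ∈ Ioi (0:ℝ), 0 ≤ ff x γ y := fun y hy => ff_nonneg hx hγ hy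
  refine ⟨integrableOn_Ioi_deriv_of_nonneg (hh_cont hx hγ) h1 h2 (hh_lim hx hγ), ?_⟩
  rw [integral_Ioi_of_hasDerivAt_of_nonneg (hh_cont hx hγ) h1 h2 (hh_lim hx hγ), hh_zero, sub_zero]

/-- the incomplete Beta function -/
noncomputable def I (u : ℝ) : ℝ := ∫ t in (0:ℝ)..u, t ^ ((2/3:ℝ) - 1) * (1 - t) ^ ((1/6:ℝ) - 1)

lemma I_int : IntervalIntegrable (fun t : ℝ => t ^ ((2/3:ℝ) - 1) * (1 - t) ^ ((1/6:ℝ) - 1))
    volume 0 1 := (beta_int (α := 2/3) (β := 1/6) (by norm_num) (by norm_num)).1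

lemma I_one : (2:ℝ)^(-(1:ℝ)/3) / BB * I 1 = 1 := by
  have h := (beta_int (α := 2/3) (β := 1/6) (by norm_num) (by norm_num)).2
  have e0 : (2/3 + 1/6 : ℝ) = 5/6 := by norm_num
  rw [e0] at h
  unfold I
  rw [h, BB_eq]
  have d1 := Real.Gamma_mul_Gamma_add_half (1/3)
  rw [show (1/3 + 1/2 : ℝ) = 5/6 by norm_num, show (2 * (1/3) : ℝ) = 2/3 by norm_num,
    show (1 - 2/3 : ℝ) = 1/3 by norm_num] at d1
  have d2 := Real.Gamma_mul_Gamma_add_half (1/6)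
  rw [show (1/6 + 1/2 : ℝ) = 2/3 by norm_num, show (2 * (1/6) : ℝ) = 1/3 by norm_num,
    show (1 - 1/3 : ℝ) = 2/3 by norm_num] at d2
  have p1 : 0 < Real.Gamma (1/3) := Real.Gamma_pos_of_pos (by norm_num)
  have p2 : 0 < Real.Gamma (2/3) := Real.Gamma_pos_of_pos (by norm_num)
  have p3 : 0 < √Real.pi := Real.sqrt_pos.2 Real.pi_pos
  have p4 : 0 < Real.Gamma (5/6) := Real.Gamma_pos_of_pos (by norm_num)
  have p5 : 0 < (2:ℝ)^((1:ℝ)/3) := by positivity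
  have g5 : Real.Gamma (5/6) = Real.Gamma (2/3) * (2:ℝ)^((1:ℝ)/3) * √Real.pi / Real.Gamma (1/3) := by
    rw [eq_div_iff p1.ne', mul_comm]
    exact d1
  have g1 : Real.Gamma (1/6) = Real.Gamma (1/3) * (2:ℝ)^((2:ℝ)/3) * √Real.pi / Real.Gamma (2/3) := by
    rw [eq_div_iff p2.ne']
    exact d2
  have e1 : (2:ℝ)^(-(1:ℝ)/3) * (2:ℝ)^((2:ℝ)/3) = (2:ℝ)^((1:ℝ)/3) := by
    rw [← Real.rpow_add (by norm_num)]
    norm_num
  rw [neg_div] at e1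
  rw [g5, g1]
  field_simp
  linear_combination e1

lemma I_deriv {u : ℝ} (h0 : 0 < u) (h1 : u < 1) :
    HasDerivAt I (u ^ ((2/3:ℝ) - 1) * (1 - u) ^ ((1/6:ℝ) - 1)) u := by
  have hc : ContinuousOn (fun t : ℝ => t ^ ((2/3:ℝ) - 1) * (1 - t) ^ ((1/6:ℝ) - 1)) (Ioo 0 1) := by
    intro t ht
    refine ContinuousAt.continuousWithinAt ?_
    exact (Real.continuousAt_rpow_const _ _ (Or.inl ht.1.ne')).mul
      (ContinuousAt.rpow_const (by fun_prop) (Or.inl (by linarith [ht.2])))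
  have hi : IntervalIntegrable (fun t : ℝ => t ^ ((2/3:ℝ) - 1) * (1 - t) ^ ((1/6:ℝ) - 1))
      volume 0 u := I_int.mono_set (by
    rw [uIcc_of_le h0.le, uIcc_of_le zero_le_one]
    exact Icc_subset_Icc_right h1.le)
  have hn : Ioo (0:ℝ) 1 ∈ 𝓝 u := Ioo_mem_nhds h0 h1
  exact intervalIntegral.integral_hasDerivAt_right hi
    (hc.stronglyMeasurableAtFilter isOpen_Ioo u ⟨h0, h1⟩) ((hc u ⟨h0, h1⟩).continuousAt hn)

lemma I_cont : ContinuousOn I (Icc 0 1) := by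
  have := intervalIntegral.continuousOn_primitive_interval' I_int (a := 0)
    (by rw [uIcc_of_le zero_le_one]; exact ⟨le_rfl, zero_le_one⟩)
  rwa [uIcc_of_le zero_le_one] at this

/-- the antiderivative of the density -/
noncomputable def GG (γ x : ℝ) : ℝ := (2:ℝ)^(-(1:ℝ)/3) / BB * I (2*x/(γ+2*x))

lemma GG_deriv {γ x : ℝ} (hγ : 0 < γ) (hx : 0 < x) : HasDerivAt (GG γ) (cc γ x) x := by
  have hs : 0 < γ + 2*x := by positivity
  have hu0 : 0 < 2*x/(γ+2*x) := by positivity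
  have hu1 : 2*x/(γ+2*x) < 1 := by rw [div_lt_one hs]; linarith
  have d1 : HasDerivAt (fun t : ℝ => 2*t/(γ+2*t)) (2*γ/(γ+2*x)^2) x := by
    have a1 : HasDerivAt (fun t : ℝ => 2*t) 2 x := by
      simpa using (hasDerivAt_id x).const_mul 2
    have a2 : HasDerivAt (fun t : ℝ => γ+2*t) 2 x := by
      simpa using a1.const_add γ
    refine (a1.div a2 hs.ne').congr_deriv ?_
    ring
  have d2 := ((I_deriv hu0 hu1).comp x d1).const_mul ((2:ℝ)^(-(1:ℝ)/3) / BB)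
  refine d2.congr_deriv ?_
  unfold cc
  have e1 : 1 - 2*x/(γ+2*x) = γ/(γ+2*x) := by field_simp; ring
  rw [e1, Real.div_rpow (by positivity) hs.le, Real.div_rpow hγ.le hs.le,
    Real.mul_rpow (by norm_num) hx.le]
  rw [show ((2:ℝ)/3 - 1) = -(1:ℝ)/3 by norm_num, show ((1:ℝ)/6 - 1) = -(5:ℝ)/6 by norm_num]
  have e2 : (γ+2*x)^2 = (γ+2*x)^((2:ℝ)) := by
    rw [← Real.rpow_natCast]; norm_num
  have e3 : (γ+2*x)^(-(5:ℝ)/6) = ((γ+2*x)^(-(1:ℝ)/3))⁻¹ * ((γ+2*x)^(-(5:ℝ)/6))⁻¹ *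
      ((γ+2*x)^((2:ℝ)))⁻¹ := by
    rw [← Real.rpow_neg hs.le, ← Real.rpow_neg hs.le, ← Real.rpow_neg hs.le,
      ← Real.rpow_add hs, ← Real.rpow_add hs]
    norm_num
  have e4 : γ^((1:ℝ)/6) = γ^(-(5:ℝ)/6) * γ := by
    nth_rewrite 3 [← Real.rpow_one γ]
    rw [← Real.rpow_add hγ]
    norm_num
  have e5 : (2:ℝ)^((1:ℝ)/3) = (2:ℝ)^(-(1:ℝ)/3) * (2:ℝ)^(-(1:ℝ)/3) * 2 := by
    nth_rewrite 4 [← Real.rpow_one 2]
    rw [← Real.rpow_add (by norm_num), ← Real.rpow_add (by norm_num)]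
    norm_num
  rw [e5, e4, e2]
  conv_rhs => rw [e3]
  ring

lemma GG_zero (γ : ℝ) : GG γ 0 = 0 := by
  unfold GG I
  simp

lemma GG_cont {γ : ℝ} (hγ : 0 < γ) : ContinuousWithinAt (GG γ) (Ici 0) 0 := by
  have h1 : ContinuousWithinAt (fun t : ℝ => 2*t/(γ+2*t)) (Ici 0) 0 := by
    refine ContinuousAt.continuousWithinAt ?_
    refine ContinuousAt.div (by fun_prop) (by fun_prop) ?_
    simp [hγ.ne']
  have h2 : MapsTo (fun t : ℝ => 2*t/(γ+2*t)) (Ici 0) (Icc 0 1) := by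
    intro t ht
    have ht0 : (0:ℝ) ≤ t := ht
    have hs : 0 < γ + 2*t := by positivity
    exact ⟨by positivity, by rw [div_le_one hs]; linarith⟩
  have h3 : ContinuousWithinAt I (Icc 0 1) (2*(0:ℝ)/(γ+2*0)) := by
    have := I_cont 0 ⟨le_rfl, zero_le_one⟩
    simpa using this
  have h4 : ContinuousWithinAt (I ∘ fun t : ℝ => 2*t/(γ+2*t)) (Ici 0) 0 :=
    ContinuousWithinAt.comp (g := I) (f := fun t : ℝ => 2*t/(γ+2*t)) (x := (0:ℝ)) (t := Icc 0 1)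
      h3 h1 h2
  exact continuousWithinAt_const.mul h4

lemma GG_lim {γ : ℝ} (hγ : 0 < γ) : Tendsto (GG γ) atTop (𝓝 1) := by
  have h0 : Tendsto (fun t : ℝ => t⁻¹) atTop (𝓝 0) := tendsto_inv_atTop_zero
  have h1 : Tendsto (fun t : ℝ => 2*t/(γ+2*t)) atTop (𝓝 1) := by
    have h2 : Tendsto (fun t : ℝ => 2/(γ * t⁻¹ + 2)) atTop (𝓝 (2/(γ*0+2))) :=
      tendsto_const_nhds.div ((h0.const_mul γ).add_const 2) (by norm_num)
    rw [mul_zero, zero_add, div_self two_ne_zero] at h2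
    refine h2.congr' ?_
    filter_upwards [eventually_gt_atTop 0] with t ht
    have hs : 0 < γ + 2*t := by positivity
    field_simp
  have h3 : Tendsto (fun t : ℝ => 2*t/(γ+2*t)) atTop (𝓝[Icc 0 1] 1) := by
    refine tendsto_nhdsWithin_iff.2 ⟨h1, ?_⟩
    filter_upwards [eventually_ge_atTop 0] with t ht0
    have hs : 0 < γ + 2*t := by positivity
    exact ⟨by positivity, by rw [div_le_one hs]; linarith⟩
  have h4 : Tendsto I (𝓝[Icc 0 1] 1) (𝓝 (I 1)) := I_cont 1 ⟨zero_le_one, le_rfl⟩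
  have h5 := (h4.comp h3).const_mul ((2:ℝ)^(-(1:ℝ)/3) / BB)
  rw [I_one] at h5
  exact h5

lemma outer {γ : ℝ} (hγ : 0 < γ) :
    IntegrableOn (cc γ) (Ioi 0) ∧ ∫ x in Ioi 0, cc γ x = 1 := by
  have h1 : ∀ y ∈ Ioi (0:ℝ), HasDerivAt (GG γ) (cc γ y) y := fun y hy => GG_deriv hγ hy
  have h2 : ∀ y ∈ Ioi (0:ℝ), 0 ≤ cc γ y := fun y hy => cc_nonneg hγ hy
  refine ⟨integrableOn_Ioi_deriv_of_nonneg (GG_cont hγ) h1 h2 (GG_lim hγ), ?_⟩
  rw [integral_Ioi_of_hasDerivAt_of_nonneg (GG_cont hγ) h1 h2 (GG_lim hγ), GG_zero, sub_zero]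

lemma ff_meas (γ : ℝ) : Measurable (fun p : ℝ × ℝ => ff p.1 γ p.2) := by
  unfold ff
  refine Measurable.div ?_ ?_
  · fun_prop
  · refine Measurable.mul (Measurable.mul ?_ ?_) ?_
    · exact (by fun_prop : Measurable fun p : ℝ × ℝ => p.1 * p.2).pow_const _
    · exact (by fun_prop : Measurable fun p : ℝ × ℝ => (γ + 2*p.1)*(γ + 2*p.2)).pow_const _
    · exact (by fun_prop : Measurable fun p : ℝ × ℝ => γ + 2*p.1 + 2*p.2).pow_const _

end M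

theorem t_M : S_M := by
  intro _ h γ hγ
  have hq : (volume : Measure (ℝ × ℝ)).restrict Quad =
      (volume.restrict (Ioi (0:ℝ))).prod (volume.restrict (Ioi (0:ℝ))) := by
    rw [Measure.prod_restrict]
    rfl
  have hin : ∀ x : ℝ, 0 < x → Integrable (fun y => ff x γ y) (volume.restrict (Ioi (0:ℝ))) ∧
      ∫ y, ff x γ y ∂(volume.restrict (Ioi (0:ℝ))) = M.cc γ x := fun x hx => M.inner h hγ hx
  have hnorm : ∀ x : ℝ, 0 < x → ∫ y, ‖ff x γ y‖ ∂(volume.restrict (Ioi (0:ℝ))) = M.cc γ x := by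
    intro x hx
    rw [← (hin x hx).2]
    refine setIntegral_congr_fun measurableSet_Ioi fun y hy => ?_
    exact Real.norm_of_nonneg (M.ff_nonneg hx hγ hy)
  have hint : Integrable (fun p : ℝ × ℝ => ff p.1 γ p.2)
      ((volume.restrict (Ioi (0:ℝ))).prod (volume.restrict (Ioi (0:ℝ)))) := by
    rw [integrable_prod_iff (M.ff_meas γ).aestronglyMeasurable]
    refine ⟨?_, ?_⟩
    · filter_upwards [ae_restrict_mem measurableSet_Ioi] with x hx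
      exact (hin x hx).1
    · refine (M.outer hγ).1.congr ?_
      filter_upwards [ae_restrict_mem measurableSet_Ioi] with x hx
      exact (hnorm x hx).symm
  refine ⟨?_, ?_⟩
  · unfold IntegrableOn
    rw [hq]
    exact hint
  · rw [hq, integral_prod _ hint, ← (M.outer hγ).2]
    refine setIntegral_congr_fun measurableSet_Ioi fun x hx => ?_
    exact (hin x hx).2

end Pool.Agent.H966.N5
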