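import Pool.Agent.H966.N1.Rh
import Pool.Agent.H966.N3.Stm
import Pool.Agent.H965.K3.J

/-!
The local limit theorem for the two extents of the exploration path (helper966): statements of the
tasks (nothing is proved here).
-/

set_option autoImplicit false

namespace Pool.Agent.H966.N5

open Pool.Agent.NH38.Step (cardy)
open Pool.Agent.NH38.Step.A2 (BB)
open Pool.Agent.NH38.Fork (x1 x2 rr rf cK cR sv kap Bt S_sE S_KE)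
open Pool.Agent.H965.K3 (dv)
open Pool.Agent.H966.T1 (nj FT S1_F4)
open Pool.Agent.H966.N1 (mainF Gc)
open Pool.Agent.H966.N3 (S_dE)
open Filter Topology Finset

/-! ## TASK A: ratios of coefficients -/

/-- relative difference of the coefficients of `sv (n+2)` and `sv n` -/
noncomputable def xi (n l : ℕ) : ℝ :=
  (((sv (n+2)).coeff l : ℚ) : ℝ) / (((sv n).coeff l : ℚ) : ℝ) - 1

def S_xi : Prop := ∃ (k : ℕ) (C : ℝ) (n0 : ℕ), ∀ n l : ℕ, Odd n → n0 ≤ n → (l+1)^k ≤ n →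
  0 < (((sv n).coeff l : ℚ) : ℝ) ∧
  |(n:ℝ)/2 * xi n l - (2*(l:ℝ) + 2/3)| ≤ C * ((l:ℝ)+1)^k * (n:ℝ)^(-(2:ℝ)/3)

/-- TASK A -/
def S_A : Prop := S_sE → S_dE → S_KE → S_xi

/-! ## TASK B: the weights -/

noncomputable def gN (N j : ℕ) : ℝ := (2*(N:ℝ)+3)*(6*(j:ℝ)+4)/((3*(N:ℝ)+1)*((N:ℝ)+4+2*j))

/-- TASK B -/
def S_g : Prop := ∀ N j : ℕ, Even N → 4 ≤ N → 2*j + 4 ≤ N →
  ((nj (N+2) j : ℚ) : ℝ) = (1 - gN N j) * ((nj N j : ℚ) : ℝ)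

/-! ## TASK C: the brackets -/

/-- sequences of widths: `a`, `b` = widths of the arms (odd), `N` = total width (even) -/
structure Seq (a b N : ℕ → ℕ) (ρ σ : ℝ) : Prop where
  hρ : 0 < ρ
  hσ : 0 < σ
  hρσ : ρ + σ < 1
  ha : ∀ i, Odd (a i)
  hb : ∀ i, Odd (b i)
  hN : ∀ i, Even (N i)
  hab : ∀ i, a i + b i < N i
  hNt : Tendsto N atTop atTop
  la : Tendsto (fun i => (a i : ℝ) / N i) atTop (𝓝 ρ)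
  lb : Tendsto (fun i => (b i : ℝ) / N i) atTop (𝓝 σ)

/-- first difference -/
noncomputable def B1 (ξ g : ℝ) : ℝ := (1 + ξ) * (1 - g) - 1

/-- second difference -/
noncomputable def B2 (ξ η g g' : ℝ) : ℝ :=
  (1 + ξ) * (1 + η) * ((1 - g) * (1 - g')) - (2 + ξ + η) * (1 - g) + 1

noncomputable def br1 (P R x : ℝ) : ℝ := P / x - R

noncomputable def br2 (P Q x y : ℝ) : ℝ :=
  P * Q / (x * y) - (P + Q) * P / x - (P + Q) * Q / y + (P + Q) * (P + Q + 1)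

/-- TASK C, part 1: the limits -/
def S_C1 : Prop := S_xi → ∀ (a b N : ℕ → ℕ) (ρ σ : ℝ), Seq a b N ρ σ → ∀ l l' : ℕ,
  Tendsto (fun i => (N i : ℝ)/2 * B1 (xi (a i) l) (gN (N i) (l+l'))) atTop
    (𝓝 (br1 (2*(l:ℝ) + 2/3) (2*((l+l' : ℕ) : ℝ) + 4/3) ρ)) ∧
  Tendsto (fun i => (N i : ℝ)^2/4 * B2 (xi (a i) l) (xi (b i) l') (gN (N i) (l+l'))
    (gN (N i + 2) (l+l'))) atTop (𝓝 (br2 (2*(l:ℝ) + 2/3) (2*(l':ℝ) + 2/3) ρ σ))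

/-- uniform bounds for the brackets -/
def S_Bd (a b N : ℕ → ℕ) : Prop := ∃ (k : ℕ) (C : ℝ), 0 < C ∧ ∀ᶠ i in atTop, ∀ l l' : ℕ,
  (l+l'+1)^k ≤ a i → (l+l'+1)^k ≤ b i →
  0 < (((sv (a i)).coeff l : ℚ) : ℝ) ∧ 0 < (((sv (b i)).coeff l' : ℚ) : ℝ) ∧
  |(N i : ℝ)/2 * B1 (xi (a i) l) (gN (N i) (l+l'))| ≤ C * ((l:ℝ)+l'+1)^k ∧
  |(N i : ℝ)^2/4 * B2 (xi (a i) l) (xi (b i) l') (gN (N i) (l+l')) (gN (N i + 2) (l+l'))| ≤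
    C * ((l:ℝ)+l'+1)^k

/-- TASK C, part 2: the bounds -/
def S_C2 : Prop := S_xi → ∀ (a b N : ℕ → ℕ) (ρ σ : ℝ), Seq a b N ρ σ → S_Bd a b N

/-! ## TASK D: the limits of the single terms -/

/-- the term `(l, l')` of the limit series -/
noncomputable def TT (l l' : ℕ) (x y : ℝ) : ℝ :=
  (2*x*y)^((2:ℝ)/3) * (3 / (2*Bt)) * (rf (2/3) (l+l') * rf (4/3) (l+l') /
    (rf (4/3) l * (Nat.factorial l : ℝ) * (rf (4/3) l' * (Nat.factorial l' : ℝ)))) *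
    (x^2)^l * (y^2)^l'

/-- TASK D, part 1 -/
def S_D1 : Prop := ∀ (j : ℕ) (x y : ℝ), mainF j x y = ∑ p ∈ antidiagonal j, TT p.1 p.2 x y

/-- TASK D, part 2 -/
def S_D2 : Prop := ∀ (a b N : ℕ → ℕ) (ρ σ : ℝ), Seq a b N ρ σ → ∀ l l' : ℕ,
  Tendsto (fun i => (((sv (a i)).coeff l * (sv (b i)).coeff l' * nj (N i) (l+l') : ℚ) : ℝ)) atTop
    (𝓝 (TT l l' ρ σ))

/-! ## TASK G: geometric bounds -/

/-- the terms of the crossing probability -/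
noncomputable def tt (a b N j : ℕ) : ℝ := if j < (a+b)/2 then
  (((sv a * sv b).coeff j * nj N j : ℚ) : ℝ) else 0

def S_G1 : Prop := ∀ a b N : ℕ, HasSum (tt a b N) ((FT a b N : ℚ) : ℝ)

/-- TASK G -/
def S_G2 : Prop := ∀ (a b N : ℕ → ℕ) (ρ σ : ℝ), Seq a b N ρ σ → ∃ r : ℝ, 0 < r ∧ r < 1 ∧
  ∀ᶠ i in atTop, ∀ j, 0 ≤ tt (a i) (b i) (N i) j ∧ tt (a i) (b i) (N i) j ≤ r^j

/-! ## TASK E: the limits -/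

noncomputable def H1 (x y : ℝ) : ℝ := ∑' j : ℕ, ∑ p ∈ antidiagonal j,
  TT p.1 p.2 x y * br1 (2*(p.1:ℝ) + 2/3) (2*(j:ℝ) + 4/3) x

noncomputable def H2 (x y : ℝ) : ℝ := ∑' j : ℕ, ∑ p ∈ antidiagonal j,
  TT p.1 p.2 x y * br2 (2*(p.1:ℝ) + 2/3) (2*(p.2:ℝ) + 2/3) x y

def S_Lim1 : Prop := ∀ (a b N : ℕ → ℕ) (ρ σ : ℝ), Seq a b N ρ σ →
  Tendsto (fun i => (N i : ℝ)/2 * (((FT (a i + 2) (b i) (N i + 2) : ℚ) : ℝ) -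
    ((FT (a i) (b i) (N i) : ℚ) : ℝ))) atTop (𝓝 (H1 ρ σ))

def S_Lim2 : Prop := ∀ (a b N : ℕ → ℕ) (ρ σ : ℝ), Seq a b N ρ σ →
  Tendsto (fun i => (N i : ℝ)^2/4 * (((FT (a i + 2) (b i + 2) (N i + 4) : ℚ) : ℝ) -
    ((FT (a i) (b i + 2) (N i + 2) : ℚ) : ℝ) - ((FT (a i + 2) (b i) (N i + 2) : ℚ) : ℝ) +
    ((FT (a i) (b i) (N i) : ℚ) : ℝ))) atTop (𝓝 (H2 ρ σ))

/-- TASK E1 -/
def S_E1 : Prop := S_g → S_G1 → S_G2 → S_D2 →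
  (∀ (a b N : ℕ → ℕ) (ρ σ : ℝ), Seq a b N ρ σ → S_Bd a b N) →
  (∀ (a b N : ℕ → ℕ) (ρ σ : ℝ), Seq a b N ρ σ → ∀ l l' : ℕ,
    Tendsto (fun i => (N i : ℝ)/2 * B1 (xi (a i) l) (gN (N i) (l+l'))) atTop
      (𝓝 (br1 (2*(l:ℝ) + 2/3) (2*((l+l' : ℕ) : ℝ) + 4/3) ρ))) → S_Lim1

/-- TASK E2 -/
def S_E2 : Prop := S_g → S_G1 → S_G2 → S_D2 →
  (∀ (a b N : ℕ → ℕ) (ρ σ : ℝ), Seq a b N ρ σ → S_Bd a b N) →
  (∀ (a b N : ℕ → ℕ) (ρ σ : ℝ), Seq a b N ρ σ → ∀ l l' : ℕ,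
    Tendsto (fun i => (N i : ℝ)^2/4 * B2 (xi (a i) l) (xi (b i) l') (gN (N i) (l+l'))
      (gN (N i + 2) (l+l'))) atTop (𝓝 (br2 (2*(l:ℝ) + 2/3) (2*(l':ℝ) + 2/3) ρ σ))) → S_Lim2

/-! ## TASK F: the series are the derivatives -/

/-- TASK F1 -/
def S_F1 : Prop := S1_F4 → S_D1 → ∀ α γ β : ℝ, 0 < α → 0 < γ → 0 < β →
  HasDerivAt (fun t => Gc (t/(t+γ+β)) (β/(t+γ+β)))
    (H1 (α/(α+γ+β)) (β/(α+γ+β)) / (α+γ+β)) α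

/-- TASK F2 -/
def S_F2 : Prop := S1_F4 → S_D1 → ∀ α γ β : ℝ, 0 < α → 0 < γ → 0 < β →
  HasDerivAt (fun t => H1 (α/(α+γ+t)) (t/(α+γ+t)) / (α+γ+t))
    (H2 (α/(α+γ+β)) (β/(α+γ+β)) / (α+γ+β)^2) β

/-! ## TASK K: closed forms -/

/-- the density of the left extent -/
noncomputable def hh (α γ β : ℝ) : ℝ := 2 / BB * α^(-(1:ℝ)/3) * β^((2:ℝ)/3) * γ^((1:ℝ)/6) *
  (γ + 2*β)^((1:ℝ)/6) * (γ + 2*α)^(-(5:ℝ)/6) * (γ + 2*α + 2*β)^(-(5:ℝ)/6)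

/-- the joint density -/
noncomputable def ff (α γ β : ℝ) : ℝ := 4 / (3*BB) * γ^((1:ℝ)/6) *
  (γ^2 + 2*γ*(α + β) + 5*α*β) / ((α*β)^((1:ℝ)/3) * ((γ + 2*α)*(γ + 2*β))^((5:ℝ)/6) *
    (γ + 2*α + 2*β)^((11:ℝ)/6))

/-- TASK K1 -/
def S_K1 : Prop := ∀ α γ β : ℝ, 0 < α → 0 < γ → 0 < β →
  HasDerivAt (fun t => Gc (t/(t+γ+β)) (β/(t+γ+β))) (hh α γ β) α

/-- TASK K2 -/
def S_K2 : Prop := ∀ α γ β : ℝ, 0 < α → 0 < γ → 0 < β →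
  HasDerivAt (fun t => hh α γ t) (ff α γ β) β

end Pool.Agent.H966.N5
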