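import Pool.Agent.H966.N5.Stm

/-!
Convergence in total variation (helper966): statements of two further tasks (nothing is proved here).
-/

set_option autoImplicit false

namespace Pool.Agent.H966.N5

open MeasureTheory Filter Topology Set

/-- the open quadrant -/
def Quad : Set (ℝ × ℝ) := Ioi 0 ×ˢ Ioi 0

/-- TASK M: `ff` is a probability density on the quadrant -/
def S_M : Prop := S_K1 → S_K2 → ∀ γ : ℝ, 0 < γ →
  IntegrableOn (fun p : ℝ × ℝ => ff p.1 γ p.2) Quad ∧ ∫ p in Quad, ff p.1 γ p.2 = 1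

/-- the cell of the indices `k`, `l` at mesh `δ` -/
def cell (δ : ℝ) (k l : ℕ) : Set (ℝ × ℝ) :=
  Ioc (δ*(2*k+1)) (δ*(2*k+3)) ×ˢ Ioc (δ*(2*l)) (δ*(2*l+2))

/-- TASK T: Scheffé's lemma for the probabilities of the cells -/
def S_T : Prop := ∀ (f : ℝ × ℝ → ℝ) (δ : ℕ → ℝ) (w : ℕ → ℕ → ℕ → ℝ),
  (∀ n, 0 < δ n) → Tendsto δ atTop (𝓝 0) → (∀ p ∈ Quad, 0 ≤ f p) → IntegrableOn f Quad →
  ∫ p in Quad, f p = 1 → (∀ n k l, 0 ≤ w n k l) →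
  (∀ n, ∀ s : Finset (ℕ × ℕ), ∑ p ∈ s, w n p.1 p.2 ≤ 1) →
  (∀ x y : ℝ, 0 < x → 0 < y → ∀ k l : ℕ → ℕ,
    Tendsto (fun n => δ n * (2*(k n : ℝ)+1)) atTop (𝓝 x) →
    Tendsto (fun n => δ n * (2*(l n : ℝ))) atTop (𝓝 y) →
    Tendsto (fun n => w n (k n) (l n) / (2 * δ n)^2) atTop (𝓝 (f (x, y)))) →
  ∀ ε : ℝ, 0 < ε → ∀ᶠ n in atTop, ∀ s : Finset (ℕ × ℕ),
    ∑ p ∈ s, |w n p.1 p.2 - ∫ q in cell (δ n) p.1 p.2, f q| < ε

end Pool.Agent.H966.N5
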