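import Pool.Agent.H966.N5.Stm2

/-!
Task T of the project N5 of helper966: Scheffe's lemma for the probabilities of the cells.
-/

set_option autoImplicit false

namespace Pool.Agent.H966.N5

open MeasureTheory Filter Topology Set

namespace T

/-- the index of the cell in the first coordinate -/
noncomputable def K (d x : ℝ) : ℕ := ⌈(x / d - 1) / 2⌉₊ - 1

/-- the index of the cell in the second coordinate -/
noncomputable def L (d y : ℝ) : ℕ := ⌈y / (2 * d)⌉₊ - 1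

theorem idx {t : ℝ} (ht : 0 < t) :
    ((⌈t⌉₊ - 1 : ℕ) : ℝ) < t ∧ t ≤ ((⌈t⌉₊ - 1 : ℕ) : ℝ) + 1 := by
  have h1 : 0 < ⌈t⌉₊ := Nat.ceil_pos.2 ht
  obtain ⟨m, hm⟩ : ∃ m, ⌈t⌉₊ = m + 1 := ⟨⌈t⌉₊ - 1, by omega⟩
  have h2 : m < ⌈t⌉₊ := by omega
  have h3 := Nat.lt_ceil.1 h2
  have h4 := Nat.le_ceil t
  rw [hm] at h4 ⊢
  rw [Nat.add_sub_cancel]
  push_cast at h4
  exact ⟨h3, h4⟩

theorem idx_eq {t : ℝ} {m : ℕ} (h1 : (m : ℝ) < t) (h2 : t ≤ m + 1) : ⌈t⌉₊ - 1 = m := by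
  have h3 : ⌈t⌉₊ = m + 1 := by
    rw [Nat.ceil_eq_iff (Nat.succ_ne_zero m), Nat.succ_sub_one, Nat.cast_succ]
    exact ⟨h1, h2⟩
  rw [h3, Nat.add_sub_cancel]

theorem K_spec {d x : ℝ} (hd : 0 < d) (hx : d < x) :
    d * (2 * (K d x : ℝ) + 1) < x ∧ x ≤ d * (2 * (K d x : ℝ) + 3) := by
  have ht : 0 < (x / d - 1) / 2 := by
    have h1 : 1 < x / d := (one_lt_div hd).2 hx
    linarith
  obtain ⟨h1, h2⟩ := idx ht
  change (K d x : ℝ) < _ at h1
  change _ ≤ (K d x : ℝ) + 1 at h2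
  have h3 : x = d * (x / d) := (mul_div_cancel₀ x hd.ne').symm
  constructor
  · have h4 : 2 * (K d x : ℝ) + 1 < x / d := by linarith
    calc d * (2 * (K d x : ℝ) + 1) < d * (x / d) := mul_lt_mul_of_pos_left h4 hd
      _ = x := h3.symm
  · have h4 : x / d ≤ 2 * (K d x : ℝ) + 3 := by linarith
    calc x = d * (x / d) := h3
      _ ≤ _ := mul_le_mul_of_nonneg_left h4 hd.le

theorem K_eq {d x : ℝ} {k : ℕ} (hd : 0 < d) (h1 : d * (2 * (k : ℝ) + 1) < x)
    (h2 : x ≤ d * (2 * (k : ℝ) + 3)) : K d x = k := by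
  apply idx_eq
  · have h3 : 2 * (k : ℝ) + 1 < x / d := by
      rw [lt_div_iff₀ hd]
      linarith
    linarith
  · have h3 : x / d ≤ 2 * (k : ℝ) + 3 := by
      rw [div_le_iff₀ hd]
      linarith
    linarith

theorem L_spec {d y : ℝ} (hd : 0 < d) (hy : 0 < y) :
    d * (2 * (L d y : ℝ)) < y ∧ y ≤ d * (2 * (L d y : ℝ) + 2) := by
  have ht : 0 < y / (2 * d) := by positivity
  obtain ⟨h1, h2⟩ := idx ht
  change (L d y : ℝ) < _ at h1
  change _ ≤ (L d y : ℝ) + 1 at h2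
  rw [lt_div_iff₀ (by positivity)] at h1
  rw [div_le_iff₀ (by positivity)] at h2
  constructor
  · linarith
  · linarith

theorem L_eq {d y : ℝ} {l : ℕ} (hd : 0 < d) (h1 : d * (2 * (l : ℝ)) < y)
    (h2 : y ≤ d * (2 * (l : ℝ) + 2)) : L d y = l := by
  apply idx_eq
  · rw [lt_div_iff₀ (by positivity)]
    linarith
  · rw [div_le_iff₀ (by positivity)]
    linarith

/-- the union of the cells -/
def A (d : ℝ) : Set (ℝ × ℝ) := Ioi d ×ˢ Ioi 0

theorem A_sub {d : ℝ} (hd : 0 < d) : A d ⊆ Quad := by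
  intro q hq
  exact ⟨lt_trans hd hq.1, hq.2⟩

theorem meas_A (d : ℝ) : MeasurableSet (A d) := measurableSet_Ioi.prod measurableSet_Ioi

theorem meas_Quad : MeasurableSet Quad := measurableSet_Ioi.prod measurableSet_Ioi

theorem meas_cell (d : ℝ) (p : ℕ × ℕ) : MeasurableSet (cell d p.1 p.2) :=
  measurableSet_Ioc.prod measurableSet_Ioc

theorem cell_eq {d : ℝ} (hd : 0 < d) {p : ℕ × ℕ} {q : ℝ × ℝ} (hq : q ∈ cell d p.1 p.2) :
    p = (K d q.1, L d q.2) := by
  have h1 := K_eq hd hq.1.1 hq.1.2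
  have h2 := L_eq hd hq.2.1 hq.2.2
  rw [h1, h2]

theorem iUnion_cell {d : ℝ} (hd : 0 < d) : ⋃ p : ℕ × ℕ, cell d p.1 p.2 = A d := by
  ext q
  rw [mem_iUnion]
  constructor
  · rintro ⟨p, hp⟩
    refine ⟨?_, ?_⟩
    · have h1 : d * (2 * (p.1 : ℝ) + 1) < q.1 := hp.1.1
      have h2 : (0 : ℝ) ≤ p.1 := Nat.cast_nonneg _
      change d < q.1
      nlinarith
    · have h1 : d * (2 * (p.2 : ℝ)) < q.2 := hp.2.1
      have h2 : (0 : ℝ) ≤ p.2 := Nat.cast_nonneg _
      change 0 < q.2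
      have h3 : 0 ≤ d * (2 * (p.2 : ℝ)) := by positivity
      linarith
  · intro hq
    exact ⟨(K d q.1, L d q.2), K_spec hd hq.1, L_spec hd hq.2⟩

theorem disj_cell {d : ℝ} (hd : 0 < d) :
    Pairwise (Function.onFun Disjoint fun p : ℕ × ℕ => cell d p.1 p.2) := by
  intro p p' hne
  change Disjoint (cell d p.1 p.2) (cell d p'.1 p'.2)
  rw [Set.disjoint_left]
  intro q hq hq'
  exact hne ((cell_eq hd hq).trans (cell_eq hd hq').symm)

theorem vol_cell {d : ℝ} (hd : 0 < d) (k l : ℕ) : volume.real (cell d k l) = (2 * d) ^ 2 := by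
  unfold cell
  rw [measureReal_def, Measure.volume_eq_prod, Measure.prod_prod, ENNReal.toReal_mul,
    Real.volume_Ioc, Real.volume_Ioc, ENNReal.toReal_ofReal (by linarith),
    ENNReal.toReal_ofReal (by linarith)]
  ring

/-- the density of the probabilities of the cells -/
noncomputable def F (d : ℝ) (w : ℕ → ℕ → ℝ) (q : ℝ × ℝ) : ℝ :=
  w (K d q.1) (L d q.2) / (2 * d) ^ 2

theorem meas_F (d : ℝ) (w : ℕ → ℕ → ℝ) : Measurable (F d w) := by
  have h1 : Measurable fun q : ℝ × ℝ => (K d q.1, L d q.2) := by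
    refine Measurable.prodMk ?_ ?_
    · have h2 : Measurable fun q : ℝ × ℝ => ⌈(q.1 / d - 1) / 2⌉₊ :=
        Nat.measurable_ceil.comp (((measurable_fst.div_const d).sub_const 1).div_const 2)
      exact (measurable_of_countable fun m : ℕ => m - 1).comp h2
    · have h2 : Measurable fun q : ℝ × ℝ => ⌈q.2 / (2 * d)⌉₊ :=
        Nat.measurable_ceil.comp (measurable_snd.div_const _)
      exact (measurable_of_countable fun m : ℕ => m - 1).comp h2
  exact (measurable_of_countable fun p : ℕ × ℕ => w p.1 p.2 / (2 * d) ^ 2).comp h1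

theorem F_nonneg {d : ℝ} {w : ℕ → ℕ → ℝ} (hw : ∀ k l, 0 ≤ w k l) (q : ℝ × ℝ) : 0 ≤ F d w q :=
  div_nonneg (hw _ _) (sq_nonneg _)

theorem int_F {d : ℝ} (hd : 0 < d) (w : ℕ → ℕ → ℝ) (p : ℕ × ℕ) :
    IntegrableOn (F d w) (cell d p.1 p.2) ∧ ∫ q in cell d p.1 p.2, F d w q = w p.1 p.2 := by
  have h1 : EqOn (F d w) (fun _ => w p.1 p.2 / (2 * d) ^ 2) (cell d p.1 p.2) := by
    intro q hq
    have h2 := cell_eq hd hq
    change w (K d q.1) (L d q.2) / (2 * d) ^ 2 = _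
    rw [h2]
  have hfin : volume (cell d p.1 p.2) ≠ ⊤ := by
    intro h
    have h2 := vol_cell hd p.1 p.2
    rw [measureReal_def, h, ENNReal.toReal_top] at h2
    have h3 : (0 : ℝ) < (2 * d) ^ 2 := by positivity
    linarith
  constructor
  · exact (integrableOn_congr_fun h1 (meas_cell d p)).2 (integrableOn_const hfin)
  · rw [setIntegral_congr_fun (meas_cell d p) h1, setIntegral_const, vol_cell hd, smul_eq_mul]
    have h3 : (0 : ℝ) < (2 * d) ^ 2 := by positivity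
    field_simp

/-- the positive part of the difference -/
noncomputable def D (f : ℝ × ℝ → ℝ) (d : ℝ) (w : ℕ → ℕ → ℝ) (q : ℝ × ℝ) : ℝ :=
  max (f q - F d w q) 0

theorem D_bound {f : ℝ × ℝ → ℝ} (hf : ∀ p ∈ Quad, 0 ≤ f p) {d : ℝ} {w : ℕ → ℕ → ℝ}
    (hw : ∀ k l, 0 ≤ w k l) : ∀ q ∈ Quad, ‖D f d w q‖ ≤ f q := by
  intro q hq
  have h1 : 0 ≤ D f d w q := le_max_right _ _
  rw [Real.norm_eq_abs, abs_of_nonneg h1]
  exact max_le (by linarith [F_nonneg (d := d) hw q]) (hf q hq)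

theorem int_D {f : ℝ × ℝ → ℝ} (hf : ∀ p ∈ Quad, 0 ≤ f p) (hfi : IntegrableOn f Quad) {d : ℝ}
    {w : ℕ → ℕ → ℝ} (hw : ∀ k l, 0 ≤ w k l) : IntegrableOn (D f d w) Quad := by
  have h1 : AEStronglyMeasurable (D f d w) (volume.restrict Quad) :=
    (hfi.1.sub (meas_F d w).aestronglyMeasurable).sup aestronglyMeasurable_const
  refine Integrable.mono' hfi h1 ?_
  rw [ae_restrict_iff' meas_Quad]
  exact Filter.Eventually.of_forall fun q hq => D_bound hf hw q hq

/-- the estimate for fixed mesh -/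
theorem main_est {f : ℝ × ℝ → ℝ} (hf : ∀ p ∈ Quad, 0 ≤ f p) (hfi : IntegrableOn f Quad) {d : ℝ}
    (hd : 0 < d) {w : ℕ → ℕ → ℝ} (hw : ∀ k l, 0 ≤ w k l)
    (hw1 : ∀ s : Finset (ℕ × ℕ), ∑ p ∈ s, w p.1 p.2 ≤ 1) {η : ℝ} (hη : 0 < η)
    (s : Finset (ℕ × ℕ)) :
    ∑ p ∈ s, |w p.1 p.2 - ∫ q in cell d p.1 p.2, f q| ≤
      2 * (∫ q in Quad, D f d w q) + 1 - (∫ q in A d, f q) + η := by
  classical
  have hfA : IntegrableOn f (⋃ p : ℕ × ℕ, cell d p.1 p.2) := by
    rw [iUnion_cell hd]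
    exact hfi.mono_set (A_sub hd)
  have hDA : IntegrableOn (D f d w) (⋃ p : ℕ × ℕ, cell d p.1 p.2) := by
    rw [iUnion_cell hd]
    exact (int_D hf hfi hw).mono_set (A_sub hd)
  have hcell : ∀ p : ℕ × ℕ, cell d p.1 p.2 ⊆ ⋃ p : ℕ × ℕ, cell d p.1 p.2 := fun p =>
    subset_iUnion (fun p : ℕ × ℕ => cell d p.1 p.2) p
  have h1 : HasSum (fun p : ℕ × ℕ => ∫ q in cell d p.1 p.2, f q) (∫ q in A d, f q) := by
    have h2 := hasSum_integral_iUnion (fun p : ℕ × ℕ => meas_cell d p) (disj_cell hd) hfA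
    rwa [iUnion_cell hd] at h2
  have h2 : HasSum (fun p : ℕ × ℕ => ∫ q in cell d p.1 p.2, D f d w q)
      (∫ q in A d, D f d w q) := by
    have h2 := hasSum_integral_iUnion (fun p : ℕ × ℕ => meas_cell d p) (disj_cell hd) hDA
    rwa [iUnion_cell hd] at h2
  -- enlarge `s`
  obtain ⟨s', hss', hs'⟩ : ∃ s' : Finset (ℕ × ℕ), s ⊆ s' ∧
      (∫ q in A d, f q) - η < ∑ p ∈ s', ∫ q in cell d p.1 p.2, f q := by
    have h3 : ∀ᶠ t : Finset (ℕ × ℕ) in atTop,
        (∫ q in A d, f q) - η < ∑ p ∈ t, ∫ q in cell d p.1 p.2, f q :=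
      h1.eventually (lt_mem_nhds (by linarith))
    obtain ⟨t, ht⟩ := Filter.eventually_atTop.1 h3
    exact ⟨s ∪ t, Finset.subset_union_left, ht _ Finset.subset_union_right⟩
  have h3 : ∀ p : ℕ × ℕ, |w p.1 p.2 - ∫ q in cell d p.1 p.2, f q| ≤
      2 * (∫ q in cell d p.1 p.2, D f d w q) + w p.1 p.2 - ∫ q in cell d p.1 p.2, f q := by
    intro p
    have hfp : IntegrableOn f (cell d p.1 p.2) := hfA.mono_set (hcell p)
    have hDp : IntegrableOn (D f d w) (cell d p.1 p.2) := hDA.mono_set (hcell p)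
    have h4 : (∫ q in cell d p.1 p.2, f q) - w p.1 p.2 ≤ ∫ q in cell d p.1 p.2, D f d w q := by
      rw [← (int_F hd w p).2, ← integral_sub hfp (int_F hd w p).1]
      exact setIntegral_mono (hfp.sub (int_F hd w p).1) hDp fun q => le_max_left _ _
    have h5 : 0 ≤ ∫ q in cell d p.1 p.2, D f d w q :=
      setIntegral_nonneg (meas_cell d p) fun q _ => le_max_right _ _
    rw [abs_le]
    constructor <;> linarith
  have h4 : ∑ p ∈ s', ∫ q in cell d p.1 p.2, D f d w q ≤ ∫ q in Quad, D f d w q := by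
    refine (sum_le_hasSum s' (fun p _ => ?_) h2).trans ?_
    · exact setIntegral_nonneg (meas_cell d p) fun q _ => le_max_right _ _
    · refine setIntegral_mono_set (int_D hf hfi hw) ?_ (A_sub hd).eventuallyLE
      exact Filter.Eventually.of_forall fun q => le_max_right _ _
  calc ∑ p ∈ s, |w p.1 p.2 - ∫ q in cell d p.1 p.2, f q|
      ≤ ∑ p ∈ s', |w p.1 p.2 - ∫ q in cell d p.1 p.2, f q| :=
        Finset.sum_le_sum_of_subset_of_nonneg hss' fun _ _ _ => abs_nonneg _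
    _ ≤ ∑ p ∈ s', (2 * (∫ q in cell d p.1 p.2, D f d w q) + w p.1 p.2 -
          ∫ q in cell d p.1 p.2, f q) := Finset.sum_le_sum fun p _ => h3 p
    _ = 2 * (∑ p ∈ s', ∫ q in cell d p.1 p.2, D f d w q) + (∑ p ∈ s', w p.1 p.2) -
          ∑ p ∈ s', ∫ q in cell d p.1 p.2, f q := by
        rw [Finset.sum_sub_distrib, Finset.sum_add_distrib, ← Finset.mul_sum]
    _ ≤ _ := by
        have h5 := hw1 s'
        linarith

/-- the first integral tends to zero -/
theorem lim_D {f : ℝ × ℝ → ℝ} {δ : ℕ → ℝ} {w : ℕ → ℕ → ℕ → ℝ} (hδ : ∀ n, 0 < δ n)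
    (hδ0 : Tendsto δ atTop (𝓝 0)) (hf : ∀ p ∈ Quad, 0 ≤ f p) (hfi : IntegrableOn f Quad)
    (hw : ∀ n k l, 0 ≤ w n k l)
    (hlim : ∀ x y : ℝ, 0 < x → 0 < y → ∀ k l : ℕ → ℕ,
      Tendsto (fun n => δ n * (2*(k n : ℝ)+1)) atTop (𝓝 x) →
      Tendsto (fun n => δ n * (2*(l n : ℝ))) atTop (𝓝 y) →
      Tendsto (fun n => w n (k n) (l n) / (2 * δ n)^2) atTop (𝓝 (f (x, y)))) :
    Tendsto (fun n => ∫ q in Quad, D f (δ n) (w n) q) atTop (𝓝 0) := by
  have h0 : (0 : ℝ) = ∫ q in Quad, (fun _ : ℝ × ℝ => (0 : ℝ)) q := by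
    simp
  rw [h0]
  refine tendsto_integral_of_dominated_convergence f ?_ hfi ?_ ?_
  · intro n
    exact (int_D hf hfi (hw n)).1
  · intro n
    rw [ae_restrict_iff' meas_Quad]
    exact Filter.Eventually.of_forall fun q hq => D_bound hf (hw n) q hq
  · rw [ae_restrict_iff' meas_Quad]
    refine Filter.Eventually.of_forall fun q hq => ?_
    obtain ⟨hx, hy⟩ := hq
    have h1 : Tendsto (fun n => q.1 - 2 * δ n) atTop (𝓝 q.1) := by
      have h2 := (hδ0.const_mul 2).const_sub q.1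
      rwa [mul_zero, sub_zero] at h2
    have h2 : Tendsto (fun n => q.2 - 2 * δ n) atTop (𝓝 q.2) := by
      have h2 := (hδ0.const_mul 2).const_sub q.2
      rwa [mul_zero, sub_zero] at h2
    have h3 : ∀ᶠ n in atTop, δ n < q.1 := hδ0.eventually (gt_mem_nhds hx)
    have h4 : Tendsto (fun n => δ n * (2 * (K (δ n) q.1 : ℝ) + 1)) atTop (𝓝 q.1) := by
      refine tendsto_of_tendsto_of_tendsto_of_le_of_le' h1 tendsto_const_nhds ?_ ?_
      · filter_upwards [h3] with n hn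
        have := (K_spec (hδ n) hn).2
        linarith
      · filter_upwards [h3] with n hn
        exact (K_spec (hδ n) hn).1.le
    have h5 : Tendsto (fun n => δ n * (2 * (L (δ n) q.2 : ℝ))) atTop (𝓝 q.2) := by
      refine tendsto_of_tendsto_of_tendsto_of_le_of_le h2 tendsto_const_nhds ?_ ?_
      · intro n
        have := (L_spec (hδ n) hy).2
        change q.2 - 2 * δ n ≤ δ n * (2 * (L (δ n) q.2 : ℝ))
        linarith
      · intro n
        exact (L_spec (hδ n) hy).1.le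
    have h6 := hlim q.1 q.2 hx hy (fun n => K (δ n) q.1) (fun n => L (δ n) q.2) h4 h5
    have h7 : Tendsto (fun n => F (δ n) (w n) q) atTop (𝓝 (f q)) := h6
    have h8 : Tendsto (fun n => max (f q - F (δ n) (w n) q) 0) atTop
        (𝓝 (max (f q - f q) 0)) := (h7.const_sub (f q)).max tendsto_const_nhds
    rw [sub_self, max_self] at h8
    exact h8

/-- the second integral tends to the total integral -/
theorem lim_A {f : ℝ × ℝ → ℝ} {δ : ℕ → ℝ} (hδ : ∀ n, 0 < δ n)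
    (hδ0 : Tendsto δ atTop (𝓝 0)) (hf : ∀ p ∈ Quad, 0 ≤ f p) (hfi : IntegrableOn f Quad) :
    Tendsto (fun n => ∫ q in A (δ n), f q) atTop (𝓝 (∫ q in Quad, f q)) := by
  have h1 : ∀ n, ∫ q in A (δ n), f q = ∫ q in Quad, (A (δ n)).indicator f q := by
    intro n
    rw [setIntegral_indicator (meas_A _), inter_eq_right.2 (A_sub (hδ n))]
  simp only [h1]
  refine tendsto_integral_of_dominated_convergence f ?_ hfi ?_ ?_
  · intro n
    exact hfi.1.indicator (meas_A _)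
  · intro n
    rw [ae_restrict_iff' meas_Quad]
    refine Filter.Eventually.of_forall fun q hq => ?_
    by_cases h2 : q ∈ A (δ n)
    · rw [indicator_of_mem h2, Real.norm_eq_abs, abs_of_nonneg (hf q hq)]
    · rw [indicator_of_notMem h2, norm_zero]
      exact hf q hq
  · rw [ae_restrict_iff' meas_Quad]
    refine Filter.Eventually.of_forall fun q hq => ?_
    have h3 : ∀ᶠ n in atTop, δ n < q.1 := hδ0.eventually (gt_mem_nhds hq.1)
    refine tendsto_const_nhds.congr' ?_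
    filter_upwards [h3] with n hn
    rw [indicator_of_mem]
    exact ⟨hn, hq.2⟩

end T

open T in
theorem t_T : S_T := by
  intro f δ w hδ hδ0 hf hfi hf1 hw hw1 hlim ε hε
  have h1 := lim_D hδ hδ0 hf hfi hw hlim
  have h2 := lim_A hδ hδ0 hf hfi
  rw [hf1] at h2
  filter_upwards [h1.eventually (gt_mem_nhds (show (0 : ℝ) < ε / 8 by positivity)),
    h2.eventually (lt_mem_nhds (show (1 : ℝ) - ε / 4 < 1 by linarith))] with n hn1 hn2
  intro s
  have h3 := main_est hf hfi (hδ n) (hw n) (hw1 n) (show (0 : ℝ) < ε / 4 by positivity) s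
  linarith

end Pool.Agent.H966.N5
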